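import Pool.Agent.Y774.MD.Bridge

/-!
# The modulus on the edge decides about the continuation
-/

set_option autoImplicit false

namespace Pool.Agent.Y774.MD

open Filter Topology MeasureTheory Finset Polynomial NumberField IsDedekindDomain
  Pool.Agent.H921R2.TatePole Pool.Agent.TH958.BV

/-- The values of `f` are concentrated: there is `δ > 0` such that for every `ε > 0` there are
arbitrarily large `T` and a real number `x` with `|f - x| < ε` on a subset of `(0, T]` of measure at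
least `δ T`. -/
def Concentrated (f : ℝ → ℝ) : Prop :=
  ∃ δ : ℝ, 0 < δ ∧ ∀ ε : ℝ, 0 < ε → ∃ᶠ T : ℝ in atTop, ∃ x : ℝ,
    ENNReal.ofReal (δ * T) ≤ volume {τ | τ ∈ Set.Ioc 0 T ∧ |f τ - x| < ε}

lemma not_concentrated {f : ℝ → ℝ} (h : ∀ δ : ℝ, 0 < δ → ∃ ε : ℝ, 0 < ε ∧ ∀ᶠ T : ℝ in atTop,
    ∀ x : ℝ, volume {τ | τ ∈ Set.Ioc 0 T ∧ |f τ - x| < ε} ≤ ENNReal.ofReal (δ * T)) :
    ¬ Concentrated f := by
  rintro ⟨δ, hδ, h1⟩
  obtain ⟨ε, hε, h2⟩ := h (δ / 2) (by positivity)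
  obtain ⟨T, ⟨x, hx⟩, hT, hT0⟩ := ((h1 ε hε).and_eventually (h2.and (eventually_gt_atTop 0))).exists
  have h3 := hx.trans (hT x)
  rw [ENNReal.ofReal_le_ofReal_iff (by positivity)] at h3
  nlinarith

lemma option_euler {κ : Type} {P₀ : ℕ → ℂ[X]} {P : κ → ℕ → ℂ[X]}
    (h₀ : ∃ D θ C E, IsEuler P₀ D θ C E) (h : ∀ k, ∃ D θ C E, IsEuler (P k) D θ C E) :
    ∀ o : Option κ, ∃ D θ C E, IsEuler (fun p => Option.elim o (P₀ p) fun k => P k p) D θ C E := by
  rintro (_ | k)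
  · exact h₀
  · exact h k

section

variable {κ : Type} [Fintype κ] {P₀ : ℕ → ℂ[X]} {P : κ → ℕ → ℂ[X]} {m : κ → ℤ} {t : κ → ℝ}

/-- The real function compared. -/
noncomputable def cmp (P₀ : ℕ → ℂ[X]) (P : κ → ℕ → ℂ[X]) (m : κ → ℤ) (t : κ → ℝ) (τ : ℝ) : ℝ :=
  Real.log (eabs P₀ τ) - ∑ k, m k * Real.log (eabs (P k) (τ + t k))

/-- If the values are concentrated, the logarithms of the factors satisfy a relation. -/
theorem relation (h₀ : ∃ D θ C E, IsEuler P₀ D θ C E) (h : ∀ k, ∃ D θ C E, IsEuler (P k) D θ C E)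
    (hc : Concentrated (cmp P₀ P m t)) {q : ℕ} (hq : q.Prime) (hg₀ : GoodAt (P₀ q) q)
    (hg : ∀ k, GoodAt (P k q) q) {z : ℂ} (hz : ‖z‖ ≤ 1 / q) :
    LG (inv (P₀ q)) z = ∑ k, (m k : ℂ) * LG (inv (P k q)) (rot q (t k) * z) := by
  set Q : Option κ → ℕ → ℂ[X] := fun o p => Option.elim o (P₀ p) fun k => P k p with hQ
  set M : Option κ → ℝ := fun o => Option.elim o 1 fun k => -(m k : ℝ) with hM
  set T : Option κ → ℝ := fun o => Option.elim o 0 t with hT
  have hG : Gf Q M T = cmp P₀ P m t := by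
    funext τ
    unfold Gf cmp
    rw [Fintype.sum_option]
    simp only [hQ, hM, hT, Option.elim_none, Option.elim_some, one_mul, add_zero, neg_mul,
      sum_neg_distrib]
    ring
  rcases dichotomy (Q := Q) (m := M) (t := T) (option_euler h₀ h) with h1 | h1
  · rw [hG] at h1
    exact absurd hc (not_concentrated h1)
  · have h2 := h1 q hq (by rintro (_ | k); exacts [hg₀, hg k]) z hz
    unfold HH at h2
    rw [Fintype.sum_option] at h2
    simp only [hQ, hM, hT, Option.elim_none, Option.elim_some] at h2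
    have h3 : rot q 0 = 1 := by simp [rot]
    rw [h3] at h2
    push_cast at h2
    simp only [one_mul, neg_mul, sum_neg_distrib] at h2
    rw [← sub_eq_zero, sub_eq_add_neg]
    exact h2

lemma GoodAt.fac_eq {P : ℕ → ℂ[X]} {q : ℕ} (hq : q.Prime) (h : GoodAt (P q) q) {s : ℂ}
    (hs : 1 ≤ s.re) : fac P q s = Complex.exp (LG (inv (P q)) ((q : ℂ) ^ (-s))) := by
  obtain ⟨b, hb1, hb2⟩ := h.radius
  have hq0 : (0 : ℝ) < q := by exact_mod_cast hq.pos
  have hq1 : (1 : ℝ) ≤ q := by exact_mod_cast hq.one_le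
  have hb0 : 0 < b := lt_trans (by positivity) hb1
  have h1 : ‖(q : ℂ) ^ (-s)‖ ≤ 1 / q := by
    rw [Complex.norm_natCast_cpow_of_pos hq.pos, one_div, ← Real.rpow_neg_one]
    refine Real.rpow_le_rpow_of_exponent_le hq1 ?_
    rw [Complex.neg_re]
    linarith
  unfold fac
  rw [eval_inv h.1, exp_LG]
  intro a ha
  refine Complex.slitPlane_ne_zero (one_sub_slit ?_)
  rw [norm_mul]
  calc ‖a‖ * ‖(q : ℂ) ^ (-s)‖ ≤ b⁻¹ * (1 / q) :=
        mul_le_mul (norm_inv_le h.1 hb0 hb2 a ha) h1 (norm_nonneg _) (by positivity)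
    _ < b⁻¹ * b := mul_lt_mul_of_pos_left hb1 (by positivity)
    _ = 1 := inv_mul_cancel₀ hb0.ne'

/-- The relation between the Euler factors. -/
theorem factors (h₀ : ∃ D θ C E, IsEuler P₀ D θ C E) (h : ∀ k, ∃ D θ C E, IsEuler (P k) D θ C E)
    (hc : Concentrated (cmp P₀ P m t)) {q : ℕ} (hq : q.Prime) (hg₀ : GoodAt (P₀ q) q)
    (hg : ∀ k, GoodAt (P k q) q) {s : ℂ} (hs : 1 ≤ s.re) :
    fac P₀ q s = ∏ k, fac (P k) q (s + t k * Complex.I) ^ m k := by
  have hq1 : (1 : ℝ) ≤ q := by exact_mod_cast hq.one_le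
  have h1 : ‖(q : ℂ) ^ (-s)‖ ≤ 1 / q := by
    rw [Complex.norm_natCast_cpow_of_pos hq.pos, one_div, ← Real.rpow_neg_one]
    refine Real.rpow_le_rpow_of_exponent_le hq1 ?_
    rw [Complex.neg_re]
    linarith
  rw [hg₀.fac_eq hq hs, relation h₀ h hc hq hg₀ hg h1, Complex.exp_sum]
  refine prod_congr rfl fun k _ => ?_
  have hre : 1 ≤ (s + t k * Complex.I).re := by simpa using hs
  rw [(hg k).fac_eq hq hre, rot_mul hq.pos, Complex.exp_int_mul]

lemma IsEuler.goodAt {P : ℕ → ℂ[X]} {D : ℕ} {θ C : ℝ} {E : Finset ℕ} (h : IsEuler P D θ C E)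
    {q : ℕ} (hq : q.Prime) (hqE : q ∉ E) : GoodAt (P q) q := by
  obtain ⟨h0, hd, hz⟩ := h.good q hq hqE
  refine ⟨h0, fun z h1 => lt_of_lt_of_le ?_ (hz z h1)⟩
  have hq1 : (1 : ℝ) < q := by exact_mod_cast hq.one_lt
  rw [one_div, ← Real.rpow_neg_one]
  refine Real.rpow_lt_rpow_of_exponent_lt hq1 ?_
  have := h.hθ
  linarith

/-- The transfer of the continuation. -/
theorem continuation (h₀ : ∃ D θ C E, IsEuler P₀ D θ C E)
    (h : ∀ k, ∃ D θ C E, IsEuler (P k) D θ C E) (hc : Concentrated (cmp P₀ P m t))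
    (hcont : ∀ k, Continues (LQ (P k)) 1) : Continues (LQ P₀) 1 := by
  classical
  obtain ⟨D₀, θ₀, C₀, E₀, h₀'⟩ := id h₀
  choose D θ C E hE using id h
  set E' := E₀ ∪ univ.biUnion E with hE'
  have h₀'' := h₀'.mono (show E₀ ⊆ E' from subset_union_left)
  have hE'' : ∀ k, IsEuler (P k) (D k) (θ k) (C k) E' := fun k =>
    (hE k).mono ((subset_biUnion_of_mem E (mem_univ k)).trans subset_union_right)
  refine transfer h₀'' hE'' m t (fun q hq hqE z hz => ?_) hcont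
  exact relation h₀ h hc hq (h₀''.goodAt hq hqE) (fun k => (hE'' k).goodAt hq hqE) hz

/-- Equality of the Euler products. -/
theorem equality (h₀ : ∃ D θ C E, IsEuler P₀ D θ C E)
    (h : ∀ k, ∃ D θ C E, IsEuler (P k) D θ C E) (hc : Concentrated (cmp P₀ P m t))
    (hg₀ : ∀ q : ℕ, q.Prime → GoodAt (P₀ q) q) (hg : ∀ k, ∀ q : ℕ, q.Prime → GoodAt (P k q) q)
    {s : ℂ} (hs : 1 < s.re) : LQ P₀ s = ∏ k, LQ (P k) (s + t k * Complex.I) ^ m k := by
  classical
  obtain ⟨D₀, θ₀, C₀, E₀, h₀'⟩ := id h₀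
  choose D θ C E hE using id h
  set E' := E₀ ∪ univ.biUnion E with hE'
  have h₀'' := h₀'.mono (show E₀ ⊆ E' from subset_union_left)
  have hE'' : ∀ k, IsEuler (P k) (D k) (θ k) (C k) E' := fun k =>
    (hE k).mono ((subset_biUnion_of_mem E (mem_univ k)).trans subset_union_right)
  have hre : ∀ k, 1 < (s + t k * Complex.I).re := fun k => by simpa using hs
  have h1 : LQ P₀ s = (∏ n ∈ E'.filter Nat.Prime, fac P₀ n s) * Complex.exp (∑' n, SS P₀ E' s n) :=
    (h₀''.hasProd hs).tprod_eq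
  have h2 : ∀ k, LQ (P k) (s + t k * Complex.I) = (∏ n ∈ E'.filter Nat.Prime,
      fac (P k) n (s + t k * Complex.I)) *
      Complex.exp (∑' n, SS (P k) E' (s + t k * Complex.I) n) := fun k =>
    ((hE'' k).hasProd (hre k)).tprod_eq
  have h3 : ∑' n, SS P₀ E' s n = ∑ k, (m k : ℂ) * ∑' n, SS (P k) E' (s + t k * Complex.I) n := by
    have h4 : ∀ k, Summable fun n => (m k : ℂ) * SS (P k) E' (s + t k * Complex.I) n := fun k =>
      ((hE'' k).summable_SS (hre k)).mul_left _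
    simp_rw [← tsum_mul_left]
    rw [← Summable.tsum_finsetSum fun k _ => h4 k]
    refine tsum_congr fun n => ?_
    unfold SS
    split_ifs with hn
    · have h5 : ‖(n : ℂ) ^ (-s)‖ ≤ 1 / n := by
        have hn1 : (1 : ℝ) ≤ n := by exact_mod_cast hn.1.one_le
        rw [Complex.norm_natCast_cpow_of_pos hn.1.pos, one_div, ← Real.rpow_neg_one]
        refine Real.rpow_le_rpow_of_exponent_le hn1 ?_
        rw [Complex.neg_re]
        linarith
      rw [relation h₀ h hc hn.1 (hg₀ n hn.1) (fun k => hg k n hn.1) h5]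
      refine sum_congr rfl fun k _ => ?_
      rw [rot_mul hn.1.pos]
    · simp
  rw [h1, h3, Complex.exp_sum]
  have h6 : ∏ n ∈ E'.filter Nat.Prime, fac P₀ n s =
      ∏ k, (∏ n ∈ E'.filter Nat.Prime, fac (P k) n (s + t k * Complex.I)) ^ m k := by
    have h7 : ∀ n ∈ E'.filter Nat.Prime, fac P₀ n s =
        ∏ k, fac (P k) n (s + t k * Complex.I) ^ m k := by
      intro n hn
      have hn' := (mem_filter.1 hn).2
      exact factors h₀ h hc hn' (hg₀ n hn') (fun k => hg k n hn') hs.le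
    rw [prod_congr rfl h7, Finset.prod_comm]
    refine prod_congr rfl fun k _ => ?_
    exact Finset.prod_zpow _ _ _
  rw [h6, ← prod_mul_distrib]
  refine prod_congr rfl fun k _ => ?_
  rw [h2 k, mul_zpow, Complex.exp_int_mul]

end

section

variable {K : Type} [Field K] [NumberField K]

/-- The factor `B` at `v` is `1` at `0` and has no zeros in `|z| ≤ q_v^{-(w/2+1)}`. -/
def GoodPlace (B : HeightOneSpectrum (𝓞 K) → ℂ[X]) (w : ℝ) (v : HeightOneSpectrum (𝓞 K)) : Prop :=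
  (B v).coeff 0 = 1 ∧
    ∀ z : ℂ, (B v).eval z = 0 → (Ideal.absNorm v.asIdeal : ℝ) ^ (-(w / 2 + 1)) < ‖z‖

lemma below_eq_iff {v : HeightOneSpectrum (𝓞 K)} {q : ℕ} (hq : q.Prime) :
    (below v : ℕ) = q ↔ ((q : ℕ) : 𝓞 K) ∈ v.asIdeal := by
  constructor
  · rintro rfl
    exact (nm_eq v).2.2
  · intro h
    by_contra hne
    have hcop : Nat.Coprime (below v : ℕ) q :=
      (Nat.coprime_primes (below v).2 hq).2 hne
    have h1 : IsCoprime ((below v : ℕ) : ℤ) (q : ℤ) := Nat.isCoprime_iff_coprime.2 hcop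
    obtain ⟨a, b, hab⟩ := h1
    have h2 : (1 : 𝓞 K) = (a : 𝓞 K) * ((below v : ℕ) : 𝓞 K) + (b : 𝓞 K) * ((q : ℕ) : 𝓞 K) := by
      have := congrArg (fun z : ℤ => (z : 𝓞 K)) hab
      push_cast at this
      exact this.symm
    have h3 : (1 : 𝓞 K) ∈ v.asIdeal := by
      rw [h2]
      exact v.asIdeal.add_mem (v.asIdeal.mul_mem_left _ (nm_eq v).2.2)
        (v.asIdeal.mul_mem_left _ h)
    exact v.isPrime.ne_top ((Ideal.eq_top_iff_one _).2 h3)

lemma goodAt_GP {B : HeightOneSpectrum (𝓞 K) → ℂ[X]} {w : ℝ} {q : ℕ} (hq : q.Prime)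
    (h : ∀ v : HeightOneSpectrum (𝓞 K), ((q : ℕ) : 𝓞 K) ∈ v.asIdeal → GoodPlace B w v) :
    GoodAt (GP B w q) q := by
  have h' : ∀ v : {v : HeightOneSpectrum (𝓞 K) // below v = ⟨q, hq⟩}, GoodPlace B w v.1 := by
    intro v
    refine h v.1 ((below_eq_iff hq).1 ?_)
    rw [v.2]
  refine ⟨?_, fun z hz => ?_⟩
  · rw [coeff_zero_GP B w hq]
    exact prod_eq_one fun v _ => (h' v).1
  · rw [GP_eval B w hq, prod_eq_zero_iff] at hz
    obtain ⟨v, -, hv⟩ := hz
    have h1 := (h' v).2 _ hv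
    obtain ⟨e1, e2, _⟩ := nm_eq v.1
    have hb : ((below v.1 : Nat.Primes) : ℕ) = q := by rw [v.2]
    rw [hb] at e1
    have hqr : (0 : ℝ) < q := by exact_mod_cast hq.pos
    have hnr : (0 : ℝ) < nm v.1 := by exact_mod_cast nm_pos v.1
    have hc : 0 < (nm v.1 : ℝ) ^ (-(w / 2)) := Real.rpow_pos_of_pos hnr _
    rw [norm_mul, Complex.norm_real, Real.norm_of_nonneg hc.le, norm_pow] at h1
    have h2 : (nm v.1 : ℝ) ^ (-(w / 2)) * ((nm v.1 : ℝ))⁻¹ <
        (nm v.1 : ℝ) ^ (-(w / 2)) * ‖z‖ ^ deg v.1 := by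
      refine lt_of_le_of_lt (le_of_eq ?_) h1
      rw [← Real.rpow_neg_one, ← Real.rpow_add hnr]
      congr 1
      ring
    have h3 := lt_of_mul_lt_mul_left h2 hc.le
    have h4 : ((nm v.1 : ℝ))⁻¹ = (1 / (q : ℝ)) ^ deg v.1 := by
      rw [e1, one_div, inv_pow]
      push_cast
      rfl
    rw [h4] at h3
    exact lt_of_pow_lt_pow_left₀ _ (norm_nonneg _) h3

lemma fac_GP_finprod (B : HeightOneSpectrum (𝓞 K) → ℂ[X]) (w : ℝ) {q : ℕ} (hq : q.Prime) (s : ℂ) :
    fac (GP B w) q s = ∏ᶠ v ∈ {v : HeightOneSpectrum (𝓞 K) | ((q : ℕ) : 𝓞 K) ∈ v.asIdeal},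
      localFactor B v (((w / 2 : ℝ) : ℂ) + s) := by
  classical
  have h1 : {v : HeightOneSpectrum (𝓞 K) | ((q : ℕ) : 𝓞 K) ∈ v.asIdeal} =
      {v | below v = ⟨q, hq⟩} := by
    ext v
    rw [Set.mem_ofPred_eq, Set.mem_ofPred_eq, ← below_eq_iff hq]
    constructor
    · intro h
      exact Subtype.ext h
    · intro h
      rw [h]
  have hfin : {v : HeightOneSpectrum (𝓞 K) | below v = ⟨q, hq⟩}.Finite := fiber_finite _
  rw [h1, finprod_mem_eq_finite_toFinset_prod _ hfin, fac_GP B w hq]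
  refine (Finset.prod_subtype hfin.toFinset (p := fun v => below v = ⟨q, hq⟩) (fun v => ?_)
    (fun v => localFactor B v (((w / 2 : ℝ) : ℂ) + s))).symm
  simp

end

end Pool.Agent.Y774.MD
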