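import Pool.Agent.Y774.MD.Conc

/-!
# The limiting distribution has no atoms
-/

set_option autoImplicit false

namespace Pool.Agent.Y774.MD

open Filter Topology MeasureTheory Finset Pool.Agent.W350.Edge
open scoped ENNReal

/-- Sums of powers of a point of the circle. -/
lemma geom_bound {y : ℝ} (hy : ei y ≠ 1) (n : ℕ) :
    ‖∑ j ∈ range n, ei (j * y)‖ ≤ 2 / ‖ei y - 1‖ := by
  have h1 : ∀ j : ℕ, ei (j * y) = ei y ^ j := by
    intro j
    unfold ei
    rw [← Complex.exp_nat_mul]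
    congr 1
    push_cast
    ring
  simp_rw [h1]
  rw [geom_sum_eq hy, norm_div]
  refine div_le_div_of_nonneg_right ?_ (norm_nonneg _)
  refine (norm_sub_le _ _).trans ?_
  rw [norm_pow, norm_ei, one_pow, norm_one]
  norm_num

lemma double_sum (n : ℕ) (y : ℝ) :
    ∑ j ∈ range n, ∑ k ∈ range n, ei (((j : ℝ) - k) * y) =
      ((‖∑ j ∈ range n, ei (j * y)‖ ^ 2 : ℝ) : ℂ) := by
  have h1 : (((‖∑ j ∈ range n, ei (j * y)‖ ^ 2 : ℝ)) : ℂ) = (∑ j ∈ range n, ei (j * y)) *
      (starRingEnd ℂ) (∑ j ∈ range n, ei (j * y)) := by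
    rw [Complex.mul_conj, Complex.normSq_eq_norm_sq]
  rw [h1, map_sum, sum_mul_sum]
  refine sum_congr rfl fun j _ => sum_congr rfl fun k _ => ?_
  rw [← ei_neg, ← ei_add]
  congr 1
  ring

/-- Wiener's lemma for a bounded random variable without atoms. -/
lemma wiener {Ω : Type*} [MeasurableSpace Ω] (μ : Measure Ω) [IsProbabilityMeasure μ] (X : Ω → ℝ)
    (hX : Measurable X) {R : ℝ} (hR : ∀ ω, |X ω| ≤ R) (hna : ∀ x, μ {ω | X ω = x} = 0)
    {s : ℝ} (hs : 0 < s) (hsR : s * (2 * R) < 2 * Real.pi) :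
    Tendsto (fun n : ℕ => (∑ j ∈ range n, ∑ k ∈ range n,
      ‖∫ ω, ei (((j : ℝ) - k) * s * X ω) ∂μ‖ ^ 2) / (n : ℝ) ^ 2) atTop (𝓝 0) := by
  set D : ℕ → Ω × Ω → ℝ := fun n z => ‖∑ j ∈ range n, ei (j * (s * (X z.1 - X z.2)))‖ ^ 2 / (n : ℝ) ^ 2
    with hD
  have hDm : ∀ n, Measurable (D n) := by
    intro n
    simp only [hD]
    refine Measurable.div_const (Measurable.pow_const ?_ 2) _
    refine Measurable.norm (Finset.measurable_sum _ fun j _ => ?_)
    exact continuous_ei.measurable.comp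
      ((((hX.comp measurable_fst).sub (hX.comp measurable_snd)).const_mul s).const_mul _)
  have hDb : ∀ n z, ‖D n z‖ ≤ 1 := by
    intro n z
    simp only [hD]
    rw [Real.norm_of_nonneg (by positivity)]
    rcases Nat.eq_zero_or_pos n with hn | hn
    · subst hn
      simp
    · have hn' : (0 : ℝ) < n := by exact_mod_cast hn
      rw [div_le_one (by positivity)]
      refine pow_le_pow_left₀ (norm_nonneg _) ?_ 2
      refine (norm_sum_le _ _).trans ?_
      simp [norm_ei]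
  have hlim : ∀ᵐ z ∂(μ.prod μ), Tendsto (fun n => D n z) atTop (𝓝 0) := by
    have hae : ∀ᵐ z ∂(μ.prod μ), X z.1 ≠ X z.2 := by
      have hms : MeasurableSet {z : Ω × Ω | X z.1 = X z.2} :=
        measurableSet_eq_fun (hX.comp measurable_fst) (hX.comp measurable_snd)
      rw [ae_iff]
      have h1 : {z : Ω × Ω | ¬ X z.1 ≠ X z.2} = {z : Ω × Ω | X z.1 = X z.2} := by
        ext z
        simp
      rw [h1, Measure.prod_apply hms]
      refine lintegral_eq_zero_of_ae_eq_zero (ae_of_all _ fun ω => ?_)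
      show μ (Prod.mk ω ⁻¹' {z : Ω × Ω | X z.1 = X z.2}) = 0
      have h2 : Prod.mk ω ⁻¹' {z : Ω × Ω | X z.1 = X z.2} = {ω' | X ω' = X ω} := by
        ext ω'
        simp [eq_comm]
      rw [h2]
      exact hna _
    filter_upwards [hae] with z hz
    set y := s * (X z.1 - X z.2) with hy
    have hy0 : y ≠ 0 := mul_ne_zero hs.ne' (sub_ne_zero.2 hz)
    have hyb : |y| < 2 * Real.pi := by
      rw [hy, abs_mul, abs_of_pos hs]
      refine lt_of_le_of_lt (mul_le_mul_of_nonneg_left ?_ hs.le) hsR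
      have h1 := abs_sub (X z.1) (X z.2)
      have h2 := hR z.1
      have h3 := hR z.2
      linarith
    have hei : ei y ≠ 1 := by
      intro h
      unfold ei at h
      rw [Complex.exp_eq_one_iff] at h
      obtain ⟨k, hk⟩ := h
      have h1 : (y : ℂ) = ((k * (2 * Real.pi) : ℝ) : ℂ) := by
        have h2 : (y : ℂ) * Complex.I = ((k * (2 * Real.pi) : ℝ) : ℂ) * Complex.I := by
          rw [hk]
          push_cast
          ring
        exact mul_right_cancel₀ Complex.I_ne_zero h2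
      have h2 : y = k * (2 * Real.pi) := by exact_mod_cast h1
      rw [h2, abs_mul, abs_of_pos (by positivity : (0 : ℝ) < 2 * Real.pi)] at hyb
      have h3 : |(k : ℝ)| < 1 := by
        by_contra h4
        push Not at h4
        nlinarith [Real.pi_pos]
      have h4 : k = 0 := by
        have : |k| < 1 := by exact_mod_cast h3
        exact Int.abs_lt_one_iff.1 this
      rw [h4] at h2
      simp at h2
      exact hy0 h2
    have hpos : 0 < ‖ei y - 1‖ := norm_pos_iff.2 (sub_ne_zero.2 hei)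
    have h0 : Tendsto (fun n : ℕ => (2 / ‖ei y - 1‖) ^ 2 / (n : ℝ) ^ 2) atTop (𝓝 0) := by
      refine Tendsto.div_atTop tendsto_const_nhds ?_
      exact (tendsto_pow_atTop two_ne_zero).comp tendsto_natCast_atTop_atTop
    refine squeeze_zero (fun n => by simp only [hD]; positivity) (fun n => ?_) h0
    simp only [hD]
    refine div_le_div_of_nonneg_right ?_ (by positivity)
    exact pow_le_pow_left₀ (norm_nonneg _) (geom_bound hei n) 2
  have hint : Tendsto (fun n => ∫ z, D n z ∂(μ.prod μ)) atTop (𝓝 (∫ _z, (0 : ℝ) ∂(μ.prod μ))) := by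
    refine tendsto_integral_of_dominated_convergence (fun _ => 1)
      (fun n => (hDm n).aestronglyMeasurable) (integrable_const _)
      (fun n => ae_of_all _ (hDb n)) hlim
  rw [integral_zero] at hint
  refine hint.congr fun n => ?_
  have hJ : ∀ w : ℝ, ((‖∫ ω, ei (w * X ω) ∂μ‖ ^ 2 : ℝ) : ℂ) =
      ∫ z, ei (w * (X z.1 - X z.2)) ∂(μ.prod μ) := by
    intro w
    have h1 : ((‖∫ ω, ei (w * X ω) ∂μ‖ ^ 2 : ℝ) : ℂ) = (∫ ω, ei (w * X ω) ∂μ) *
        (∫ ω, ei (-(w * X ω)) ∂μ) := by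
      simp_rw [ei_neg]
      rw [integral_conj, Complex.mul_conj, Complex.normSq_eq_norm_sq]
    rw [h1, ← integral_prod_mul]
    refine integral_congr_ae (ae_of_all _ fun z => ?_)
    simp only
    rw [← ei_add]
    congr 1
    ring
  have hint' : ∀ w : ℝ, Integrable (fun z : Ω × Ω => ei (w * (X z.1 - X z.2))) (μ.prod μ) := by
    intro w
    refine Integrable.of_bound (C := 1) ?_ (ae_of_all _ fun z => (norm_ei _).le)
    exact (continuous_ei.measurable.comp
      (((hX.comp measurable_fst).sub (hX.comp measurable_snd)).const_mul w)).aestronglyMeasurable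
  have h2 : ((∫ z, D n z ∂(μ.prod μ) : ℝ) : ℂ) = (((∑ j ∈ range n, ∑ k ∈ range n,
      ‖∫ ω, ei (((j : ℝ) - k) * s * X ω) ∂μ‖ ^ 2) / (n : ℝ) ^ 2 : ℝ) : ℂ) := by
    rw [← integral_complex_ofReal]
    have h3 : ∀ z, ((D n z : ℝ) : ℂ) =
        (∑ j ∈ range n, ∑ k ∈ range n, ei ((((j : ℝ) - k) * s) * (X z.1 - X z.2))) /
          (n : ℂ) ^ 2 := by
      intro z
      simp only [hD]
      rw [Complex.ofReal_div, ← double_sum]
      push_cast
      congr 1
      refine sum_congr rfl fun j _ => sum_congr rfl fun k _ => ?_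
      congr 1
      ring
    simp_rw [h3]
    rw [integral_div, integral_finsetSum _ fun j _ => integrable_finsetSum _ fun k _ => hint' _]
    rw [Complex.ofReal_div, Complex.ofReal_sum]
    push_cast
    congr 1
    refine sum_congr rfl fun j _ => ?_
    rw [integral_finsetSum _ fun k _ => hint' _]
    refine sum_congr rfl fun k _ => ?_
    rw [← hJ]
    push_cast
    rfl
  exact_mod_cast h2

/-- `cos 1 ≥ 1/2` in the form that we need. -/
lemma cos_ge {x : ℝ} (hx : |x| ≤ 1) : 1 / 2 ≤ Real.cos x := by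
  have := Real.one_sub_sq_div_two_le_cos (x := x)
  have h1 : x ^ 2 ≤ 1 := by
    rw [← sq_abs]
    nlinarith [abs_nonneg x]
  linarith

lemma sum_ei_ge {n : ℕ} {y : ℝ} (hy : n * |y| ≤ 1) :
    (n : ℝ) / 2 ≤ ‖∑ j ∈ range n, ei (j * y)‖ := by
  refine le_trans ?_ (Complex.re_le_norm _)
  rw [Complex.re_sum]
  have h1 : ∀ j ∈ range n, 1 / 2 ≤ (ei (j * y)).re := by
    intro j hj
    unfold ei
    rw [Complex.exp_ofReal_mul_I_re]
    refine cos_ge ?_
    rw [abs_mul, Nat.abs_cast]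
    refine le_trans (mul_le_mul_of_nonneg_right ?_ (abs_nonneg y)) hy
    exact_mod_cast (mem_range.1 hj).le
  calc (n : ℝ) / 2 = ∑ _j ∈ range n, (1 / 2 : ℝ) := by
        rw [sum_const, card_range, nsmul_eq_mul]
        ring
    _ ≤ _ := sum_le_sum h1

variable {r : ℕ → ℝ → ℝ} {c : ℕ → ℂ} {C : ℝ} {e : ℕ → ℝ} {E : Finset ℕ}

/-- **No atoms.**  If the values of one of the functions `r_q` are not concentrated, then the values
of the sum are not concentrated. -/
theorem no_atoms (h : Approx r c C e E)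
    (hper : ∀ p, p.Prime → Function.Periodic (r p) (2 * Real.pi / Real.log p)) {G : ℝ → ℝ}
    (hG : ∀ᵐ τ : ℝ, Tendsto (fun x => rS r x τ) atTop (𝓝 (G τ))) {q : ℕ} (hq : q.Prime)
    {R : ℝ} (hR : ∀ τ, |r q τ| ≤ R) (hna : ∀ x, volume {τ | r q τ = x} = 0) {δ : ℝ} (hδ : 0 < δ) :
    ∃ ε : ℝ, 0 < ε ∧ ∀ᶠ T : ℝ in atTop, ∀ x : ℝ,
      volume {τ | τ ∈ Set.Ioc 0 T ∧ |G τ - x| < ε} ≤ ENNReal.ofReal (δ * T) := by
  have hl : 0 < Real.log q := Real.log_pos (by exact_mod_cast hq.one_lt)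
  set P := 2 * Real.pi / Real.log q with hPdef
  have hP : 0 < P := by positivity
  have hR0 : 0 ≤ R := (abs_nonneg _).trans (hR 0)
  have hGm := ae_measurable_of_tendsto h.meas hG
  -- the probability space
  set μ : Measure ℝ := (ENNReal.ofReal P)⁻¹ • (volume.restrict (Set.Ioc 0 P)) with hμ
  have hPr : IsProbabilityMeasure μ := by
    refine ⟨?_⟩
    rw [hμ, Measure.smul_apply, Measure.restrict_apply_univ, Real.volume_Ioc, sub_zero, smul_eq_mul]
    exact ENNReal.inv_mul_cancel (by simpa using hP) ENNReal.ofReal_ne_top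
  have hJ : ∀ w : ℝ, ‖∫ τ, ei (w * r q τ) ∂μ‖ =
      ‖(∫ τ in (0 : ℝ)..P, ei (w * r q τ)) / (P : ℝ)‖ := by
    intro w
    rw [hμ, integral_smul_measure, intervalIntegral.integral_of_le hP.le, norm_smul, norm_div,
      Complex.norm_real, div_eq_inv_mul, ENNReal.toReal_inv, ENNReal.toReal_ofReal hP.le, norm_inv]
  set s : ℝ := 1 / (R + 1) with hs
  have hs0 : 0 < s := by positivity
  have hsR : s * (2 * R) < 2 * Real.pi := by
    have h1 : s * R ≤ 1 := by
      rw [hs, one_div_mul_eq_div, div_le_one (by positivity)]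
      linarith
    have := Real.pi_gt_three
    nlinarith
  have hw := wiener μ (r q) (h.meas q) hR (fun x => by
    rw [hμ, Measure.smul_apply]
    have : (volume.restrict (Set.Ioc 0 P)) {τ | r q τ = x} = 0 :=
      le_antisymm ((Measure.restrict_apply_le _ _).trans (hna x).le) zero_le
    rw [this, smul_zero]) hs0 hsR
  set δ' : ℝ := min 1 (δ / 8) with hδ'
  have hδ'0 : 0 < δ' := lt_min one_pos (by positivity)
  obtain ⟨n, hn1, hn2⟩ := ((hw.eventually (gt_mem_nhds (show 0 < δ' ^ 2 by positivity))).and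
    (eventually_ge_atTop 1)).exists
  have hn0 : (0 : ℝ) < n := by exact_mod_cast hn2
  refine ⟨1 / (n * s), by positivity, ?_⟩
  have hch : ∀ᶠ T : ℝ in atTop, ∀ j ∈ range n, ∀ k ∈ range n,
      ‖∫ τ in (0 : ℝ)..T, ei (((j : ℝ) - k) * s * G τ)‖ ≤
      (‖∫ τ, ei (((j : ℝ) - k) * s * r q τ) ∂μ‖ + δ') * T := by
    rw [eventually_all_finset]
    intro j _
    rw [eventually_all_finset]
    intro k _
    rw [hJ]
    exact char_bound h hper hG hq (((j : ℝ) - k) * s) hδ'0
  filter_upwards [hch, eventually_gt_atTop (0 : ℝ)] with T hT hT0 x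
  -- the sum of the means
  have hsum : ∑ j ∈ range n, ∑ k ∈ range n, ‖∫ τ, ei (((j : ℝ) - k) * s * r q τ) ∂μ‖ ≤
      (n : ℝ) ^ 2 * δ' := by
    set a : ℕ × ℕ → ℝ := fun z => ‖∫ τ, ei (((z.1 : ℝ) - z.2) * s * r q τ) ∂μ‖ with ha
    have h1 : ∑ z ∈ range n ×ˢ range n, a z ^ 2 ≤ (n : ℝ) ^ 2 * δ' ^ 2 := by
      rw [sum_product]
      rw [div_lt_iff₀ (by positivity)] at hn1
      simp only [ha]
      nlinarith
    have h2 := sq_sum_le_card_mul_sum_sq (s := range n ×ˢ range n) (f := a)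
    rw [card_product, card_range] at h2
    have h3 : (∑ z ∈ range n ×ˢ range n, a z) ^ 2 ≤ ((n : ℝ) ^ 2 * δ') ^ 2 := by
      refine h2.trans ?_
      push_cast
      calc (n : ℝ) * n * ∑ z ∈ range n ×ˢ range n, a z ^ 2 ≤ (n : ℝ) * n * ((n : ℝ) ^ 2 * δ' ^ 2) :=
            mul_le_mul_of_nonneg_left h1 (by positivity)
        _ = _ := by ring
    have h4 := (abs_le_of_sq_le_sq' h3 (by positivity)).2
    rw [sum_product] at h4
    exact h4
  -- the kernel
  set K : ℝ → ℂ := fun τ => ∑ j ∈ range n, ∑ k ∈ range n, ei (((j : ℝ) - k) * (s * (G τ - x)))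
    with hK
  have hKint : ‖∫ τ in (0 : ℝ)..T, K τ‖ ≤ (n : ℝ) ^ 2 * (2 * δ') * T := by
    simp only [hK]
    have hi : ∀ w y : ℝ, IntervalIntegrable (fun τ => ei (w * (s * (G τ - y)))) volume 0 T := by
      intro w y
      refine intInt_of_bound ?_ (B := 1) (fun τ => (norm_ei _).le) _ _
      exact continuous_ei.measurable.comp_aemeasurable
        (((hGm.sub_const y).const_mul s).const_mul w)
    rw [intervalIntegral.integral_finsetSum]
    · refine (norm_sum_le _ _).trans ?_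
      have h1 : ∀ j ∈ range n, ‖∫ τ in (0 : ℝ)..T, ∑ k ∈ range n, ei (((j : ℝ) - k) * (s * (G τ - x)))‖ ≤
          ∑ k ∈ range n, (‖∫ τ, ei (((j : ℝ) - k) * s * r q τ) ∂μ‖ + δ') * T := by
        intro j hj
        rw [intervalIntegral.integral_finsetSum fun k _ => hi _ _]
        refine norm_sum_le_of_le _ fun k hk => ?_
        refine le_trans (le_of_eq ?_) (hT j hj k hk)
        have h2 : ∀ τ, ei (((j : ℝ) - k) * (s * (G τ - x))) =
            ei (-(((j : ℝ) - k) * s * x)) * ei (((j : ℝ) - k) * s * G τ) := by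
          intro τ
          rw [← ei_add]
          congr 1
          ring
        simp_rw [h2]
        rw [intervalIntegral.integral_const_mul, norm_mul, norm_ei, one_mul]
      refine (sum_le_sum h1).trans ?_
      have h2 : ∑ j ∈ range n, ∑ k ∈ range n,
          (‖∫ τ, ei (((j : ℝ) - k) * s * r q τ) ∂μ‖ + δ') * T =
          (∑ j ∈ range n, ∑ k ∈ range n, ‖∫ τ, ei (((j : ℝ) - k) * s * r q τ) ∂μ‖) * T +
            (n : ℝ) ^ 2 * δ' * T := by
        simp_rw [add_mul, sum_add_distrib, ← sum_mul]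
        congr 1
        simp only [sum_const, card_range, nsmul_eq_mul]
        ring
      rw [h2]
      nlinarith [mul_le_mul_of_nonneg_right hsum hT0.le]
    · intro j _
      have h3 := IntervalIntegrable.sum (range n)
        (f := fun (k : ℕ) τ => ei (((j : ℝ) - k) * (s * (G τ - x)))) fun k _ => hi _ _
      refine h3.congr (fun τ _ => ?_)
      rw [Finset.sum_apply]
  have hKval : ∀ τ, K τ = ((‖∑ j ∈ range n, ei (j * (s * (G τ - x)))‖ ^ 2 : ℝ) : ℂ) := fun τ =>
    double_sum n _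
  set k : ℝ → ℝ := fun τ => ‖∑ j ∈ range n, ei (j * (s * (G τ - x)))‖ ^ 2 with hk
  have hk0 : ∀ τ, 0 ≤ k τ := fun τ => by simp only [hk]; positivity
  have hkm : AEMeasurable k := by
    simp only [hk]
    refine (AEMeasurable.norm ?_).pow_const 2
    exact Finset.aemeasurable_fun_sum _ fun j _ => continuous_ei.measurable.comp_aemeasurable
        (((hGm.sub_const x).const_mul s).const_mul _)
  have hkb : ∀ τ, k τ ≤ (n : ℝ) ^ 2 := by
    intro τ
    simp only [hk]
    refine pow_le_pow_left₀ (norm_nonneg _) ?_ 2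
    refine (norm_sum_le _ _).trans ?_
    simp [norm_ei]
  have hkint : IntegrableOn k (Set.Ioc 0 T) := by
    refine Measure.integrableOn_of_bounded (M := (n : ℝ) ^ 2) (by simp) hkm.aestronglyMeasurable
      (ae_of_all _ fun τ => ?_)
    rw [Real.norm_of_nonneg (hk0 τ)]
    exact hkb τ
  have hI : ∫ τ in Set.Ioc 0 T, k τ ≤ (n : ℝ) ^ 2 * (2 * δ') * T := by
    have h1 : ∫ τ in (0 : ℝ)..T, K τ = ((∫ τ in Set.Ioc 0 T, k τ : ℝ) : ℂ) := by
      rw [intervalIntegral.integral_of_le hT0.le, ← integral_complex_ofReal]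
      exact integral_congr_ae (ae_of_all _ hKval)
    rw [h1, Complex.norm_real] at hKint
    exact (le_abs_self _).trans hKint
  -- Chebyshev's inequality
  have hsub : {τ | τ ∈ Set.Ioc 0 T ∧ |G τ - x| < 1 / (n * s)} ⊆
      {τ | ENNReal.ofReal ((n : ℝ) ^ 2 / 4) ≤ ENNReal.ofReal (k τ)} ∩ Set.Ioc 0 T := by
    rintro τ ⟨h1, h2⟩
    refine ⟨?_, h1⟩
    refine ENNReal.ofReal_le_ofReal ?_
    have h3 : (n : ℝ) * |s * (G τ - x)| ≤ 1 := by
      rw [abs_mul, abs_of_pos hs0, ← mul_assoc]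
      rw [lt_div_iff₀ (by positivity)] at h2
      linarith
    have h4 := sum_ei_ge h3
    simp only [hk]
    calc (n : ℝ) ^ 2 / 4 = ((n : ℝ) / 2) ^ 2 := by ring
      _ ≤ _ := pow_le_pow_left₀ (by positivity) h4 2
  have hcheb : ENNReal.ofReal ((n : ℝ) ^ 2 / 4) *
      volume {τ | τ ∈ Set.Ioc 0 T ∧ |G τ - x| < 1 / (n * s)} ≤
      ENNReal.ofReal ((n : ℝ) ^ 2 * (2 * δ') * T) := by
    have h1 : volume {τ | τ ∈ Set.Ioc 0 T ∧ |G τ - x| < 1 / (n * s)} ≤
        (volume.restrict (Set.Ioc 0 T)) {τ | ENNReal.ofReal ((n : ℝ) ^ 2 / 4) ≤ ENNReal.ofReal (k τ)} := by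
      refine (measure_mono hsub).trans ?_
      exact Measure.le_restrict_apply _ _
    calc ENNReal.ofReal ((n : ℝ) ^ 2 / 4) *
          volume {τ | τ ∈ Set.Ioc 0 T ∧ |G τ - x| < 1 / (n * s)}
        ≤ ENNReal.ofReal ((n : ℝ) ^ 2 / 4) * (volume.restrict (Set.Ioc 0 T))
            {τ | ENNReal.ofReal ((n : ℝ) ^ 2 / 4) ≤ ENNReal.ofReal (k τ)} := by gcongr
      _ ≤ ∫⁻ τ in Set.Ioc 0 T, ENNReal.ofReal (k τ) :=
          mul_meas_ge_le_lintegral₀ hkm.restrict.ennreal_ofReal _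
      _ = ENNReal.ofReal (∫ τ in Set.Ioc 0 T, k τ) :=
          (ofReal_integral_eq_lintegral_ofReal hkint (ae_of_all _ hk0)).symm
      _ ≤ _ := ENNReal.ofReal_le_ofReal hI
  have hfin : volume {τ | τ ∈ Set.Ioc 0 T ∧ |G τ - x| < 1 / (n * s)} ≤
      (ENNReal.ofReal ((n : ℝ) ^ 2 / 4))⁻¹ * ENNReal.ofReal ((n : ℝ) ^ 2 * (2 * δ') * T) := by
    have hne : ENNReal.ofReal ((n : ℝ) ^ 2 / 4) ≠ 0 := by
      rw [Ne, ENNReal.ofReal_eq_zero, not_le]
      positivity
    calc volume {τ | τ ∈ Set.Ioc 0 T ∧ |G τ - x| < 1 / (n * s)}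
        = (ENNReal.ofReal ((n : ℝ) ^ 2 / 4))⁻¹ * (ENNReal.ofReal ((n : ℝ) ^ 2 / 4) *
            volume {τ | τ ∈ Set.Ioc 0 T ∧ |G τ - x| < 1 / (n * s)}) := by
          rw [← mul_assoc, ENNReal.inv_mul_cancel hne ENNReal.ofReal_ne_top, one_mul]
      _ ≤ _ := by gcongr
  refine hfin.trans ?_
  rw [← ENNReal.ofReal_inv_of_pos (by positivity), ← ENNReal.ofReal_mul (by positivity)]
  refine ENNReal.ofReal_le_ofReal ?_
  have h5 : ((n : ℝ) ^ 2 / 4)⁻¹ * ((n : ℝ) ^ 2 * (2 * δ') * T) = 8 * δ' * T := by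
    field_simp
    ring
  rw [h5]
  refine mul_le_mul_of_nonneg_right ?_ hT0.le
  have : δ' ≤ δ / 8 := min_le_right _ _
  linarith

end Pool.Agent.Y774.MD
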