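import Pool.Agent.Y774.MD.Euler

/-!
# The dichotomy for linear forms in `log |L|` on the edge
-/

set_option autoImplicit false

namespace Pool.Agent.Y774.MD

open Filter Topology MeasureTheory Finset Pool.Agent.W350.Edge Polynomial

lemma IsEuler.mono {P : ℕ → ℂ[X]} {D : ℕ} {θ C : ℝ} {E E' : Finset ℕ} (h : IsEuler P D θ C E)
    (hE : E ⊆ E') : IsEuler P D θ C E' :=
  ⟨h.ne, h.hθ, fun p hp hpE => h.good p hp fun h' => hpE (hE h'), h.rs⟩

/-- The modulus of the boundary value on the edge. -/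
noncomputable def eabs (P : ℕ → ℂ[X]) (τ : ℝ) : ℝ :=
  limUnder (𝓝[>] (0 : ℝ)) fun σ : ℝ => ‖LQ P (1 + σ + τ * Complex.I)‖

lemma IsEuler.edge' {P : ℕ → ℂ[X]} {D : ℕ} {θ C : ℝ} {E : Finset ℕ} (h : IsEuler P D θ C E) :
    ∀ᵐ τ : ℝ, (0 < eabs P τ ∧
      Tendsto (fun σ : ℝ => ‖LQ P (1 + σ + τ * Complex.I)‖) (𝓝[>] 0) (𝓝 (eabs P τ))) ∧
      Tendsto (fun x => rS (rl P) x τ) atTop (𝓝 (Real.log (eabs P τ))) := by
  filter_upwards [h.edge] with τ ⟨l, hl0, h1, h2⟩
  have h3 : eabs P τ = ‖l‖ := h1.norm.limUnder_eq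
  rw [h3]
  exact ⟨⟨norm_pos_iff.2 hl0, h1.norm⟩, h2⟩

lemma ae_shift {p : ℝ → Prop} (h : ∀ᵐ τ : ℝ, p τ) (t : ℝ) : ∀ᵐ τ : ℝ, p (τ + t) :=
  (measurePreserving_add_right volume t).quasiMeasurePreserving.ae h

lemma BlockBound.smul {c : ℕ → ℂ} {C : ℝ} (h : BlockBound c C) (a : ℂ) :
    BlockBound (fun p => a * c p) (‖a‖ * C) := by
  intro k hk F hF
  simp_rw [norm_mul]
  rw [← mul_sum, mul_div_assoc]
  exact mul_le_mul_of_nonneg_left (h k hk F hF) (norm_nonneg _)

lemma BlockBound.sum {κ : Type*} (s : Finset κ) {c : κ → ℕ → ℂ} {C : κ → ℝ}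
    (h : ∀ k ∈ s, BlockBound (c k) (C k)) :
    BlockBound (fun p => ∑ k ∈ s, c k p) (∑ k ∈ s, C k) := by
  intro k hk F hF
  calc ∑ p ∈ F, ‖∑ i ∈ s, c i p‖ ≤ ∑ p ∈ F, ∑ i ∈ s, ‖c i p‖ :=
        sum_le_sum fun p _ => norm_sum_le _ _
    _ = ∑ i ∈ s, ∑ p ∈ F, ‖c i p‖ := sum_comm
    _ ≤ ∑ i ∈ s, C i / k := sum_le_sum fun i hi => h i hi k hk F hF
    _ = _ := by rw [sum_div]

lemma measurable_rl (P : ℕ → ℂ[X]) {p : ℕ} (hp : 0 < p) : Measurable (rl P p) := by
  unfold rl fac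
  have h1 : Continuous fun τ : ℝ => (P p).eval ((p : ℂ) ^ (-(1 + (τ : ℂ) * Complex.I))) := by
    refine (P p).continuous.comp ((continuous_cpow hp).comp ?_)
    fun_prop
  exact (h1.measurable.inv.norm).log

lemma cpow_periodic {p : ℕ} (hp : p.Prime) (τ t : ℝ) :
    (p : ℂ) ^ (-(1 + ((τ + 2 * Real.pi / Real.log p + t : ℝ) : ℂ) * Complex.I)) =
      (p : ℂ) ^ (-(1 + ((τ + t : ℝ) : ℂ) * Complex.I)) := by
  have hl : 0 < Real.log p := Real.log_pos (by exact_mod_cast hp.one_lt)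
  rw [natCast_cpow_eq hp.pos, natCast_cpow_eq hp.pos, Complex.exp_eq_exp_iff_exists_int]
  refine ⟨-1, ?_⟩
  have h1 : (τ + 2 * Real.pi / Real.log p + t) * Real.log p = (τ + t) * Real.log p + 2 * Real.pi := by
    field_simp
    ring
  have h2 : ((τ + 2 * Real.pi / Real.log p + t : ℝ) : ℂ) * ((Real.log p : ℝ) : ℂ) =
      ((τ + t : ℝ) : ℂ) * ((Real.log p : ℝ) : ℂ) + 2 * Real.pi := by
    exact_mod_cast h1
  linear_combination (-Complex.I) * h2

section family

variable {κ : Type} [Fintype κ] (Q : κ → ℕ → ℂ[X]) (m t : κ → ℝ)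

/-- The linear form in the logarithms of the factors. -/
noncomputable def rf (p : ℕ) (τ : ℝ) : ℝ :=
  if p.Prime then ∑ k, m k * rl (Q k) p (τ + t k) else 0

lemma rf_periodic {p : ℕ} (hp : p.Prime) :
    Function.Periodic (rf Q m t p) (2 * Real.pi / Real.log p) := by
  intro τ
  unfold rf rl fac
  rw [if_pos hp, if_pos hp]
  simp only [cpow_periodic hp τ]

lemma rf_measurable (p : ℕ) : Measurable (rf Q m t p) := by
  unfold rf
  split_ifs with hp
  · refine Finset.measurable_sum _ fun k _ => ?_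
    exact ((measurable_rl (Q k) hp.pos).comp (measurable_id.add_const (t k))).const_mul (m k)
  · exact measurable_const

/-- The linear form in the logarithms of the boundary values. -/
noncomputable def Gf (τ : ℝ) : ℝ := ∑ k, m k * Real.log (eabs (Q k) (τ + t k))

variable {Q m t} {D : κ → ℕ} {θ C : κ → ℝ} {E : Finset ℕ}

lemma rf_approx (h : ∀ k, IsEuler (Q k) (D k) (θ k) (C k) E) :
    Approx (rf Q m t)
      (fun p => ∑ k, (m k : ℂ) * (cc (Q k) E p * Complex.exp (-(t k * Real.log p) * Complex.I)))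
      (∑ k, ‖(m k : ℂ)‖ * (2 * Real.exp 1 * C k + CC))
      (fun p => ∑ k, |m k| * (2 * D k * (p : ℝ) ^ (2 * θ k - 2))) E where
  bb := BlockBound.sum _ fun k _ => ((h k).block.twist (t k)).smul _
  he := summable_sum fun k _ => (summable_e (h k)).mul_left _
  e0 := fun p => sum_nonneg fun k _ => by positivity
  meas := rf_measurable Q m t
  hr := by
    intro p hp hpE τ
    unfold rf
    rw [if_pos hp, sum_mul, Complex.re_sum, ← sum_sub_distrib]
    refine (abs_sum_le_sum_abs _ _).trans (sum_le_sum fun k _ => ?_)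
    have h1 : rl (Q k) p (τ + t k) =
        (cc (Q k) E p * Complex.exp (-(t k * Real.log p) * Complex.I) *
          Complex.exp (-(τ * Real.log p) * Complex.I)).re +
          (Rm (Q k) p (1 + 0 + ((τ + t k : ℝ) : ℂ) * Complex.I)).re := by
      unfold rl
      have hre : 1 ≤ (1 + ((τ + t k : ℝ) : ℂ) * Complex.I).re := by simp
      have h2 := (h k).LG_eq hp hpE 0 (τ + t k)
      rw [(h k).fac_eq hp hpE hre, Complex.norm_exp, Real.log_exp]
      rw [add_zero] at h2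
      rw [h2, Complex.add_re, add_zero]
      congr 2
      rw [neg_zero, zero_mul, Complex.exp_zero, one_mul, mul_assoc, ← Complex.exp_add]
      congr 2
      push_cast
      ring
    have h3 : ‖Rm (Q k) p (1 + 0 + ((τ + t k : ℝ) : ℂ) * Complex.I)‖ ≤
        2 * D k * (p : ℝ) ^ (2 * θ k - 2) := (h k).norm_Rm hp hpE (by simp)
    rw [h1, mul_assoc (m k : ℂ), Complex.re_ofReal_mul, mul_add, add_sub_cancel_left, abs_mul]
    exact mul_le_mul_of_nonneg_left ((Complex.abs_re_le_norm _).trans h3) (abs_nonneg _)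

lemma rf_tendsto (h : ∀ k, IsEuler (Q k) (D k) (θ k) (C k) E) :
    ∀ᵐ τ : ℝ, Tendsto (fun x => rS (rf Q m t) x τ) atTop (𝓝 (Gf Q m t τ)) := by
  have h1 : ∀ᵐ τ : ℝ, ∀ k, Tendsto (fun x => rS (rl (Q k)) x (τ + t k)) atTop
      (𝓝 (Real.log (eabs (Q k) (τ + t k)))) := by
    rw [ae_all_iff]
    intro k
    filter_upwards [ae_shift (h k).edge' (t k)] with τ hτ
    exact hτ.2
  filter_upwards [h1] with τ hτ
  unfold Gf
  have h2 : Tendsto (fun x => ∑ k, m k * rS (rl (Q k)) x (τ + t k)) atTop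
      (𝓝 (∑ k, m k * Real.log (eabs (Q k) (τ + t k)))) :=
    tendsto_finsetSum _ fun k _ => (hτ k).const_mul _
  refine h2.congr fun x => ?_
  unfold rS
  simp_rw [mul_sum]
  rw [sum_comm]
  refine sum_congr rfl fun p hp => ?_
  unfold rf
  rw [if_pos (mem_filter.1 hp).2]

end family

/-- The polynomial is `1` at `0` and has no zeros in `|z| ≤ 1/q`. -/
def GoodAt (P : ℂ[X]) (q : ℕ) : Prop := P.coeff 0 = 1 ∧ ∀ z : ℂ, P.eval z = 0 → 1 / (q : ℝ) < ‖z‖

lemma GoodAt.radius {P : ℂ[X]} {q : ℕ} (h : GoodAt P q) :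
    ∃ b : ℝ, 1 / (q : ℝ) < b ∧ ∀ z : ℂ, P.eval z = 0 → b ≤ ‖z‖ := by
  classical
  have hP : P ≠ 0 := by
    rintro rfl
    have := h.1
    simp at this
  by_cases hne : P.roots.toFinset.Nonempty
  · obtain ⟨z₀, hz₀, hmin⟩ := P.roots.toFinset.exists_min_image (fun z => ‖z‖) hne
    refine ⟨‖z₀‖, h.2 z₀ ?_, fun z hz => hmin z ?_⟩
    · rw [Multiset.mem_toFinset, mem_roots hP] at hz₀
      exact hz₀
    · rw [Multiset.mem_toFinset, mem_roots hP]
      exact hz
  · refine ⟨1 / q + 1, by linarith, fun z hz => ?_⟩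
    exfalso
    refine hne ⟨z, ?_⟩
    rw [Multiset.mem_toFinset, mem_roots hP]
    exact hz

section family

variable {κ : Type} [Fintype κ] {Q : κ → ℕ → ℂ[X]} {m t : κ → ℝ}

/-- The rotation `q^{-it}`. -/
noncomputable def rot (q : ℕ) (t : ℝ) : ℂ := Complex.exp (-(t * Real.log q) * Complex.I)

lemma norm_rot (q : ℕ) (t : ℝ) : ‖rot q t‖ = 1 := by
  unfold rot
  rw [Complex.norm_exp]
  have : (-((t : ℂ) * (Real.log q : ℂ)) * Complex.I).re = 0 := by
    rw [Complex.mul_I_re, ← Complex.ofReal_mul, ← Complex.ofReal_neg, Complex.ofReal_im,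
      neg_zero]
  rw [this, Real.exp_zero]

lemma rot_mul {q : ℕ} (hq : 0 < q) (t : ℝ) (s : ℂ) :
    rot q t * (q : ℂ) ^ (-s) = (q : ℂ) ^ (-(s + t * Complex.I)) := by
  rw [natCast_cpow_eq hq, natCast_cpow_eq hq]
  unfold rot
  rw [← Complex.exp_add]
  congr 1
  ring

/-- The logarithm of the combination of the Euler factors at `q`. -/
noncomputable def HH (Q : κ → ℕ → ℂ[X]) (m t : κ → ℝ) (q : ℕ) (z : ℂ) : ℂ :=
  ∑ k, (m k : ℂ) * LG (inv (Q k q)) (rot q (t k) * z)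

/-- If one of the combinations of Euler factors is not trivial, there are no atoms. -/
theorem key {q : ℕ} (hq : q.Prime) (hgood : ∀ k, GoodAt (Q k q) q)
    (hlev : ∃ x, volume {τ | rf Q m t q τ = x} ≠ 0) : ∀ z : ℂ, ‖z‖ ≤ 1 / q → HH Q m t q z = 0 := by
  have hq0 : (0 : ℝ) < q := by exact_mod_cast hq.pos
  obtain ⟨b, hb1, hb2⟩ : ∃ b : ℝ, 1 / (q : ℝ) < b ∧ ∀ k, ∀ z : ℂ, (Q k q).eval z = 0 → b ≤ ‖z‖ := by
    choose b hb1 hb2 using fun k => (hgood k).radius
    by_cases hne : (Finset.univ : Finset κ).Nonempty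
    · obtain ⟨k₀, -, hk₀⟩ := Finset.univ.exists_min_image b hne
      exact ⟨b k₀, hb1 k₀, fun k z hz => (hk₀ k (mem_univ k)).trans (hb2 k z hz)⟩
    · refine ⟨1 / q + 1, by linarith, fun k => ?_⟩
      exact absurd ⟨k, mem_univ k⟩ hne
  have hb0 : 0 < b := lt_trans (by positivity) hb1
  have hinv : ∀ k, ∀ a ∈ inv (Q k q), ‖a‖ ≤ b⁻¹ := fun k =>
    norm_inv_le (hgood k).1 hb0 (hb2 k)
  have hH : AnalyticOnNhd ℂ (HH Q m t q) (Metric.ball 0 b) := by
    have h1 : HH Q m t q = fun z => ∑ k, (m k : ℂ) * LG (inv (Q k q)) (rot q (t k) * z) := rfl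
    rw [h1]
    refine Finset.analyticOnNhd_fun_sum _ fun k _ => ?_
    intro z hz
    refine analyticAt_const.mul ?_
    have h2 : AnalyticAt ℂ (LG (inv (Q k q))) (rot q (t k) * z) := by
      refine analytic_LG (hinv k) hb0 _ ?_
      rw [mem_ball_zero_iff, norm_mul, norm_rot, one_mul]
      simpa using hz
    exact AnalyticAt.comp (f := fun z => rot q (t k) * z) (g := LG (inv (Q k q))) h2
      (analyticAt_const.mul analyticAt_id)
  have hH0 : HH Q m t q 0 = 0 := by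
    unfold HH
    simp [LG_zero]
  -- the real function
  have hmem : ∀ τ : ℝ, ‖(q : ℂ) ^ (-(1 + (τ : ℂ) * Complex.I))‖ = 1 / q := by
    intro τ
    rw [Complex.norm_natCast_cpow_of_pos hq.pos]
    have : (-(1 + (τ : ℂ) * Complex.I)).re = -1 := by simp
    rw [this, Real.rpow_neg_one, one_div]
  have hr : ∀ τ, rf Q m t q τ = (HH Q m t q ((q : ℂ) ^ (-(1 + (τ : ℂ) * Complex.I)))).re := by
    intro τ
    unfold rf HH
    rw [if_pos hq, Complex.re_sum]
    refine sum_congr rfl fun k _ => ?_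
    rw [Complex.re_ofReal_mul, rot_mul hq.pos]
    congr 1
    unfold rl fac
    have h1 : (1 + ((τ + t k : ℝ) : ℂ) * Complex.I) = 1 + τ * Complex.I + t k * Complex.I := by
      push_cast
      ring
    rw [h1, eval_inv (hgood k).1, ← exp_LG, Complex.norm_exp, Real.log_exp]
    intro a ha
    refine Complex.slitPlane_ne_zero (one_sub_slit ?_)
    rw [← rot_mul hq.pos, norm_mul, norm_mul, norm_rot, one_mul, hmem]
    calc ‖a‖ * (1 / q) ≤ b⁻¹ * (1 / q) := mul_le_mul_of_nonneg_right (hinv k a ha) (by positivity)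
      _ < b⁻¹ * b := mul_lt_mul_of_pos_left hb1 (by positivity)
      _ = 1 := inv_mul_cancel₀ hb0.ne'
  have hra : AnalyticOnNhd ℝ (rf Q m t q) Set.univ := by
    have h1 : rf Q m t q = fun τ : ℝ =>
        (HH Q m t q ((q : ℂ) ^ (-(1 + (τ : ℂ) * Complex.I)))).re := funext hr
    rw [h1]
    intro τ _
    have h2 : AnalyticAt ℝ (HH Q m t q) ((q : ℂ) ^ (-(1 + (τ : ℂ) * Complex.I))) := by
      refine (hH _ ?_).restrictScalars
      rw [mem_ball_zero_iff, hmem]
      exact hb1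
    have h3 : AnalyticAt ℝ (fun τ : ℝ => (q : ℂ) ^ (-(1 + (τ : ℂ) * Complex.I))) τ := by
      have h4 : (fun τ : ℝ => (q : ℂ) ^ (-(1 + (τ : ℂ) * Complex.I))) =
          fun τ : ℝ => Complex.exp (-(1 + (τ : ℂ) * Complex.I) * Real.log q) := by
        funext τ
        exact natCast_cpow_eq hq.pos _
      rw [h4]
      have h5 : AnalyticAt ℝ Complex.exp (-(1 + (τ : ℂ) * Complex.I) * Real.log q) :=
        AnalyticAt.restrictScalars analyticAt_cexp
      have h6 : AnalyticAt ℝ (fun τ : ℝ => -(1 + (τ : ℂ) * Complex.I) * (Real.log q : ℂ)) τ := by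
        refine AnalyticAt.mul (AnalyticAt.neg (analyticAt_const.add
          (AnalyticAt.mul ?_ analyticAt_const))) analyticAt_const
        exact Complex.ofRealCLM.analyticAt τ
      exact AnalyticAt.comp (g := Complex.exp)
        (f := fun τ : ℝ => -(1 + (τ : ℂ) * Complex.I) * (Real.log q : ℂ)) h5 h6
    have h7 : AnalyticAt ℝ (fun τ : ℝ => HH Q m t q ((q : ℂ) ^ (-(1 + (τ : ℂ) * Complex.I)))) τ :=
      AnalyticAt.comp (g := HH Q m t q)
        (f := fun τ : ℝ => (q : ℂ) ^ (-(1 + (τ : ℂ) * Complex.I))) h2 h3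
    exact AnalyticAt.comp (g := fun z : ℂ => z.re)
      (f := fun τ : ℝ => HH Q m t q ((q : ℂ) ^ (-(1 + (τ : ℂ) * Complex.I))))
      (Complex.reCLM.analyticAt _) h7
  obtain ⟨x, hx⟩ := hlev
  have hconst := level hra hx
  have hfin := harmonic_const (κ := x) (r := 1 / q) (by positivity) hb1 hH hH0 (fun z hz => ?_)
  · intro z hz
    exact hfin z (lt_of_le_of_lt hz hb1)
  · -- every point of the circle is of the form `q^{-1-iτ}`
    obtain ⟨τ, hτ⟩ : ∃ τ : ℝ, (q : ℂ) ^ (-(1 + (τ : ℂ) * Complex.I)) = z := by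
      have hl : 0 < Real.log q := Real.log_pos (by exact_mod_cast hq.one_lt)
      refine ⟨-(Complex.arg z) / Real.log q, ?_⟩
      rw [natCast_cpow_eq hq.pos]
      have h1 : -(1 + ((-(Complex.arg z) / Real.log q : ℝ) : ℂ) * Complex.I) * (Real.log q : ℂ) =
          ((-Real.log q : ℝ) : ℂ) + Complex.arg z * Complex.I := by
        have hl' : (Real.log q : ℂ) ≠ 0 := by exact_mod_cast hl.ne'
        rw [Complex.ofReal_div, Complex.ofReal_neg, Complex.ofReal_neg]
        field_simp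
        ring
      rw [h1, Complex.exp_add, ← Complex.ofReal_exp, Real.exp_neg, Real.exp_log hq0,
        ← one_div, ← hz]
      exact Complex.norm_mul_exp_arg_mul_I z
    rw [← hτ, ← hr]
    exact hconst τ

lemma rf_bounded {q : ℕ} (hq : q.Prime) (hgood : ∀ k, GoodAt (Q k q) q) :
    ∃ R : ℝ, ∀ τ, |rf Q m t q τ| ≤ R := by
  have hq0 : (0 : ℝ) < q := by exact_mod_cast hq.pos
  have hcont : Continuous (rf Q m t q) := by
    unfold rf
    simp only [if_pos hq]
    refine continuous_finsetSum _ fun k _ => continuous_const.mul ?_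
    unfold rl fac
    have h1 : Continuous fun τ : ℝ => (Q k q).eval ((q : ℂ) ^ (-(1 + ((τ + t k : ℝ) : ℂ) * Complex.I))) := by
      refine (Q k q).continuous.comp ((continuous_cpow hq.pos).comp ?_)
      fun_prop
    have h2 : ∀ τ : ℝ, (Q k q).eval ((q : ℂ) ^ (-(1 + ((τ + t k : ℝ) : ℂ) * Complex.I))) ≠ 0 := by
      intro τ h3
      have h4 := (hgood k).2 _ h3
      rw [Complex.norm_natCast_cpow_of_pos hq.pos] at h4
      have : (-(1 + ((τ + t k : ℝ) : ℂ) * Complex.I)).re = -1 := by simp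
      rw [this, Real.rpow_neg_one, one_div] at h4
      exact lt_irrefl _ h4
    exact (h1.inv₀ h2).norm.log fun τ => norm_ne_zero_iff.2 (inv_ne_zero (h2 τ))
  have hl : 0 < Real.log q := Real.log_pos (by exact_mod_cast hq.one_lt)
  have hP : (0 : ℝ) < 2 * Real.pi / Real.log q := by positivity
  obtain ⟨R, hR⟩ := (isCompact_Icc (a := (0 : ℝ)) (b := 2 * Real.pi / Real.log q)).exists_bound_of_continuousOn
    hcont.continuousOn
  refine ⟨R, fun τ => ?_⟩
  obtain ⟨τ', hτ', h1⟩ := (rf_periodic Q m t hq).exists_mem_Ico₀ hP τ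
  rw [h1]
  exact hR τ' ⟨hτ'.1, hτ'.2.le⟩

/-- **The dichotomy.** -/
theorem dichotomy (h : ∀ k, ∃ D θ C E, IsEuler (Q k) D θ C E) :
    (∀ δ : ℝ, 0 < δ → ∃ ε : ℝ, 0 < ε ∧ ∀ᶠ T : ℝ in atTop, ∀ x : ℝ,
      volume {τ | τ ∈ Set.Ioc 0 T ∧ |Gf Q m t τ - x| < ε} ≤ ENNReal.ofReal (δ * T)) ∨
    (∀ q : ℕ, q.Prime → (∀ k, GoodAt (Q k q) q) → ∀ z : ℂ, ‖z‖ ≤ 1 / q → HH Q m t q z = 0) := by
  classical
  choose D θ C E hE using h
  have h' : ∀ k, IsEuler (Q k) (D k) (θ k) (C k) (univ.biUnion E) := fun k =>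
    (hE k).mono (subset_biUnion_of_mem E (mem_univ k))
  by_cases hex : ∃ q : ℕ, q.Prime ∧ (∀ k, GoodAt (Q k q) q) ∧
      ∀ x, volume {τ | rf Q m t q τ = x} = 0
  · left
    obtain ⟨q, hq, hgood, hna⟩ := hex
    obtain ⟨R, hR⟩ := rf_bounded (m := m) (t := t) hq hgood
    intro δ hδ
    exact no_atoms (rf_approx h') (fun p hp => rf_periodic Q m t hp) (rf_tendsto h') hq hR hna hδ
  · right
    intro q hq hgood
    push Not at hex
    exact key hq hgood (hex q hq hgood)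

end family

end Pool.Agent.Y774.MD
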