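import Pool.Agent.Y774.MD.Dicho

/-!
# Transfer of the meromorphic continuation
-/

set_option autoImplicit false

namespace Pool.Agent.Y774.MD

open Filter Topology MeasureTheory Finset Pool.Agent.W350.Edge Polynomial

variable {P : ℕ → ℂ[X]} {D : ℕ} {θ C : ℝ} {E : Finset ℕ}

/-- The logarithms of the good factors. -/
noncomputable def SS (P : ℕ → ℂ[X]) (E : Finset ℕ) (s : ℂ) (n : ℕ) : ℂ :=
  if n.Prime ∧ n ∉ E then LG (inv (P n)) ((n : ℂ) ^ (-s)) else 0

lemma IsEuler.summable_SS (h : IsEuler P D θ C E) {s : ℂ} (hs : 1 < s.re) :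
    Summable (SS P E s) := by
  have h1 : ∀ n : ℕ, ‖SS P E s n‖ ≤ (if n.Prime then Real.exp (-(s.re - 1) * Real.log n) *
      ‖cc P E n‖ else 0) + 2 * D * (n : ℝ) ^ (2 * θ - 2) := by
    intro n
    unfold SS
    split_ifs with h1 h2 h2
    · have h3 := h.LG_eq h1.1 h1.2 (s - 1) 0
      have h4 : 1 + (s - 1) + ((0 : ℝ) : ℂ) * Complex.I = s := by
        push_cast
        ring
      rw [h4] at h3
      rw [h3]
      refine (norm_add_le _ _).trans (add_le_add ?_ (h.norm_Rm h1.1 h1.2 hs.le))
      rw [norm_mul, norm_mul]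
      have h5 : ‖Complex.exp (-(((0 : ℝ) : ℂ) * Real.log n) * Complex.I)‖ = 1 := by
        simp
      have h6 : ‖Complex.exp (-(s - 1) * Real.log n)‖ = Real.exp (-(s.re - 1) * Real.log n) := by
        rw [Complex.norm_exp, Complex.mul_re, Complex.ofReal_re, Complex.ofReal_im, mul_zero,
          sub_zero, Complex.neg_re, Complex.sub_re, Complex.one_re]
      rw [h5, h6, mul_one]
    · exact absurd h1.1 h2
    · rw [norm_zero]
      positivity
    · rw [norm_zero]
      positivity
  refine Summable.of_norm_bounded ((h.block.summable (show 0 < s.re - 1 by linarith)).add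
    (summable_e h)) h1

/-- The Euler product. -/
lemma IsEuler.hasProd (h : IsEuler P D θ C E) {s : ℂ} (hs : 1 < s.re) :
    HasProd (fun p : Nat.Primes => fac P p s)
      ((∏ n ∈ E.filter Nat.Prime, fac P n s) * Complex.exp (∑' n, SS P E s n)) := by
  classical
  set E' := E.filter Nat.Prime with hE'
  set B : ℕ → ℂ := fun n => if n ∈ E' then fac P n s else 1 with hB
  set F : ℕ → ℂ := fun n => if n.Prime then fac P n s else 1 with hF
  have h6 : HasProd F ((∏ n ∈ E', fac P n s) * Complex.exp (∑' n, SS P E s n)) := by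
    have h1 : HasProd B (∏ n ∈ E', B n) :=
      hasProd_prod_of_ne_finset_one fun n hn => by simp only [hB]; rw [if_neg hn]
    have h2 : ∏ n ∈ E', B n = ∏ n ∈ E', fac P n s := prod_congr rfl fun n hn => by
      simp only [hB]
      rw [if_pos hn]
    rw [h2] at h1
    have h3 := h1.mul (h.summable_SS hs).hasSum.cexp
    have h4 : F = fun n => B n * (Complex.exp ∘ SS P E s) n := by
      funext n
      simp only [hF, hB, Function.comp_apply, SS]
      by_cases hn : n.Prime
      · by_cases hnE : n ∈ E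
        · rw [if_pos hn, if_pos (mem_filter.2 ⟨hnE, hn⟩), if_neg (by tauto), Complex.exp_zero,
            mul_one]
        · rw [if_pos hn, if_neg (fun h => hnE (mem_filter.1 h).1), if_pos ⟨hn, hnE⟩, one_mul,
            h.fac_eq hn hnE hs.le]
      · rw [if_neg hn, if_neg (fun h => hn (mem_filter.1 h).2), if_neg (by tauto),
          Complex.exp_zero, mul_one]
    rw [h4]
    exact h3
  have h11 : Function.Injective (fun p : Nat.Primes => (p : ℕ)) := Subtype.val_injective
  have h12 := (h11.hasProd_iff (f := F) (fun n hn => by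
    simp only [hF]
    rw [if_neg]
    intro hn'
    exact hn ⟨⟨n, hn'⟩, rfl⟩)).2 h6
  refine h12.congr_fun ?_ |> fun h => h
  intro p
  simp only [Function.comp_apply, hF]
  rw [if_pos p.2]

/-- The zeros of an Euler factor are isolated. -/
lemma eventually_ne {P : ℂ[X]} (hP : P ≠ 0) {n : ℕ} (hn : 2 ≤ n) (t : ℝ) (s₀ : ℂ) :
    ∀ᶠ s in 𝓝[≠] s₀, P.eval ((n : ℂ) ^ (-(s + t * Complex.I))) ≠ 0 := by
  have hn0 : 0 < n := by omega
  have hl : 0 < Real.log n := Real.log_pos (by exact_mod_cast hn)
  set f : ℂ → ℂ := fun s => P.eval ((n : ℂ) ^ (-(s + t * Complex.I))) with hf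
  have hfa : AnalyticOnNhd ℂ f Set.univ := by
    have hd : Differentiable ℂ f := by
      have h1 : f = fun s => P.eval (Complex.exp (-(s + t * Complex.I) * Real.log n)) := by
        funext s
        simp only [hf]
        rw [natCast_cpow_eq hn0]
      rw [h1]
      refine P.differentiable.comp ?_
      fun_prop
    exact hd.differentiableOn.analyticOnNhd isOpen_univ
  rcases (hfa s₀ (Set.mem_univ _)).eventually_eq_zero_or_eventually_ne_zero with h1 | h1
  · exfalso
    have h2 := hfa.eqOn_zero_of_preconnected_of_eventuallyEq_zero isPreconnected_univ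
      (Set.mem_univ s₀) h1
    refine hP (Polynomial.eq_zero_of_infinite_isRoot P ?_)
    refine Set.Infinite.mono (s := {0}ᶜ) (fun w hw => ?_) (Set.finite_singleton (0 : ℂ)).infinite_compl
    have h3 := h2 (Set.mem_univ (-(Complex.log w) / Real.log n - t * Complex.I))
    simp only [hf, Pi.zero_apply] at h3
    rw [natCast_cpow_eq hn0] at h3
    have h4 : -(-(Complex.log w) / Real.log n - t * Complex.I + t * Complex.I) * (Real.log n : ℂ) =
        Complex.log w := by
      have hl' : (Real.log n : ℂ) ≠ 0 := by exact_mod_cast hl.ne'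
      field_simp
      ring
    rw [h4, Complex.exp_log hw] at h3
    exact h3
  · exact h1

lemma meromorphic_fac (P : ℕ → ℂ[X]) {n : ℕ} (hn : 0 < n) (t : ℝ) (s₀ : ℂ) :
    MeromorphicAt (fun s => fac P n (s + t * Complex.I)) s₀ := by
  unfold fac
  refine MeromorphicAt.inv (AnalyticAt.meromorphicAt ?_)
  have hd : Differentiable ℂ fun s : ℂ => (P n).eval ((n : ℂ) ^ (-(s + t * Complex.I))) := by
    have h1 : (fun s : ℂ => (P n).eval ((n : ℂ) ^ (-(s + t * Complex.I)))) =
        fun s => (P n).eval (Complex.exp (-(s + t * Complex.I) * Real.log n)) := by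
      funext s
      rw [natCast_cpow_eq hn]
    rw [h1]
    refine (P n).differentiable.comp ?_
    fun_prop
  exact hd.analyticAt s₀

/-- The function has a meromorphic continuation to the plane from `Re s > σ₀`. -/
def Continues (L : ℂ → ℂ) (σ₀ : ℝ) : Prop :=
  ∃ F : ℂ → ℂ, MeromorphicOn F Set.univ ∧ ∀ s : ℂ, σ₀ < s.re → F s = L s

/-- Transfer of the continuation. -/
theorem transfer {κ : Type} [Fintype κ] (h : IsEuler P D θ C E) {Λ : κ → ℕ → ℂ[X]} {D' : κ → ℕ}
    {θ' C' : κ → ℝ} (hΛ : ∀ k, IsEuler (Λ k) (D' k) (θ' k) (C' k) E) (m : κ → ℤ) (t : κ → ℝ)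
    (hid : ∀ q : ℕ, q.Prime → q ∉ E → ∀ z : ℂ, ‖z‖ ≤ 1 / q →
      LG (inv (P q)) z = ∑ k, (m k : ℂ) * LG (inv (Λ k q)) (rot q (t k) * z))
    (hc : ∀ k, Continues (LQ (Λ k)) 1) : Continues (LQ P) 1 := by
  classical
  choose F hF1 hF2 using hc
  set E' := E.filter Nat.Prime with hE'
  set Φ : ℂ → ℂ := fun s => (∏ n ∈ E', fac P n (s + (0 : ℝ) * Complex.I)) *
    ∏ k, (F k (s + t k * Complex.I) * (∏ n ∈ E', fac (Λ k) n (s + t k * Complex.I))⁻¹) ^ (m k)
    with hΦ
  have hΦm : ∀ s₀, MeromorphicAt Φ s₀ := by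
    intro s₀
    have h1 : MeromorphicAt (fun s => ∏ n ∈ E', fac P n (s + (0 : ℝ) * Complex.I)) s₀ :=
      MeromorphicAt.fun_prod fun n hn => meromorphic_fac P (mem_filter.1 hn).2.pos 0 s₀
    refine h1.mul (MeromorphicAt.fun_prod fun k _ => MeromorphicAt.zpow (MeromorphicAt.mul ?_ ?_) _)
    · have h2 : MeromorphicAt (F k) (s₀ + t k * Complex.I) := hF1 k _ (Set.mem_univ _)
      exact h2.comp_analyticAt (g := fun s => s + t k * Complex.I) (by fun_prop)
    · exact (MeromorphicAt.fun_prod fun n hn =>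
        meromorphic_fac (Λ k) (mem_filter.1 hn).2.pos (t k) s₀).inv
  have hre : ∀ (s : ℂ) (u : ℝ), (s + u * Complex.I).re = s.re := by
    intro s u
    simp
  have hval : ∀ s : ℂ, 1 < s.re → (∀ k, ∀ n ∈ E', (Λ k n).eval ((n : ℂ) ^ (-(s + t k * Complex.I))) ≠ 0) →
      LQ P s = Φ s := by
    intro s hs hne
    have h1 : LQ P s = (∏ n ∈ E', fac P n s) * Complex.exp (∑' n, SS P E s n) :=
      (h.hasProd hs).tprod_eq
    have h2 : ∀ k, F k (s + t k * Complex.I) * (∏ n ∈ E', fac (Λ k) n (s + t k * Complex.I))⁻¹ =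
        Complex.exp (∑' n, SS (Λ k) E (s + t k * Complex.I) n) := by
      intro k
      have h3 : LQ (Λ k) (s + t k * Complex.I) = (∏ n ∈ E', fac (Λ k) n (s + t k * Complex.I)) *
          Complex.exp (∑' n, SS (Λ k) E (s + t k * Complex.I) n) :=
        ((hΛ k).hasProd (by rw [hre]; exact hs)).tprod_eq
      have h4 : ∏ n ∈ E', fac (Λ k) n (s + t k * Complex.I) ≠ 0 :=
        prod_ne_zero_iff.2 fun n hn => inv_ne_zero (hne k n hn)
      rw [hF2 k _ (by rw [hre]; exact hs), h3]
      field_simp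
    have h3 : ∑' n, SS P E s n = ∑ k, (m k : ℂ) * ∑' n, SS (Λ k) E (s + t k * Complex.I) n := by
      have h4 : ∀ k, Summable fun n => (m k : ℂ) * SS (Λ k) E (s + t k * Complex.I) n := fun k =>
        ((hΛ k).summable_SS (by rw [hre]; exact hs)).mul_left _
      simp_rw [← tsum_mul_left]
      rw [← Summable.tsum_finsetSum fun k _ => h4 k]
      refine tsum_congr fun n => ?_
      unfold SS
      split_ifs with hn
      · have h5 : ‖(n : ℂ) ^ (-s)‖ ≤ 1 / n := by
          have hn1 : (1 : ℝ) ≤ n := by exact_mod_cast hn.1.one_le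
          rw [Complex.norm_natCast_cpow_of_pos hn.1.pos, one_div, ← Real.rpow_neg_one]
          refine Real.rpow_le_rpow_of_exponent_le hn1 ?_
          rw [Complex.neg_re]
          linarith
        rw [hid n hn.1 hn.2 _ h5]
        refine sum_congr rfl fun k _ => ?_
        rw [rot_mul hn.1.pos]
      · simp
    rw [h1, h3, Complex.exp_sum]
    simp only [hΦ]
    have h6 : ∀ n, fac P n (s + (0 : ℝ) * Complex.I) = fac P n s := by
      intro n
      congr 1
      push_cast
      ring
    simp_rw [h6]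
    congr 1
    refine prod_congr rfl fun k _ => ?_
    rw [h2 k, Complex.exp_int_mul]
  refine ⟨fun s => if 1 < s.re then LQ P s else Φ s, fun s₀ _ => ?_, fun s hs => by simp [hs]⟩
  refine (hΦm s₀).congr ?_
  have hev : ∀ᶠ s in 𝓝[≠] s₀, ∀ k, ∀ n ∈ E', (Λ k n).eval ((n : ℂ) ^ (-(s + t k * Complex.I))) ≠ 0 := by
    rw [eventually_all]
    intro k
    rw [eventually_all_finset]
    intro n hn
    exact eventually_ne ((hΛ k).ne n (mem_filter.1 hn).2) (mem_filter.1 hn).2.two_le (t k) s₀
  filter_upwards [hev] with s hs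
  split_ifs with h1
  · exact (hval s h1 hs).symm
  · rfl

end Pool.Agent.Y774.MD
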