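import Pool.Agent.W350.Edge3

/-!
# Block mean values with coefficients bounded on average (Rankin-Selberg)
-/

set_option autoImplicit false

namespace Pool.Agent.Y774.MD

open Filter Topology MeasureTheory Finset Pool.Agent.W350.Edge

/-- The coefficients `c p` of the primes with `⌊log p⌋ = k` contribute at most `C / k`. -/
def BlockBound (c : ℕ → ℂ) (C : ℝ) : Prop :=
  ∀ k : ℕ, 1 ≤ k → ∀ F : Finset ℕ, (∀ p ∈ F, p.Prime ∧ lg p = k) → ∑ p ∈ F, ‖c p‖ ≤ C / k

lemma BlockBound.nonneg {c : ℕ → ℂ} {C : ℝ} (h : BlockBound c C) : 0 ≤ C := by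
  have := h 1 le_rfl ∅ (by simp)
  simpa using this

lemma BlockBound.sum_le {c : ℕ → ℂ} {C : ℝ} (h : BlockBound c C) {F : Finset ℕ} {K L : ℕ}
    (hK : 1 ≤ K) (hF : ∀ p ∈ F, p.Prime ∧ K ≤ lg p ∧ lg p < K + L) (g : ℕ → ℝ)
    (hg : ∀ l, 0 ≤ g l) :
    ∑ p ∈ F, ‖c p‖ * g (lg p) ≤ C / K * ∑ l ∈ Ico K (K + L), g l := by
  have hmaps : ∀ p ∈ F, lg p ∈ Ico K (K + L) := fun p hp => mem_Ico.2 (hF p hp).2
  rw [← sum_fiberwise_of_maps_to hmaps, mul_sum]
  refine sum_le_sum fun l hl => ?_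
  have hKl : K ≤ l := (mem_Ico.1 hl).1
  have h1 : ∑ p ∈ F with lg p = l, ‖c p‖ * g (lg p) =
      (∑ p ∈ F with lg p = l, ‖c p‖) * g l := by
    rw [sum_mul]
    refine sum_congr rfl fun p hp => ?_
    rw [(mem_filter.1 hp).2]
  rw [h1]
  refine mul_le_mul_of_nonneg_right ?_ (hg l)
  refine (h l (hK.trans hKl) _ fun p hp => ?_).trans ?_
  · rw [mem_filter] at hp
    exact ⟨(hF p hp.1).1, hp.2⟩
  · have hK0 : (0 : ℝ) < K := by exact_mod_cast hK
    have hKl' : (K : ℝ) ≤ l := by exact_mod_cast hKl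
    exact div_le_div_of_nonneg_left h.nonneg hK0 hKl'

lemma BlockBound.sum_le' {c : ℕ → ℂ} {C : ℝ} (h : BlockBound c C) {F : Finset ℕ} {K L : ℕ}
    (hK : 1 ≤ K) (hF : ∀ p ∈ F, p.Prime ∧ K ≤ lg p ∧ lg p < K + L) :
    ∑ p ∈ F, ‖c p‖ ≤ C / K * L := by
  have := h.sum_le hK hF (fun _ => 1) (fun _ => zero_le_one)
  simpa using this

/-- The mean square of a block. -/
lemma block_mean' {c : ℕ → ℂ} {C : ℝ} (h : BlockBound c C) {F : Finset ℕ} {K L : ℕ}
    (hK : 1 ≤ K) (hF : ∀ p ∈ F, p.Prime ∧ K ≤ lg p ∧ lg p < K + L) (κ : ℝ) :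
    ∫ τ in (0 : ℝ)..1, ‖∑ p ∈ F, c p * Complex.exp (-(τ * (Real.log p - κ : ℝ)) * Complex.I)‖ ^ 2 ≤
      72 * C ^ 2 * L / K ^ 2 := by
  refine (gauss_mean F c (fun p => Real.log p - κ)).trans ?_
  have hK0 : (0 : ℝ) < K := by exact_mod_cast hK
  have hC := h.nonneg
  have h1 : ∑ p ∈ F, ∑ q ∈ F, ‖c p‖ * ‖c q‖ *
      Real.exp (-((Real.log p - κ) - (Real.log q - κ)) ^ 2) ≤
      C / K * (C / K * 12 * L) := by
    calc ∑ p ∈ F, ∑ q ∈ F, ‖c p‖ * ‖c q‖ *
          Real.exp (-((Real.log p - κ) - (Real.log q - κ)) ^ 2)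
        ≤ ∑ p ∈ F, ∑ q ∈ F, ‖c p‖ * ‖c q‖ * Real.exp (1 - |(lg p : ℝ) - lg q|) := by
          refine sum_le_sum fun p hp => sum_le_sum fun q hq => ?_
          have h2 := kappa_le (hF p hp).1.one_le (hF q hq).1.one_le κ
          exact mul_le_mul_of_nonneg_left h2 (by positivity)
      _ = ∑ p ∈ F, ‖c p‖ * ∑ q ∈ F, ‖c q‖ * Real.exp (1 - |(lg p : ℝ) - lg q|) := by
          simp_rw [mul_sum]
          refine sum_congr rfl fun p _ => sum_congr rfl fun q _ => ?_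
          ring
      _ ≤ C / K * (C / K * 12 * L) := by
          have h6 : ∑ p ∈ F, ‖c p‖ * ∑ q ∈ F, ‖c q‖ *
              Real.exp (1 - |(lg p : ℝ) - lg q|) ≤ ∑ p ∈ F, ‖c p‖ * (C / K * 12) := by
            refine sum_le_sum fun p _ => mul_le_mul_of_nonneg_left ?_ (norm_nonneg _)
            refine (h.sum_le hK hF (fun l => Real.exp (1 - |(lg p : ℝ) - l|))
              (fun _ => (Real.exp_pos _).le)).trans ?_
            exact mul_le_mul_of_nonneg_left (schur_row _ _) (by positivity)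
          refine h6.trans ?_
          rw [← sum_mul]
          have h7 := h.sum_le' hK hF
          have h8 : 0 ≤ C / K * 12 := by positivity
          calc (∑ p ∈ F, ‖c p‖) * (C / K * 12) ≤ C / K * L * (C / K * 12) :=
                mul_le_mul_of_nonneg_right h7 h8
            _ = _ := by ring
  calc 6 * ∑ p ∈ F, ∑ q ∈ F, ‖c p‖ * ‖c q‖ *
          Real.exp (-((Real.log p - κ) - (Real.log q - κ)) ^ 2)
      ≤ 6 * (C / K * (C / K * 12 * L)) := by linarith
    _ = _ := by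
      field_simp
      ring

/-- The `L¹` norm of a block. -/
lemma block_L1 {c : ℕ → ℂ} {C : ℝ} (h : BlockBound c C) {F : Finset ℕ} {K L : ℕ}
    (hK : 1 ≤ K) (hF : ∀ p ∈ F, p.Prime ∧ K ≤ lg p ∧ lg p < K + L) :
    ∫ τ in (0 : ℝ)..1, ‖∑ p ∈ F, c p * Complex.exp (-(τ * Real.log p) * Complex.I)‖ ≤
      9 * C * Real.sqrt L / K := by
  set f : ℝ → ℝ := fun τ => ‖∑ p ∈ F, c p * Complex.exp (-(τ * Real.log p) * Complex.I)‖ with hf
  have hfc : Continuous f := by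
    rw [hf]
    fun_prop
  have hK0 : (0 : ℝ) < K := by exact_mod_cast hK
  have hC := h.nonneg
  have h1 : ∫ τ in (0 : ℝ)..1, f τ ^ 2 ≤ 72 * C ^ 2 * L / K ^ 2 := by
    have := block_mean' h hK hF 0
    simpa only [sub_zero] using this
  set A := ∫ τ in (0 : ℝ)..1, f τ with hA
  have hA0 : 0 ≤ A := intervalIntegral.integral_nonneg zero_le_one fun _ _ => norm_nonneg _
  have h2 : A ^ 2 ≤ ∫ τ in (0 : ℝ)..1, f τ ^ 2 := by
    have h3 : 0 ≤ ∫ τ in (0 : ℝ)..1, (f τ - A) ^ 2 :=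
      intervalIntegral.integral_nonneg zero_le_one fun _ _ => sq_nonneg _
    have h4 : ∫ τ in (0 : ℝ)..1, (f τ - A) ^ 2 =
        (∫ τ in (0 : ℝ)..1, f τ ^ 2) - 2 * A * A + A ^ 2 := by
      have h5 : ∀ τ, (f τ - A) ^ 2 = f τ ^ 2 - 2 * A * f τ + A ^ 2 := fun τ => by ring
      simp_rw [h5]
      rw [intervalIntegral.integral_add, intervalIntegral.integral_sub,
        intervalIntegral.integral_const_mul, intervalIntegral.integral_const, ← hA]
      · simp
      · exact (hfc.pow 2).intervalIntegrable _ _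
      · exact (continuous_const.mul hfc).intervalIntegrable _ _
      · exact ((hfc.pow 2).sub (continuous_const.mul hfc)).intervalIntegrable _ _
      · exact continuous_const.intervalIntegrable _ _
    nlinarith
  have h3 : A ^ 2 ≤ (9 * C * Real.sqrt L / K) ^ 2 := by
    refine (h2.trans h1).trans ?_
    rw [div_pow, mul_pow, mul_pow, Real.sq_sqrt (Nat.cast_nonneg _)]
    refine div_le_div_of_nonneg_right ?_ (by positivity)
    have : 0 ≤ C ^ 2 * L := by positivity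
    nlinarith
  exact (abs_le_of_sq_le_sq' h3 (by positivity)).2

end Pool.Agent.Y774.MD
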