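import Pool.Agent.Y774.MD.Cont
import Pool.Agent.TH958.BV.Main

/-!
# Euler products over the primes of a number field
-/

set_option autoImplicit false

namespace Pool.Agent.Y774.MD

open Filter Topology MeasureTheory Finset Polynomial NumberField IsDedekindDomain
  Pool.Agent.H921R2.TatePole Pool.Agent.TH958.BV

section

variable {K : Type} [Field K] [NumberField K]

/-- The Euler factors are tempered of weight `w` and degree at most `N` at almost all primes. -/
structure IsTempered (B : HeightOneSpectrum (𝓞 K) → ℂ[X]) (w : ℝ) (N : ℕ) : Prop where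
  ne : ∀ v, B v ≠ 0
  good : ∀ᶠ v in cofinite, (B v).coeff 0 = 1 ∧ (B v).natDegree ≤ N ∧
    ∀ z : ℂ, (B v).eval z = 0 → (Ideal.absNorm v.asIdeal : ℝ) ^ (-(w / 2)) ≤ ‖z‖

/-- The product of the factors above a prime number, normalised. -/
noncomputable def GP (B : HeightOneSpectrum (𝓞 K) → ℂ[X]) (w : ℝ) (p : ℕ) : ℂ[X] :=
  if h : p.Prime then ∏ v : {v : HeightOneSpectrum (𝓞 K) // below v = ⟨p, h⟩},
    (B v.1).comp (C ((((nm v.1 : ℝ) ^ (-(w / 2)) : ℝ) : ℂ)) * X ^ deg v.1) else 1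

lemma GP_eval (B : HeightOneSpectrum (𝓞 K) → ℂ[X]) (w : ℝ) {p : ℕ} (h : p.Prime) (z : ℂ) :
    (GP B w p).eval z = ∏ v : {v : HeightOneSpectrum (𝓞 K) // below v = ⟨p, h⟩},
      (B v.1).eval ((((nm v.1 : ℝ) ^ (-(w / 2)) : ℝ) : ℂ) * z ^ deg v.1) := by
  unfold GP
  rw [dif_pos h, eval_prod]
  refine prod_congr rfl fun v _ => ?_
  rw [eval_comp]
  simp

lemma nm_pos (v : HeightOneSpectrum (𝓞 K)) : 0 < nm v := by
  have := two_le_nm v
  omega

lemma fac_GP (B : HeightOneSpectrum (𝓞 K) → ℂ[X]) (w : ℝ) {p : ℕ} (h : p.Prime) (s : ℂ) :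
    fac (GP B w) p s = ∏ v : {v : HeightOneSpectrum (𝓞 K) // below v = ⟨p, h⟩},
      localFactor B v.1 (((w / 2 : ℝ) : ℂ) + s) := by
  unfold fac
  rw [GP_eval B w h, ← prod_inv_distrib]
  refine prod_congr rfl fun v _ => ?_
  unfold localFactor
  congr 2
  have hnm : Ideal.absNorm v.1.asIdeal = nm v.1 := rfl
  obtain ⟨h1, h2, _⟩ := nm_eq v.1
  have hb : ((below v.1 : Nat.Primes) : ℕ) = p := by
    rw [v.2]
  rw [hb] at h1
  have hq : 0 < nm v.1 := nm_pos v.1
  have hqr : (0 : ℝ) < nm v.1 := by exact_mod_cast hq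
  rw [hnm, natCast_cpow_eq h.pos, natCast_cpow_eq hq, ← Complex.exp_nat_mul,
    Real.rpow_def_of_pos hqr, Complex.ofReal_exp, ← Complex.exp_add]
  congr 1
  have h3 : Real.log (nm v.1) = deg v.1 * Real.log p := by
    rw [h1, Nat.cast_pow, Real.log_pow]
  rw [h3]
  push_cast
  ring

lemma coeff_zero_GP (B : HeightOneSpectrum (𝓞 K) → ℂ[X]) (w : ℝ) {p : ℕ} (h : p.Prime) :
    (GP B w p).coeff 0 = ∏ v : {v : HeightOneSpectrum (𝓞 K) // below v = ⟨p, h⟩},
      (B v.1).coeff 0 := by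
  rw [coeff_zero_eq_eval_zero, GP_eval B w h]
  refine prod_congr rfl fun v _ => ?_
  rw [coeff_zero_eq_eval_zero, zero_pow (nm_eq v.1).2.1.ne', mul_zero]

lemma GP_ne {B : HeightOneSpectrum (𝓞 K) → ℂ[X]} (hB : ∀ v, B v ≠ 0) (w : ℝ) (p : ℕ) :
    GP B w p ≠ 0 := by
  unfold GP
  split_ifs with h
  · refine prod_ne_zero_iff.2 fun v _ => ?_
    intro h0
    rw [Polynomial.comp_eq_zero_iff] at h0
    rcases h0 with h0 | ⟨-, h0⟩
    · exact hB v.1 h0
    · have hc : ((((nm v.1 : ℝ) ^ (-(w / 2)) : ℝ) : ℂ)) ≠ 0 := by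
        have : (0 : ℝ) < nm v.1 := by exact_mod_cast nm_pos v.1
        exact_mod_cast (Real.rpow_pos_of_pos this _).ne'
      have h2 := congrArg Polynomial.natDegree h0
      rw [natDegree_C_mul_X_pow _ _ hc, natDegree_C] at h2
      exact (nm_eq v.1).2.1.ne' h2
  · exact one_ne_zero

lemma deg_le (v : HeightOneSpectrum (𝓞 K)) : deg v ≤ Module.finrank ℚ K := by
  obtain ⟨h1, h2, h3⟩ := nm_eq v
  have hp := (below v).2
  have hdvd : v.asIdeal ∣ Ideal.span {(((below v : ℕ) : 𝓞 K))} := by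
    rw [Ideal.dvd_iff_le, Ideal.span_singleton_le_iff_mem]
    exact h3
  have h4 := map_dvd Ideal.absNorm hdvd
  rw [Ideal.absNorm_span_natCast, RingOfIntegers.rank] at h4
  have h5 := Nat.le_of_dvd (pow_pos hp.pos _) h4
  have h6 : Ideal.absNorm v.asIdeal = (below v : ℕ) ^ deg v := h1
  rw [h6] at h5
  exact (Nat.pow_le_pow_iff_right hp.one_lt).mp h5

lemma bad_finite {B : HeightOneSpectrum (𝓞 K) → ℂ[X]} {p : HeightOneSpectrum (𝓞 K) → Prop}
    (h : ∀ᶠ v in cofinite, p v) : ∃ E : Finset ℕ, ∀ v, (below v : ℕ) ∉ E → p v := by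
  classical
  have hbad : {v | ¬ p v}.Finite := h
  refine ⟨hbad.toFinset.image fun v => (below v : ℕ), fun v hv => ?_⟩
  by_contra h1
  exact hv (mem_image.2 ⟨v, by simpa using h1, rfl⟩)

lemma GP_good {B : HeightOneSpectrum (𝓞 K) → ℂ[X]} {w : ℝ} {N : ℕ} {p : ℕ} (h : p.Prime)
    (hg : ∀ v : HeightOneSpectrum (𝓞 K), (below v : ℕ) = p → (B v).coeff 0 = 1 ∧
      (B v).natDegree ≤ N ∧ ∀ z : ℂ, (B v).eval z = 0 → (nm v : ℝ) ^ (-(w / 2)) ≤ ‖z‖) :
    (GP B w p).coeff 0 = 1 ∧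
      (GP B w p).natDegree ≤ N * Module.finrank ℚ K * Module.finrank ℚ K ∧
      ∀ z : ℂ, (GP B w p).eval z = 0 → (p : ℝ) ^ (-(0 : ℝ)) ≤ ‖z‖ := by
  have hg' : ∀ v : {v : HeightOneSpectrum (𝓞 K) // below v = ⟨p, h⟩}, (B v.1).coeff 0 = 1 ∧
      (B v.1).natDegree ≤ N ∧ ∀ z : ℂ, (B v.1).eval z = 0 → (nm v.1 : ℝ) ^ (-(w / 2)) ≤ ‖z‖ :=
    fun v => hg v.1 (by rw [v.2])
  refine ⟨?_, ?_, fun z hz => ?_⟩
  · rw [coeff_zero_GP B w h]
    exact prod_eq_one fun v _ => (hg' v).1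
  · unfold GP
    rw [dif_pos h]
    refine (natDegree_prod_le _ _).trans ?_
    calc ∑ v : {v : HeightOneSpectrum (𝓞 K) // below v = ⟨p, h⟩},
          ((B v.1).comp (C ((((nm v.1 : ℝ) ^ (-(w / 2)) : ℝ) : ℂ)) * X ^ deg v.1)).natDegree
        ≤ ∑ _v : {v : HeightOneSpectrum (𝓞 K) // below v = ⟨p, h⟩},
          N * Module.finrank ℚ K := by
          refine sum_le_sum fun v _ => natDegree_comp_le.trans ?_
          exact Nat.mul_le_mul (hg' v).2.1 ((natDegree_C_mul_X_pow_le _ _).trans (deg_le v.1))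
      _ = Fintype.card {v : HeightOneSpectrum (𝓞 K) // below v = ⟨p, h⟩} *
          (N * Module.finrank ℚ K) := by
          rw [sum_const, card_univ, smul_eq_mul]
      _ ≤ Module.finrank ℚ K * (N * Module.finrank ℚ K) :=
          Nat.mul_le_mul_right _ (fiber_card_le _)
      _ = _ := by ring
  · rw [GP_eval B w h, prod_eq_zero_iff] at hz
    obtain ⟨v, -, hv⟩ := hz
    have h1 := (hg' v).2.2 _ hv
    have hq : (0 : ℝ) < nm v.1 := by exact_mod_cast nm_pos v.1
    have hc : 0 < (nm v.1 : ℝ) ^ (-(w / 2)) := Real.rpow_pos_of_pos hq _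
    rw [norm_mul, Complex.norm_real, Real.norm_of_nonneg hc.le, norm_pow] at h1
    have h2 : 1 ≤ ‖z‖ ^ deg v.1 := by
      by_contra h3
      push Not at h3
      nlinarith
    rw [neg_zero, Real.rpow_zero]
    by_contra h3
    push Not at h3
    exact absurd h2 (not_le.2 (pow_lt_one₀ (norm_nonneg z) h3 (nm_eq v.1).2.1.ne'))

/-- A polynomial of bounded degree without zeros in the unit disc has bounded coefficients. -/
lemma coeff_one_bound {P : ℂ[X]} {D : ℕ} (h0 : P.coeff 0 = 1) (hd : P.natDegree ≤ D)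
    (hz : ∀ z : ℂ, P.eval z = 0 → 1 ≤ ‖z‖) : ‖P.coeff 1‖ ≤ D := by
  rw [coeff_one_eq h0, norm_neg]
  have h1 := norm_inv_le h0 one_pos hz
  rw [inv_one] at h1
  have h2 : ∀ s : Multiset ℂ, (∀ a ∈ s, ‖a‖ ≤ 1) → ‖s.sum‖ ≤ Multiset.card s := by
    intro s
    induction s using Multiset.induction_on with
    | empty => simp
    | cons a s ih =>
      intro hs
      rw [Multiset.sum_cons, Multiset.card_cons]
      push_cast
      have h3 := ih fun b hb => hs b (Multiset.mem_cons_of_mem hb)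
      have h4 := hs a (Multiset.mem_cons_self a s)
      exact (norm_add_le _ _).trans (by linarith)
  refine (h2 _ h1).trans ?_
  exact_mod_cast (card_inv_le P).trans hd

/-- The Euler products over number fields are Euler products over `ℚ`. -/
lemma IsTempered.isEuler {B : HeightOneSpectrum (𝓞 K) → ℂ[X]} {w : ℝ} {N : ℕ}
    (h : IsTempered B w N) :
    ∃ C E, IsEuler (GP B w) (N * Module.finrank ℚ K * Module.finrank ℚ K) 0 C E := by
  classical
  obtain ⟨E, hE⟩ := bad_finite (B := B) h.good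
  set D := N * Module.finrank ℚ K * Module.finrank ℚ K with hD
  have hgood : ∀ p : ℕ, p.Prime → p ∉ E → (GP B w p).coeff 0 = 1 ∧ (GP B w p).natDegree ≤ D ∧
      ∀ z : ℂ, (GP B w p).eval z = 0 → (p : ℝ) ^ (-(0 : ℝ)) ≤ ‖z‖ := by
    intro p hp hpE
    refine GP_good hp fun v hv => ?_
    exact hE v (by rw [hv]; exact hpE)
  refine ⟨(D : ℝ) ^ 2 * Real.log 4 + ∑ p ∈ E, ‖(GP B w p).coeff 1‖ ^ 2 * Real.log p, E,
    fun p _ => GP_ne h.ne w p, by norm_num, hgood, fun x => ?_⟩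
  rcases Nat.eq_zero_or_pos x with hx | hx
  · subst hx
    simp
  have hx1 : (1 : ℝ) ≤ x := by exact_mod_cast hx
  have hlog : ∀ p : ℕ, 0 ≤ Real.log p := fun p => Real.log_natCast_nonneg p
  have h1 : ∑ p ∈ (range x).filter Nat.Prime, ‖(GP B w p).coeff 1‖ ^ 2 * Real.log p ≤
      ∑ p ∈ (range x).filter Nat.Prime, ((D : ℝ) ^ 2 * Real.log p +
        if p ∈ E then ‖(GP B w p).coeff 1‖ ^ 2 * Real.log p else 0) := by
    refine sum_le_sum fun p hp => ?_
    have hpp := (mem_filter.1 hp).2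
    split_ifs with hpE
    · have : 0 ≤ (D : ℝ) ^ 2 * Real.log p := by have := hlog p; positivity
      linarith
    · rw [add_zero]
      refine mul_le_mul_of_nonneg_right ?_ (hlog p)
      obtain ⟨a, b, c⟩ := hgood p hpp hpE
      refine pow_le_pow_left₀ (norm_nonneg _) (coeff_one_bound a b fun z hz => ?_) 2
      have := c z hz
      rwa [neg_zero, Real.rpow_zero] at this
  refine h1.trans ?_
  rw [sum_add_distrib, ← mul_sum, ← sum_filter, add_mul]
  refine add_le_add ?_ ?_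
  · have h2 : ∑ p ∈ (range x).filter Nat.Prime, Real.log p ≤ Real.log 4 * x := by
      refine le_trans ?_ (Chebyshev.theta_le_log4_mul_x (Nat.cast_nonneg x))
      unfold Chebyshev.theta
      refine sum_le_sum_of_subset_of_nonneg (fun p hp => ?_) fun p _ _ => hlog p
      rw [mem_filter, mem_range] at hp
      rw [mem_filter, mem_Ioc, Nat.floor_natCast]
      exact ⟨⟨hp.2.pos, hp.1.le⟩, hp.2⟩
    calc (D : ℝ) ^ 2 * ∑ p ∈ (range x).filter Nat.Prime, Real.log p ≤
          (D : ℝ) ^ 2 * (Real.log 4 * x) := mul_le_mul_of_nonneg_left h2 (by positivity)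
      _ = _ := by ring
  · have h3 : ∀ p, 0 ≤ ‖(GP B w p).coeff 1‖ ^ 2 * Real.log p := fun p => by
      have := hlog p
      positivity
    calc ∑ p ∈ ((range x).filter Nat.Prime).filter (fun p => p ∈ E),
          ‖(GP B w p).coeff 1‖ ^ 2 * Real.log p
        ≤ ∑ p ∈ E, ‖(GP B w p).coeff 1‖ ^ 2 * Real.log p :=
          sum_le_sum_of_subset_of_nonneg (fun p hp => (mem_filter.1 hp).2) fun p _ _ => h3 p
      _ ≤ (∑ p ∈ E, ‖(GP B w p).coeff 1‖ ^ 2 * Real.log p) * x :=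
          le_mul_of_one_le_right (sum_nonneg fun p _ => h3 p) hx1

/-- Absolute convergence. -/
lemma IsTempered.multipliable {B : HeightOneSpectrum (𝓞 K) → ℂ[X]} {w : ℝ} {N : ℕ}
    (h : IsTempered B w N) {s : ℂ} (hs : w / 2 + 1 < s.re) :
    ∃ a, HasProd (fun v => localFactor B v s) a := by
  classical
  have hbad := h.good
  set G : HeightOneSpectrum (𝓞 K) → Prop := fun v => (B v).coeff 0 = 1 ∧ (B v).natDegree ≤ N ∧
    ∀ z : ℂ, (B v).eval z = 0 → (Ideal.absNorm v.asIdeal : ℝ) ^ (-(w / 2)) ≤ ‖z‖ with hG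
  have hfin : {v | ¬ G v}.Finite := hbad
  set S := hfin.toFinset with hS
  have hmem : ∀ v, v ∈ S ↔ ¬ G v := fun v => by simp [hS]
  set T : HeightOneSpectrum (𝓞 K) → ℂ := fun v => if G v then LG (inv (B v)) ((nm v : ℂ) ^ (-s))
    else 0 with hT
  set x : ℝ := s.re - w / 2 with hx
  have hx1 : 1 < x := by rw [hx]; linarith
  have hu : ∀ v, G v → ∀ a ∈ inv (B v), ‖a * (nm v : ℂ) ^ (-s)‖ ≤ (nm v : ℝ) ^ (-x) := by
    intro v hv a ha
    have hq : (0 : ℝ) < nm v := by exact_mod_cast nm_pos v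
    have h1 := norm_inv_le hv.1 (Real.rpow_pos_of_pos hq _) hv.2.2 a ha
    have h2 : ((nm v : ℝ) ^ (-(w / 2)))⁻¹ = (nm v : ℝ) ^ (w / 2) := by
      rw [← Real.rpow_neg (Nat.cast_nonneg _), neg_neg]
    rw [h2] at h1
    rw [norm_mul, Complex.norm_natCast_cpow_of_pos (nm_pos v)]
    calc ‖a‖ * (nm v : ℝ) ^ (-s).re ≤ (nm v : ℝ) ^ (w / 2) * (nm v : ℝ) ^ (-s).re :=
          mul_le_mul_of_nonneg_right h1 (by positivity)
      _ = (nm v : ℝ) ^ (-x) := by
          rw [← Real.rpow_add hq, hx, Complex.neg_re]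
          congr 1
          ring
  have hhalf : ∀ v : HeightOneSpectrum (𝓞 K), (nm v : ℝ) ^ (-x) ≤ 1 / 2 := fun v =>
    nm_rpow_le_half v hx1.le
  have hTb : ∀ v, ‖T v‖ ≤ (3 * N : ℝ) * (nm v : ℝ) ^ (-x) := by
    intro v
    simp only [hT]
    split_ifs with hv
    · have h1 := LG_approx (by linarith [hhalf v] : (nm v : ℝ) ^ (-x) ≤ 3 / 4) (hu v hv)
      have hcard : (Multiset.card (inv (B v)) : ℝ) ≤ N := by
        exact_mod_cast (card_inv_le _).trans hv.2.1
      have h2 : ‖(inv (B v)).sum * (nm v : ℂ) ^ (-s)‖ ≤ N * (nm v : ℝ) ^ (-x) := by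
        have h3 : ∀ t : Multiset ℂ, (∀ a ∈ t, ‖a * (nm v : ℂ) ^ (-s)‖ ≤ (nm v : ℝ) ^ (-x)) →
            ‖t.sum * (nm v : ℂ) ^ (-s)‖ ≤ Multiset.card t * (nm v : ℝ) ^ (-x) := by
          intro t
          induction t using Multiset.induction_on with
          | empty => simp
          | cons a t ih =>
            intro ht
            rw [Multiset.sum_cons, Multiset.card_cons, add_mul]
            push_cast
            rw [add_mul]
            have h4 := ih fun b hb => ht b (Multiset.mem_cons_of_mem hb)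
            have h5 := ht a (Multiset.mem_cons_self a t)
            exact (norm_add_le _ _).trans (by linarith)
        exact (h3 _ (hu v hv)).trans (mul_le_mul_of_nonneg_right hcard (by positivity))
      have h4 : ‖LG (inv (B v)) ((nm v : ℂ) ^ (-s))‖ ≤
          2 * Multiset.card (inv (B v)) * ((nm v : ℝ) ^ (-x)) ^ 2 + N * (nm v : ℝ) ^ (-x) := by
        have h5 : LG (inv (B v)) ((nm v : ℂ) ^ (-s)) =
            (LG (inv (B v)) ((nm v : ℂ) ^ (-s)) - (inv (B v)).sum * (nm v : ℂ) ^ (-s)) +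
            (inv (B v)).sum * (nm v : ℂ) ^ (-s) := by ring
        rw [h5]
        exact (norm_add_le _ _).trans (add_le_add h1 h2)
      refine h4.trans ?_
      have h6 := hhalf v
      have h7 : 0 ≤ (nm v : ℝ) ^ (-x) := by positivity
      have h8 : 2 * (Multiset.card (inv (B v)) : ℝ) * ((nm v : ℝ) ^ (-x)) ^ 2 ≤
          2 * N * ((nm v : ℝ) ^ (-x) * (1 / 2)) := by
        refine mul_le_mul (by linarith) ?_ (by positivity) (by positivity)
        rw [sq]
        exact mul_le_mul_of_nonneg_left h6 h7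
      have h9 : (0 : ℝ) ≤ N * (nm v : ℝ) ^ (-x) := by positivity
      linarith
    · rw [norm_zero]
      positivity
  have hTs : Summable T := Summable.of_norm_bounded ((nm_summable hx1).mul_left _) hTb
  set F : HeightOneSpectrum (𝓞 K) → ℂ := fun v => if v ∈ S then localFactor B v s else 1 with hF
  have h1 : HasProd F (∏ v ∈ S, F v) :=
    hasProd_prod_of_ne_finset_one fun v hv => by simp only [hF]; rw [if_neg hv]
  refine ⟨(∏ v ∈ S, F v) * Complex.exp (∑' v, T v), ?_⟩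
  have h2 := h1.mul hTs.hasSum.cexp
  have h3 : (fun v => localFactor B v s) = fun v => F v * (Complex.exp ∘ T) v := by
    funext v
    simp only [hF, hT, Function.comp_apply]
    by_cases hv : G v
    · rw [if_neg (by rw [hmem]; tauto), if_pos hv, one_mul]
      unfold localFactor
      have h4 : ∀ a ∈ inv (B v), 1 - a * (nm v : ℂ) ^ (-s) ≠ 0 := fun a ha =>
        Complex.slitPlane_ne_zero (one_sub_slit (lt_of_le_of_lt (hu v hv a ha)
          (by linarith [hhalf v])))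
      rw [exp_LG h4, ← eval_inv hv.1]
      rfl
    · rw [if_pos (by rw [hmem]; exact hv), if_neg hv, Complex.exp_zero, mul_one]
  rw [h3]
  exact h2

/-- The two Euler products agree. -/
lemma IsTempered.LFun_eq {B : HeightOneSpectrum (𝓞 K) → ℂ[X]} {w : ℝ} {N : ℕ}
    (h : IsTempered B w N) {s : ℂ} (hs : 1 < s.re) :
    LFun B (((w / 2 : ℝ) : ℂ) + s) = LQ (GP B w) s := by
  have hre : w / 2 + 1 < ((((w / 2 : ℝ) : ℂ) + s)).re := by
    rw [Complex.add_re, Complex.ofReal_re]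
    linarith
  obtain ⟨a, ha⟩ := h.multipliable hre
  have h1 : LFun B (((w / 2 : ℝ) : ℂ) + s) = a := ha.tprod_eq
  have h2 := ((Equiv.sigmaFiberEquiv (below (K := K))).hasProd_iff
    (f := fun v => localFactor B v (((w / 2 : ℝ) : ℂ) + s))).2 ha
  have h3 : HasProd (fun p : Nat.Primes => ∏ v : {v : HeightOneSpectrum (𝓞 K) // below v = p},
      localFactor B v.1 (((w / 2 : ℝ) : ℂ) + s)) a := by
    refine h2.sigma fun p => ?_
    exact hasProd_fintype _
  have h4 : (fun p : Nat.Primes => fac (GP B w) p s) = fun p : Nat.Primes =>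
      ∏ v : {v : HeightOneSpectrum (𝓞 K) // below v = p},
      localFactor B v.1 (((w / 2 : ℝ) : ℂ) + s) := by
    funext p
    exact fac_GP B w p.2 s
  rw [h1]
  unfold LQ
  rw [h4]
  exact h3.tprod_eq.symm

/-- Equality of the moduli on the edge. -/
lemma IsTempered.eabs_eq {B : HeightOneSpectrum (𝓞 K) → ℂ[X]} {w : ℝ} {N : ℕ}
    (h : IsTempered B w N) (τ : ℝ) :
    limUnder (𝓝[>] (0 : ℝ)) (fun σ : ℝ => ‖LFun B (((w / 2 + 1 : ℝ) : ℂ) + τ * Complex.I + σ)‖) =
      eabs (GP B w) τ := by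
  unfold eabs limUnder
  congr 1
  refine Filter.map_congr ?_
  filter_upwards [self_mem_nhdsWithin] with σ hσ
  have hσ0 : (0 : ℝ) < σ := hσ
  have h1 : ((w / 2 + 1 : ℝ) : ℂ) + τ * Complex.I + σ = ((w / 2 : ℝ) : ℂ) +
      (1 + σ + τ * Complex.I) := by
    push_cast
    ring
  rw [h1, h.LFun_eq]
  simp
  exact hσ0

/-- Transfer of the continuation. -/
lemma IsTempered.continues_iff {B : HeightOneSpectrum (𝓞 K) → ℂ[X]} {w : ℝ} {N : ℕ}
    (h : IsTempered B w N) : Continues (LFun B) (w / 2 + 1) ↔ Continues (LQ (GP B w)) 1 := by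
  constructor
  · rintro ⟨F, hF1, hF2⟩
    refine ⟨fun s => F (((w / 2 : ℝ) : ℂ) + s), fun s₀ _ => ?_, fun s hs => ?_⟩
    · exact (hF1 (((w / 2 : ℝ) : ℂ) + s₀) (Set.mem_univ _)).comp_analyticAt
        (g := fun s => ((w / 2 : ℝ) : ℂ) + s) (by fun_prop)
    · rw [← h.LFun_eq hs]
      refine hF2 _ ?_
      rw [Complex.add_re, Complex.ofReal_re]
      linarith
  · rintro ⟨F, hF1, hF2⟩
    refine ⟨fun s => F (s - ((w / 2 : ℝ) : ℂ)), fun s₀ _ => ?_, fun s hs => ?_⟩
    · exact (hF1 (s₀ - ((w / 2 : ℝ) : ℂ)) (Set.mem_univ _)).comp_analyticAt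
        (g := fun s => s - ((w / 2 : ℝ) : ℂ)) (by fun_prop)
    · have h1 : 1 < (s - ((w / 2 : ℝ) : ℂ)).re := by
        rw [Complex.sub_re, Complex.ofReal_re]
        linarith
      have h2 : ((w / 2 : ℝ) : ℂ) + (s - ((w / 2 : ℝ) : ℂ)) = s := by ring
      show F (s - ((w / 2 : ℝ) : ℂ)) = LFun B s
      rw [hF2 _ h1, ← h.LFun_eq h1, h2]

/-- The Euler factors of the cohomology are tempered. -/
lemma isTempered_of_isEulerSystem {n : ℕ} {X : Set (MvPolynomial (Fin n) (𝓞 K))} {d i N : ℕ}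
    {B : HeightOneSpectrum (𝓞 K) → ℂ[X]} (hB : IsEulerSystem X d i N B) :
    IsTempered B (i : ℝ) N := by
  refine ⟨fun v => (hB.2 v).1, ?_⟩
  filter_upwards [hB.1] with v hv
  obtain ⟨α, h1, h2⟩ := hv
  have hn : ∀ j, ‖α j‖ = (nm v : ℝ) ^ ((i : ℝ) / 2) := norm_of_isFrobenius h1
  have hq : (0 : ℝ) < nm v := by exact_mod_cast nm_pos v
  have hpol : B v = ∏ j, (1 - C (α j) * Polynomial.X) := by
    refine Polynomial.funext fun z => ?_
    rw [h2, eval_prod]
    simp
  refine ⟨?_, ?_, fun z hz => ?_⟩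
  · rw [coeff_zero_eq_eval_zero, h2]
    simp
  · rw [hpol]
    refine (natDegree_prod_le _ _).trans ?_
    calc ∑ j, (1 - C (α j) * Polynomial.X : ℂ[X]).natDegree ≤ ∑ _j : Fin N, 1 := by
          refine sum_le_sum fun j _ => ?_
          refine (natDegree_sub_le _ _).trans ?_
          rw [natDegree_one]
          exact max_le (by norm_num) ((natDegree_C_mul_le _ _).trans natDegree_X_le)
      _ = N := by simp
  · rw [h2, prod_eq_zero_iff] at hz
    obtain ⟨j, -, hj⟩ := hz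
    have h3 : α j * z = 1 := (sub_eq_zero.1 hj).symm
    have h4 : ‖α j‖ * ‖z‖ = 1 := by rw [← norm_mul, h3, norm_one]
    rw [hn] at h4
    have h5 : ‖z‖ = (nm v : ℝ) ^ (-((i : ℝ) / 2)) := by
      rw [Real.rpow_neg hq.le]
      exact eq_inv_of_mul_eq_one_right h4
    exact le_of_eq h5.symm

end

end Pool.Agent.Y774.MD
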