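import Mathlib

/-!
# Level sets on a circle and the maximum principle
-/

set_option autoImplicit false

namespace Pool.Agent.Y774.MD

open Filter Topology MeasureTheory Polynomial

/-- A real analytic function is constant or has level sets of measure zero. -/
lemma level {f : ℝ → ℝ} (hf : AnalyticOnNhd ℝ f Set.univ) {x : ℝ}
    (h : volume {τ | f τ = x} ≠ 0) : ∀ τ, f τ = x := by
  rcases hf.eqOn_or_eventually_ne_of_preconnected (g := fun _ => x) analyticOnNhd_const
    isPreconnected_univ with h1 | h1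
  · exact fun τ => h1 (Set.mem_univ τ)
  · exfalso
    have h2 : ae (volume.restrict (Set.univ : Set ℝ)) ≤ codiscreteWithin Set.univ :=
      ae_restrict_le_codiscreteWithin MeasurableSet.univ
    rw [Measure.restrict_univ] at h2
    have h3 : ∀ᵐ τ : ℝ, f τ ≠ x := h2 h1
    rw [ae_iff] at h3
    simp only [ne_eq, not_not] at h3
    exact h h3

/-- A holomorphic function vanishing at `0` with constant real part on a circle vanishes. -/
lemma harmonic_const {H : ℂ → ℂ} {ρ r κ : ℝ} (hr : 0 < r) (hrρ : r < ρ)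
    (hH : AnalyticOnNhd ℂ H (Metric.ball 0 ρ)) (h0 : H 0 = 0)
    (hκ : ∀ z, ‖z‖ = r → (H z).re = κ) : ∀ z, ‖z‖ < ρ → H z = 0 := by
  have hsub : Metric.closedBall (0 : ℂ) r ⊆ Metric.ball 0 ρ := Metric.closedBall_subset_ball hrρ
  have hHd : DifferentiableOn ℂ H (Metric.closedBall 0 r) := hH.differentiableOn.mono hsub
  have hcl : closure (Metric.ball (0 : ℂ) r) = Metric.closedBall 0 r := closure_ball _ hr.ne'
  have hfr : frontier (Metric.ball (0 : ℂ) r) = Metric.sphere 0 r := frontier_ball _ hr.ne'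
  have hb : Bornology.IsBounded (Metric.ball (0 : ℂ) r) := Metric.isBounded_ball
  have hmax : ∀ σ : ℂ, (σ = 1 ∨ σ = -1) → ∀ z ∈ Metric.closedBall (0 : ℂ) r,
      ‖Complex.exp (σ * H z)‖ ≤ Real.exp (σ.re * κ) := by
    intro σ hσ z hz
    have hd : DiffContOnCl ℂ (fun z => Complex.exp (σ * H z)) (Metric.ball 0 r) := by
      refine DifferentiableOn.diffContOnCl ?_
      rw [hcl]
      exact (hHd.const_mul σ).cexp
    refine Complex.norm_le_of_forall_mem_frontier_norm_le hb hd (fun w hw => ?_)
      (by rw [hcl]; exact hz)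
    rw [hfr, mem_sphere_zero_iff_norm] at hw
    rw [Complex.norm_exp]
    have h1 : (σ * H w).re = σ.re * κ := by
      rw [Complex.mul_re, hκ w hw]
      rcases hσ with rfl | rfl <;> simp
    rw [h1]
  have h0m : (0 : ℂ) ∈ Metric.closedBall (0 : ℂ) r := Metric.mem_closedBall_self hr.le
  have hκ0 : κ = 0 := by
    have h1 := hmax 1 (Or.inl rfl) 0 h0m
    have h2 := hmax (-1) (Or.inr rfl) 0 h0m
    rw [h0] at h1 h2
    simp only [mul_zero, Complex.exp_zero, norm_one, Complex.one_re, one_mul, Complex.neg_re,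
      neg_mul] at h1 h2
    have h3 := Real.one_le_exp_iff.1 h1
    have h4 := Real.one_le_exp_iff.1 h2
    linarith
  have hF : ∀ z ∈ Metric.ball (0 : ℂ) r, Complex.exp (H z) = 1 := by
    have h1 : Set.EqOn (fun z => Complex.exp (H z)) (Function.const ℂ (Complex.exp (H 0)))
        (Metric.ball 0 r) := by
      refine Complex.eqOn_of_isPreconnected_of_isMaxOn_norm (convex_ball _ _).isPreconnected
        Metric.isOpen_ball ((hHd.mono Metric.ball_subset_closedBall).cexp)
        (Metric.mem_ball_self hr) ?_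
      intro z hz
      have h2 := hmax 1 (Or.inl rfl) z (Metric.ball_subset_closedBall hz)
      rw [hκ0, one_mul, mul_zero, Real.exp_zero] at h2
      simp only [Function.comp_apply, h0, Complex.exp_zero, norm_one, Set.mem_ofPred_eq]
      exact h2
    intro z hz
    have := h1 hz
    simpa [h0] using this
  have hev : H =ᶠ[𝓝 0] 0 := by
    have hc : ContinuousAt H 0 := (hH 0 (Metric.mem_ball_self (hr.trans hrρ))).continuousAt
    have h1 : ∀ᶠ z in 𝓝 (0 : ℂ), ‖H z‖ < Real.pi := by
      have h2 := hc.norm.eventually (gt_mem_nhds (show ‖H 0‖ < Real.pi by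
        rw [h0, norm_zero]; exact Real.pi_pos))
      exact h2
    filter_upwards [h1, Metric.ball_mem_nhds (0 : ℂ) hr] with z hz1 hz2
    have h3 := (abs_lt.1 (lt_of_le_of_lt (Complex.abs_im_le_norm (H z)) hz1))
    have h4 := Complex.log_exp h3.1 h3.2.le
    rw [hF z hz2, Complex.log_one] at h4
    exact h4.symm
  intro z hz
  have h1 := hH.eqOn_zero_of_preconnected_of_eventuallyEq_zero (convex_ball _ _).isPreconnected
    (Metric.mem_ball_self (hr.trans hrρ)) hev
  exact h1 (by simpa using hz)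

/-- The inverses of the zeros. -/
noncomputable def inv (P : ℂ[X]) : Multiset ℂ := P.roots.map fun z => z⁻¹

lemma eval_inv {P : ℂ[X]} (h0 : P.coeff 0 = 1) (z : ℂ) :
    P.eval z = ((inv P).map fun a => 1 - a * z).prod := by
  have hP : P ≠ 0 := by
    rintro rfl
    simp at h0
  have hs : P.Splits := IsAlgClosed.splits P
  have h1 : ∀ w, P.eval w = P.leadingCoeff * (P.roots.map fun x => w - x).prod :=
    fun w => hs.eval_eq_prod_roots w
  have hne : ∀ x ∈ P.roots, x ≠ 0 := by
    rintro x hx rfl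
    rw [mem_roots hP, IsRoot, ← coeff_zero_eq_eval_zero, h0] at hx
    exact one_ne_zero hx
  have h2 : (P.roots.map fun x => z - x).prod =
      (P.roots.map fun x => 0 - x).prod * (P.roots.map fun x => 1 - x⁻¹ * z).prod := by
    rw [← Multiset.prod_map_mul]
    congr 1
    refine Multiset.map_congr rfl fun x hx => ?_
    have := hne x hx
    field_simp
    ring
  have h3 := h1 0
  rw [← coeff_zero_eq_eval_zero, h0] at h3
  rw [h1, h2, ← mul_assoc, ← h3, one_mul, inv, Multiset.map_map]
  rfl

lemma norm_inv_le {P : ℂ[X]} (h0 : P.coeff 0 = 1) {b : ℝ} (hb : 0 < b)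
    (h : ∀ z, P.eval z = 0 → b ≤ ‖z‖) : ∀ a ∈ inv P, ‖a‖ ≤ b⁻¹ := by
  have hP : P ≠ 0 := by
    rintro rfl
    simp at h0
  intro a ha
  unfold inv at ha
  rw [Multiset.mem_map] at ha
  obtain ⟨z, hz, rfl⟩ := ha
  rw [mem_roots hP] at hz
  rw [norm_inv]
  exact inv_anti₀ hb (h z hz)

lemma card_inv_le (P : ℂ[X]) : Multiset.card (inv P) ≤ P.natDegree := by
  unfold inv
  rw [Multiset.card_map]
  exact P.card_roots'

/-- The logarithm of the Euler factor. -/
noncomputable def LG (s : Multiset ℂ) (z : ℂ) : ℂ := (s.map fun a => -Complex.log (1 - a * z)).sum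

lemma exp_LG {s : Multiset ℂ} {z : ℂ} (h : ∀ a ∈ s, 1 - a * z ≠ 0) :
    Complex.exp (LG s z) = ((s.map fun a => 1 - a * z).prod)⁻¹ := by
  unfold LG
  induction s using Multiset.induction_on with
  | empty => simp
  | cons a s ih =>
    rw [Multiset.map_cons, Multiset.sum_cons, Complex.exp_add, ih fun b hb =>
      h b (Multiset.mem_cons_of_mem hb), Multiset.map_cons, Multiset.prod_cons, mul_inv,
      Complex.exp_neg, Complex.exp_log (h a (Multiset.mem_cons_self a s))]

lemma one_sub_slit {a z : ℂ} (h : ‖a * z‖ < 1) : 1 - a * z ∈ Complex.slitPlane := by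
  refine Or.inl ?_
  have h4 := Complex.re_le_norm (a * z)
  rw [Complex.sub_re, Complex.one_re]
  linarith

lemma analytic_LG {s : Multiset ℂ} {b : ℝ} (h : ∀ a ∈ s, ‖a‖ ≤ b⁻¹) (hb : 0 < b) :
    AnalyticOnNhd ℂ (LG s) (Metric.ball 0 b) := by
  have h1 : ∀ a ∈ s, ∀ z ∈ Metric.ball (0 : ℂ) b, ‖a * z‖ < 1 := by
    intro a ha z hz
    rw [mem_ball_zero_iff] at hz
    rw [norm_mul]
    calc ‖a‖ * ‖z‖ ≤ b⁻¹ * ‖z‖ := mul_le_mul_of_nonneg_right (h a ha) (norm_nonneg _)
      _ < b⁻¹ * b := mul_lt_mul_of_pos_left hz (by positivity)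
      _ = 1 := inv_mul_cancel₀ hb.ne'
  induction s using Multiset.induction_on with
  | empty =>
    have : LG 0 = fun _ => 0 := by
      funext z
      simp [LG]
    rw [this]
    exact analyticOnNhd_const
  | cons a s ih =>
    have h2 : LG (a ::ₘ s) = fun z => -Complex.log (1 - a * z) + LG s z := by
      funext z
      simp [LG]
    rw [h2]
    have h3 : AnalyticOnNhd ℂ (fun z => -Complex.log (1 - a * z)) (Metric.ball 0 b) := by
      intro z hz
      refine AnalyticAt.neg (AnalyticAt.clog ?_ (one_sub_slit (h1 a (Multiset.mem_cons_self a s) z hz)))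
      exact analyticAt_const.sub (analyticAt_const.mul analyticAt_id)
    exact h3.add (ih (fun c hc => h c (Multiset.mem_cons_of_mem hc))
      fun c hc => h1 c (Multiset.mem_cons_of_mem hc))

lemma LG_zero (s : Multiset ℂ) : LG s 0 = 0 := by
  unfold LG
  simp

/-- The logarithm up to quadratic terms. -/
lemma LG_approx {s : Multiset ℂ} {z : ℂ} {u : ℝ} (hu : u ≤ 3 / 4)
    (h : ∀ a ∈ s, ‖a * z‖ ≤ u) : ‖LG s z - s.sum * z‖ ≤ 2 * Multiset.card s * u ^ 2 := by
  unfold LG
  induction s using Multiset.induction_on with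
  | empty => simp
  | cons a s ih =>
    have h1 := ih fun b hb => h b (Multiset.mem_cons_of_mem hb)
    have h2 := h a (Multiset.mem_cons_self a s)
    rw [Multiset.map_cons, Multiset.sum_cons, Multiset.sum_cons, Multiset.card_cons]
    have h3 : ‖-(a * z)‖ < 1 := by
      rw [norm_neg]
      linarith
    have h4 := Complex.norm_log_one_add_sub_self_le h3
    rw [norm_neg] at h4
    have h5 : -Complex.log (1 - a * z) + (s.map fun a => -Complex.log (1 - a * z)).sum -
        (a + s.sum) * z = -(Complex.log (1 + -(a * z)) - -(a * z)) +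
        ((s.map fun a => -Complex.log (1 - a * z)).sum - s.sum * z) := by
      rw [sub_eq_add_neg (1 : ℂ) (a * z)]
      ring
    rw [h5]
    refine (norm_add_le _ _).trans ?_
    rw [norm_neg]
    have h6 : ‖Complex.log (1 + -(a * z)) - -(a * z)‖ ≤ 2 * u ^ 2 := by
      refine h4.trans ?_
      have h7 : (1 - ‖a * z‖)⁻¹ ≤ 4 := by
        rw [inv_le_comm₀ (by linarith) (by norm_num)]
        linarith
      have h8 : ‖a * z‖ ^ 2 ≤ u ^ 2 := pow_le_pow_left₀ (norm_nonneg _) h2 2
      have h9 : 0 ≤ (1 - ‖a * z‖)⁻¹ := inv_nonneg.2 (by linarith)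
      have := mul_le_mul h8 h7 h9 (sq_nonneg u)
      linarith
    push_cast
    linarith

end Pool.Agent.Y774.MD
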