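import Pool.Agent.Y774.MD.Block

/-!
# Convergence on the edge and the tails in mean over unit intervals
-/

set_option autoImplicit false

namespace Pool.Agent.Y774.MD

open Filter Topology MeasureTheory Finset Pool.Agent.W350.Edge
open scoped ENNReal

/-- The partial sums of `∑ c_p p^{-iτ}` over the primes. -/
noncomputable def pS (c : ℕ → ℂ) (τ : ℝ) (x : ℕ) : ℂ :=
  ∑ p ∈ (range x).filter Nat.Prime, c p * Complex.exp (-(τ * Real.log p) * Complex.I)

/-- A block. -/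
noncomputable def bS (c : ℕ → ℂ) (j : ℕ) (τ : ℝ) : ℂ :=
  ∑ p ∈ FF 1 j, c p * Complex.exp (-(τ * Real.log p) * Complex.I)

lemma continuous_bS (c : ℕ → ℂ) (j : ℕ) : Continuous (bS c j) := by
  unfold bS
  fun_prop

lemma sum_Ico_filter {M : Type*} [AddCommGroup M] (f : ℕ → M) {a b : ℕ} (hab : a ≤ b) :
    ∑ p ∈ (range b).filter Nat.Prime, f p - ∑ p ∈ (range a).filter Nat.Prime, f p =
      ∑ p ∈ (Ico a b).filter Nat.Prime, f p := by
  rw [sum_filter, sum_filter, sum_filter]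
  exact (sum_Ico_eq_sub _ hab).symm

lemma bS_eq (c : ℕ → ℂ) (j : ℕ) (τ : ℝ) :
    bS c j τ = pS c τ (NN 1 (j + 1)) - pS c τ (NN 1 j) := by
  unfold pS bS FF
  rw [sum_Ico_filter _ (NN_le 1 j)]

/-- The bound for the blocks. -/
noncomputable def om (C : ℝ) (j : ℕ) : ℝ := 18 * C * ((j : ℝ) + 1) ^ (-(3 / 2 : ℝ))

lemma om_nonneg {C : ℝ} (hC : 0 ≤ C) (j : ℕ) : 0 ≤ om C j := by
  unfold om
  positivity

lemma om_summable (C : ℝ) : Summable (om C) := by
  unfold om
  refine Summable.mul_left _ ?_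
  have h1 : Summable fun n : ℕ => ((n : ℝ)) ^ (-(3 / 2 : ℝ)) := Real.summable_nat_rpow.2 (by norm_num)
  have h2 := (summable_nat_add_iff 1).2 h1
  simpa using h2

lemma bound_om {C : ℝ} (hC : 0 ≤ C) (j : ℕ) :
    9 * C * Real.sqrt (LL 1 j) / KK 1 j ≤ om C j := by
  have hj : (0 : ℝ) < (j : ℝ) + 1 := by positivity
  have h1 : Real.sqrt (LL 1 j) ≤ 2 * ((j : ℝ) + 1) ^ (1 / 2 : ℝ) := by
    rw [← Real.sqrt_eq_rpow]
    have h2 : (LL 1 j : ℝ) ≤ 4 * ((j : ℝ) + 1) := by
      have := LL_le 1 j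
      have h3 : (LL 1 j : ℝ) ≤ ((1 + 1) * 2 ^ 1 * (j + 1) ^ 1 : ℕ) := by exact_mod_cast this
      refine h3.trans (le_of_eq ?_)
      push_cast
      ring
    calc Real.sqrt (LL 1 j) ≤ Real.sqrt (4 * ((j : ℝ) + 1)) := Real.sqrt_le_sqrt h2
      _ = 2 * Real.sqrt ((j : ℝ) + 1) := by
        rw [Real.sqrt_mul (by norm_num)]
        congr 1
        rw [show (4 : ℝ) = 2 ^ 2 by norm_num, Real.sqrt_sq (by norm_num)]
  have h2 : (KK 1 j : ℝ) = ((j : ℝ) + 1) ^ (2 : ℝ) := by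
    unfold KK
    rw [Real.rpow_two]
    push_cast
    ring
  rw [h2, div_le_iff₀ (by positivity)]
  unfold om
  have h3 : ((j : ℝ) + 1) ^ (-(3 / 2 : ℝ)) * ((j : ℝ) + 1) ^ (2 : ℝ) =
      ((j : ℝ) + 1) ^ (1 / 2 : ℝ) := by
    rw [← Real.rpow_add hj]
    norm_num
  calc 9 * C * Real.sqrt (LL 1 j) ≤ 9 * C * (2 * ((j : ℝ) + 1) ^ (1 / 2 : ℝ)) :=
        mul_le_mul_of_nonneg_left h1 (by positivity)
    _ = 18 * C * (((j : ℝ) + 1) ^ (-(3 / 2 : ℝ)) * ((j : ℝ) + 1) ^ (2 : ℝ)) := by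
      rw [h3]
      ring
    _ = _ := by ring

lemma BlockBound.twist {c : ℕ → ℂ} {C : ℝ} (h : BlockBound c C) (m : ℝ) :
    BlockBound (fun p => c p * Complex.exp (-(m * Real.log p) * Complex.I)) C := by
  intro k hk F hF
  refine le_trans (le_of_eq (sum_congr rfl fun p _ => ?_)) (h k hk F hF)
  rw [norm_mul, Complex.norm_exp]
  have : (-((m : ℂ) * (Real.log p : ℂ)) * Complex.I).re = 0 := by
    rw [Complex.mul_I_re, ← Complex.ofReal_mul, ← Complex.ofReal_neg, Complex.ofReal_im,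
      neg_zero]
  rw [this, Real.exp_zero, mul_one]

lemma int_bS {c : ℕ → ℂ} {C : ℝ} (h : BlockBound c C) (j : ℕ) (m : ℝ) :
    ∫ τ in m..(m + 1), ‖bS c j τ‖ ≤ om C j := by
  have h1 := block_L1 (h.twist m) (KK_pos 1 j) (fun p hp => mem_FF' 1 (j := j) hp)
  have h2 := intervalIntegral.integral_comp_add_right (fun τ => ‖bS c j τ‖) (a := 0) (b := 1) m
  rw [zero_add, add_comm 1 m] at h2
  rw [← h2]
  refine le_trans (le_of_eq ?_) (h1.trans (bound_om h.nonneg j))
  refine intervalIntegral.integral_congr fun τ _ => ?_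
  congr 1
  unfold bS
  refine sum_congr rfl fun p _ => ?_
  rw [mul_assoc, ← Complex.exp_add]
  congr 2
  push_cast
  ring

lemma lint_bS {c : ℕ → ℂ} {C : ℝ} (h : BlockBound c C) (j : ℕ) (m : ℝ) :
    ∫⁻ τ in Set.Ioc m (m + 1), ‖bS c j τ‖ₑ ≤ ENNReal.ofReal (om C j) := by
  have h1 := int_bS h j m
  have h2 : Integrable (bS c j) (volume.restrict (Set.Ioc m (m + 1))) :=
    ((continuous_bS c j).integrableOn_Icc (a := m) (b := m + 1)).mono_set Set.Ioc_subset_Icc_self
  rw [intervalIntegral.integral_of_le (by linarith)] at h1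
  rw [← ofReal_integral_norm_eq_lintegral_enorm h2]
  exact ENNReal.ofReal_le_ofReal h1

lemma ae_of_Ioc {P : ℝ → Prop} (h : ∀ m : ℤ, ∀ᵐ τ ∂(volume.restrict (Set.Ioc (m : ℝ) (m + 1))), P τ) :
    ∀ᵐ τ : ℝ, P τ := by
  have h1 : ∀ᵐ τ : ℝ, ∀ m : ℤ, τ ∈ Set.Ioc (m : ℝ) (m + 1) → P τ := by
    rw [ae_all_iff]
    intro m
    exact (ae_restrict_iff' measurableSet_Ioc).1 (h m)
  filter_upwards [h1] with τ hτ
  refine hτ (⌈τ⌉ - 1) ⟨?_, ?_⟩
  · push_cast
    linarith [Int.ceil_lt_add_one τ]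
  · push_cast
    linarith [Int.le_ceil τ]

lemma ae_summable_bS {c : ℕ → ℂ} {C : ℝ} (h : BlockBound c C) :
    ∀ᵐ τ : ℝ, Summable fun j => ‖bS c j τ‖ := by
  refine ae_of_Ioc fun m => ?_
  have hmeas : ∀ j, Measurable fun τ => ‖bS c j τ‖ₑ := fun j =>
    (continuous_bS c j).measurable.enorm
  have h1 : ∫⁻ τ in Set.Ioc (m : ℝ) (m + 1), ∑' j, ‖bS c j τ‖ₑ ≠ ∞ := by
    rw [lintegral_tsum fun j => (hmeas j).aemeasurable]
    refine ne_top_of_le_ne_top ?_ (ENNReal.tsum_le_tsum fun j => lint_bS h j m)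
    rw [← ENNReal.ofReal_tsum_of_nonneg (om_nonneg h.nonneg) (om_summable C)]
    exact ENNReal.ofReal_ne_top
  have h2 := ae_lt_top (Measurable.tsum hmeas) h1
  filter_upwards [h2] with τ hτ
  have h3 : ∑' j, ((‖bS c j τ‖₊ : NNReal) : ℝ≥0∞) ≠ ∞ := hτ.ne
  have h4 := ENNReal.tsum_coe_ne_top_iff_summable_coe.1 h3
  exact h4

/-- Convergence almost everywhere. -/
lemma ae_converge {c : ℕ → ℂ} {C : ℝ} (h : BlockBound c C) :
    ∀ᵐ τ : ℝ, ∃ l, Tendsto (pS c τ) atTop (𝓝 l) := by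
  filter_upwards [ae_summable_bS h] with τ hτ
  have h1 : Summable fun j : ℕ => pS c τ (NN 1 (j + 1)) - pS c τ (NN 1 j) := by
    refine Summable.of_norm ?_
    simpa only [bS_eq] using hτ
  obtain ⟨l, hl⟩ : ∃ l, Tendsto (fun j => pS c τ (NN 1 j)) atTop (𝓝 l) := by
    have h2 := h1.hasSum.tendsto_sum_nat
    simp_rw [sum_range_sub (fun j => pS c τ (NN 1 j))] at h2
    refine ⟨(∑' j : ℕ, (pS c τ (NN 1 (j + 1)) - pS c τ (NN 1 j))) + pS c τ (NN 1 0), ?_⟩
    have h3 := h2.add_const (pS c τ (NN 1 0))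
    simpa using h3
  refine ⟨l, tendsto_of_blocks _ (NN 1) (tendsto_NN 1)
    (fun j => C * (((1 + 1) * 2 ^ 1 : ℕ) / ((j : ℝ) + 1))) ?_ ?_ l hl⟩
  · have h2 : Tendsto (fun j : ℕ => (((1 + 1) * 2 ^ 1 : ℕ) : ℝ) / ((j : ℝ) + 1)) atTop (𝓝 0) := by
      refine Tendsto.div_atTop tendsto_const_nhds ?_
      exact tendsto_atTop_add_const_right _ _ tendsto_natCast_atTop_atTop
    have h3 := h2.const_mul C
    simpa using h3
  · intro j x h2 h3
    unfold pS
    rw [sum_Ico_filter _ h2]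
    refine (norm_sum_le _ _).trans ?_
    have h4 : ∑ p ∈ (Ico (NN 1 j) x).filter Nat.Prime,
        ‖c p * Complex.exp (-(τ * Real.log p) * Complex.I)‖ ≤ ∑ p ∈ FF 1 j, ‖c p‖ := by
      refine (sum_le_sum_of_subset_of_nonneg (filter_subset_filter _ (Ico_subset_Ico_right h3.le))
        fun _ _ _ => norm_nonneg _).trans (le_of_eq (sum_congr rfl fun p _ => ?_))
      rw [norm_mul, Complex.norm_exp]
      have : (-((τ : ℂ) * (Real.log p : ℂ)) * Complex.I).re = 0 := by
        rw [Complex.mul_I_re, ← Complex.ofReal_mul, ← Complex.ofReal_neg, Complex.ofReal_im,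
          neg_zero]
      rw [this, Real.exp_zero, mul_one]
    refine h4.trans ((h.sum_le' (KK_pos 1 j) (fun p hp => mem_FF' 1 (j := j) hp)).trans ?_)
    have h6 : C / KK 1 j * LL 1 j = C * ((LL 1 j : ℝ) / KK 1 j) := by ring
    rw [h6]
    refine mul_le_mul_of_nonneg_left ?_ h.nonneg
    have := LL_div_KK 1 j
    exact_mod_cast this

/-- The partial sums of real functions indexed by the primes. -/
noncomputable def rS (r : ℕ → ℝ → ℝ) (x : ℕ) (τ : ℝ) : ℝ :=
  ∑ p ∈ (range x).filter Nat.Prime, r p τ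

/-- `r_p(τ)` is `Re (c_p p^{-iτ})` up to a summable error. -/
structure Approx (r : ℕ → ℝ → ℝ) (c : ℕ → ℂ) (C : ℝ) (e : ℕ → ℝ) (E : Finset ℕ) : Prop where
  bb : BlockBound c C
  he : Summable e
  e0 : ∀ p, 0 ≤ e p
  meas : ∀ p, Measurable (r p)
  hr : ∀ p, p.Prime → p ∉ E → ∀ τ, |r p τ - (c p * Complex.exp (-(τ * Real.log p) * Complex.I)).re| ≤ e p

variable {r : ℕ → ℝ → ℝ} {c : ℕ → ℂ} {C : ℝ} {e : ℕ → ℝ} {E : Finset ℕ}

lemma measurable_rS (hm : ∀ p, Measurable (r p)) (x : ℕ) : Measurable (rS r x) := by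
  unfold rS
  exact Finset.measurable_sum _ fun p _ => hm p

/-- Convergence of the sums almost everywhere. -/
lemma Approx.ae_tendsto (h : Approx r c C e E) :
    ∀ᵐ τ : ℝ, ∃ g, Tendsto (fun x => rS r x τ) atTop (𝓝 g) := by
  classical
  filter_upwards [ae_converge h.bb] with τ ⟨l, hl⟩
  set d : ℕ → ℝ := fun p => if p.Prime then
    r p τ - (c p * Complex.exp (-(τ * Real.log p) * Complex.I)).re else 0 with hd
  have h1 : Summable d := by
    refine Summable.of_norm_bounded_eventually_nat h.he ?_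
    obtain ⟨M, hM⟩ := E.finite_toSet.bddAbove
    filter_upwards [eventually_gt_atTop M] with p hp
    simp only [hd]
    split_ifs with h2
    · refine h.hr p h2 (fun h3 => ?_) τ
      have := hM h3
      omega
    · rw [norm_zero]
      exact h.e0 p
  have h2 := h1.hasSum.tendsto_sum_nat
  have h3 : Tendsto (fun x => (pS c τ x).re) atTop (𝓝 l.re) :=
    (Complex.continuous_re.tendsto l).comp hl
  refine ⟨l.re + ∑' p, d p, (h3.add h2).congr fun x => ?_⟩
  unfold pS rS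
  rw [Complex.re_sum, sum_filter, sum_filter, ← sum_add_distrib]
  refine sum_congr rfl fun p _ => ?_
  simp only [hd]
  split_ifs <;> ring

/-- The tails are small in mean over all unit intervals. -/
lemma Approx.tail (h : Approx r c C e E) (G : ℝ → ℝ)
    (hG : ∀ᵐ τ : ℝ, Tendsto (fun x => rS r x τ) atTop (𝓝 (G τ))) {η : ℝ} (hη : 0 < η) :
    ∃ J₀, ∀ J, J₀ ≤ J → ∀ m : ℝ,
      ∫⁻ τ in Set.Ioc m (m + 1), ‖G τ - rS r (NN 1 J) τ‖ₑ ≤ ENNReal.ofReal η := by
  classical
  obtain ⟨M, hM⟩ := E.finite_toSet.bddAbove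
  have t1 := tendsto_sum_nat_add (om C)
  have t2 : Tendsto (fun J => ∑' k, e (k + NN 1 J)) atTop (𝓝 0) :=
    (tendsto_sum_nat_add e).comp (tendsto_NN 1)
  have t3 := (tendsto_NN 1).eventually (eventually_gt_atTop M)
  have t4 := (t1.add t2).eventually (gt_mem_nhds (show (0 : ℝ) + 0 < η by linarith))
  obtain ⟨J₀, hJ₀⟩ := (t3.and t4).exists_forall_of_atTop
  refine ⟨J₀, fun J hJ m => ?_⟩
  obtain ⟨hJ1, hJ2⟩ := hJ₀ J hJ
  set X := NN 1 J with hX
  have hmono : Monotone (NN 1) := monotone_nat_of_le_succ (NN_le 1)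
  have hC := h.bb.nonneg
  -- the bound for the partial sums
  have hk : ∀ k, J ≤ k → ∫⁻ τ in Set.Ioc m (m + 1), ‖rS r (NN 1 k) τ - rS r X τ‖ₑ ≤
      ENNReal.ofReal η := by
    intro k hk
    have hXk : X ≤ NN 1 k := hmono hk
    have hpt : ∀ τ : ℝ, ‖rS r (NN 1 k) τ - rS r X τ‖ₑ ≤
        (∑ j ∈ Ico J k, ‖bS c j τ‖ₑ) + ENNReal.ofReal (∑' k, e (k + X)) := by
      intro τ
      have h1 : ‖rS r (NN 1 k) τ - rS r X τ‖ ≤ (∑ j ∈ Ico J k, ‖bS c j τ‖) + ∑' k, e (k + X) := by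
        unfold rS
        rw [sum_Ico_filter _ hXk]
        have h2 : ∑ p ∈ (Ico X (NN 1 k)).filter Nat.Prime, r p τ =
            (∑ j ∈ Ico J k, bS c j τ).re +
            ∑ p ∈ (Ico X (NN 1 k)).filter Nat.Prime,
              (r p τ - (c p * Complex.exp (-(τ * Real.log p) * Complex.I)).re) := by
          have h3 : ∑ j ∈ Ico J k, bS c j τ = ∑ p ∈ (Ico X (NN 1 k)).filter Nat.Prime,
              c p * Complex.exp (-(τ * Real.log p) * Complex.I) := by
            simp_rw [bS_eq]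
            rw [sum_Ico_sub (fun j => pS c τ (NN 1 j)) hk]
            unfold pS
            rw [sum_Ico_filter _ hXk]
          rw [h3, Complex.re_sum, ← sum_add_distrib]
          exact sum_congr rfl fun p _ => by ring
        rw [h2]
        refine (norm_add_le _ _).trans (add_le_add ?_ ?_)
        · rw [Real.norm_eq_abs]
          exact (Complex.abs_re_le_norm _).trans (norm_sum_le _ _)
        · refine (norm_sum_le_of_le (n := e) _ fun p hp => ?_).trans ?_
          · rw [mem_filter, mem_Ico] at hp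
            refine h.hr p hp.2 (fun h3 => ?_) τ
            have := hM h3
            omega
          · have h3 : ∑ p ∈ (Ico X (NN 1 k)).filter Nat.Prime, e p ≤ ∑ p ∈ Ico X (NN 1 k), e p :=
              sum_le_sum_of_subset_of_nonneg (filter_subset _ _) fun p _ _ => h.e0 p
            refine h3.trans ?_
            rw [sum_Ico_eq_sum_range]
            have h4 : Summable fun k => e (k + X) := (summable_nat_add_iff X).2 h.he
            refine le_trans (le_of_eq (sum_congr rfl fun i _ => ?_))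
              (h4.sum_le_tsum (range (NN 1 k - X)) fun i _ => h.e0 _)
            rw [add_comm]
      have h0 : 0 ≤ ∑' k, e (k + X) := tsum_nonneg fun _ => h.e0 _
      rw [← ofReal_norm]
      refine (ENNReal.ofReal_le_ofReal h1).trans ?_
      rw [ENNReal.ofReal_add (sum_nonneg fun _ _ => norm_nonneg _) h0,
        ENNReal.ofReal_sum_of_nonneg fun _ _ => norm_nonneg _]
      simp_rw [ofReal_norm]
      exact le_rfl
    refine (lintegral_mono hpt).trans ?_
    rw [lintegral_add_right _ measurable_const, lintegral_finsetSum _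
      fun j _ => (continuous_bS c j).measurable.enorm, lintegral_const,
      Measure.restrict_apply_univ, Real.volume_Ioc]
    have h1 : m + 1 - m = 1 := by ring
    rw [h1, ENNReal.ofReal_one, mul_one]
    have h0 : 0 ≤ ∑' k, e (k + X) := tsum_nonneg fun _ => h.e0 _
    calc (∑ j ∈ Ico J k, ∫⁻ τ in Set.Ioc m (m + 1), ‖bS c j τ‖ₑ) + ENNReal.ofReal (∑' k, e (k + X))
        ≤ (∑ j ∈ Ico J k, ENNReal.ofReal (om C j)) + ENNReal.ofReal (∑' k, e (k + X)) := by
          gcongr with j _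
          exact lint_bS h.bb j m
      _ = ENNReal.ofReal ((∑ j ∈ Ico J k, om C j) + ∑' k, e (k + X)) := by
          rw [ENNReal.ofReal_add (sum_nonneg fun _ _ => om_nonneg hC _) h0,
            ENNReal.ofReal_sum_of_nonneg fun _ _ => om_nonneg hC _]
      _ ≤ ENNReal.ofReal η := by
          refine ENNReal.ofReal_le_ofReal (le_trans (add_le_add ?_ le_rfl) hJ2.le)
          rw [sum_Ico_eq_sum_range]
          have h4 : Summable fun k => om C (k + J) := (summable_nat_add_iff J).2 (om_summable C)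
          refine le_trans (le_of_eq (sum_congr rfl fun i _ => ?_))
            (h4.sum_le_tsum (range (k - J)) fun i _ => om_nonneg hC _)
          rw [add_comm]
  -- Fatou
  have hlim : ∀ᵐ τ ∂(volume.restrict (Set.Ioc m (m + 1))),
      ‖G τ - rS r X τ‖ₑ ≤ liminf (fun k => ‖rS r (NN 1 k) τ - rS r X τ‖ₑ) atTop := by
    filter_upwards [ae_restrict_of_ae hG] with τ hτ
    have h1 : Tendsto (fun k => ‖rS r (NN 1 k) τ - rS r X τ‖ₑ) atTop (𝓝 ‖G τ - rS r X τ‖ₑ) :=
      ((hτ.comp (tendsto_NN 1)).sub_const _).enorm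
    rw [h1.liminf_eq]
  refine (lintegral_mono_ae hlim).trans ?_
  refine (lintegral_liminf_le fun k => ((measurable_rS h.meas _).sub
    (measurable_rS h.meas _)).enorm).trans ?_
  refine liminf_le_of_le (by isBoundedDefault) fun b hb => ?_
  obtain ⟨k, hk1, hk2⟩ := (hb.and (eventually_ge_atTop J)).exists
  exact hk1.trans (hk k hk2)

end Pool.Agent.Y774.MD
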