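import Pool.Agent.Y774.MD.Indep
import Pool.Agent.Y774.MD.Tail

/-!
# The concentration function of the limiting distribution
-/

set_option autoImplicit false

namespace Pool.Agent.Y774.MD

open Filter Topology MeasureTheory Finset Pool.Agent.W350.Edge
open scoped ENNReal

lemma norm_integral_le_of_lintegral {f : ℝ → ℂ} {T K : ℝ} (hT : 0 ≤ T) (hK : 0 ≤ K)
    (h : ∫⁻ τ in Set.Ioc 0 T, ‖f τ‖ₑ ≤ ENNReal.ofReal K) : ‖∫ τ in (0 : ℝ)..T, f τ‖ ≤ K := by
  rw [intervalIntegral.integral_of_le hT]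
  have h1 := (enorm_integral_le_lintegral_enorm (μ := volume.restrict (Set.Ioc 0 T)) f).trans h
  rw [← ofReal_norm, ENNReal.ofReal_le_ofReal_iff hK] at h1
  exact h1

lemma intInt_of_bound {f : ℝ → ℂ} (hm : AEMeasurable f) {B : ℝ} (hb : ∀ τ, ‖f τ‖ ≤ B) (a b : ℝ) :
    IntervalIntegrable f volume a b := by
  rw [intervalIntegrable_iff]
  refine Measure.integrableOn_of_bounded (M := B) ?_ hm.aestronglyMeasurable ?_
  · rw [Set.uIoc]
    simp
  · exact ae_of_all _ hb

/-- The mean of the product of a function of `q^{iτ}` and a function of the other primes. -/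
theorem indep {q : ℕ} (hq : q.Prime) {g : ℝ → ℂ} (hg : Cl q g) (hgb : ∀ τ, ‖g τ‖ ≤ 1)
    (φ : ℝ → ℂ) (hm : Measurable φ) (hb : ∀ τ, ‖φ τ‖ ≤ 1)
    (hper : Function.Periodic φ (2 * Real.pi / Real.log q)) {η : ℝ} (hη : 0 < η) :
    ∀ᶠ T : ℝ in atTop, ‖∫ τ in (0 : ℝ)..T, φ τ * g τ‖ ≤
      (‖(∫ τ in (0 : ℝ)..(2 * Real.pi / Real.log q), φ τ) / (2 * Real.pi / Real.log q : ℝ)‖ + η) * T := by
  have hl : 0 < Real.log q := Real.log_pos (by exact_mod_cast hq.one_lt)
  set P := 2 * Real.pi / Real.log q with hPdef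
  have hP : 0 < P := by positivity
  set J : ℂ := (∫ τ in (0 : ℝ)..P, φ τ) / (P : ℝ) with hJ
  set δ := min 1 (η / 7) with hδdef
  have hδ : 0 < δ := lt_min one_pos (by positivity)
  have hδ1 : δ ≤ 1 := min_le_left _ _
  have hδ2 : δ ≤ η / 7 := min_le_right _ _
  obtain ⟨c, h1, h2⟩ := periodic_approx hq φ hm 1 hb hper hδ
  set t : ℝ → ℂ := fun τ => c.sum fun k a => a * ek q k τ with ht
  set M : ℝ := ∑ k ∈ c.support, ‖c k‖ with hM
  have hM0 : 0 ≤ M := sum_nonneg fun _ _ => norm_nonneg _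
  have htM : ∀ τ, ‖t τ‖ ≤ M := by
    intro τ
    simp only [ht, Finsupp.sum]
    refine (norm_sum_le _ _).trans (le_of_eq (sum_congr rfl fun k _ => ?_))
    rw [norm_mul, norm_ek, mul_one]
  have htc : Continuous t := by
    simp only [ht, Finsupp.sum]
    exact continuous_finsetSum _ fun k _ => continuous_const.mul (continuous_ek q k)
  obtain ⟨Q, hQ, h3⟩ := hg.2 (δ / (M + 1)) (by positivity)
  have hQc := TP_continuous hQ
  have hJ1 : ‖J‖ ≤ 1 := by
    rw [hJ, norm_div, Complex.norm_real, Real.norm_of_nonneg hP.le, div_le_one hP]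
    have := intervalIntegral.norm_integral_le_of_norm_le_const (C := 1) (f := φ) (a := 0) (b := P)
      fun τ _ => hb τ
    rw [sub_zero, abs_of_pos hP, one_mul] at this
    exact this
  -- the constant coefficient
  have hc0 : ‖c 0‖ ≤ ‖J‖ + δ := by
    have hek : ∀ k : ℤ, k ≠ 0 → ∫ τ in (0 : ℝ)..P, ek q k τ = 0 := by
      intro k hk
      unfold ek
      have hkc : ((k : ℝ) * Real.log q * Complex.I : ℂ) ≠ 0 := by
        refine mul_ne_zero (mul_ne_zero ?_ ?_) Complex.I_ne_zero
        · exact_mod_cast hk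
        · exact_mod_cast hl.ne'
      have e1 : ∀ τ : ℝ, Complex.exp ((τ * (k * Real.log q) : ℝ) * Complex.I) =
          Complex.exp (((k : ℝ) * Real.log q * Complex.I : ℂ) * τ) := by
        intro τ
        congr 1
        push_cast
        ring
      simp_rw [e1]
      rw [integral_exp_mul_complex hkc]
      have e2 : ((k : ℝ) * Real.log q * Complex.I : ℂ) * (P : ℝ) = k * (2 * Real.pi * Complex.I) := by
        rw [hPdef]
        have hl' : ((Real.log q : ℝ) : ℂ) ≠ 0 := by exact_mod_cast hl.ne'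
        rw [Complex.ofReal_div, Complex.ofReal_mul]
        field_simp
        push_cast
        ring
      rw [e2, Complex.exp_int_mul_two_pi_mul_I]
      simp
    have ht0 : ∫ τ in (0 : ℝ)..P, t τ = c 0 * P := by
      simp only [ht, Finsupp.sum]
      rw [intervalIntegral.integral_finsetSum]
      · have e3 : ∀ k ∈ c.support, ∫ τ in (0 : ℝ)..P, c k * ek q k τ = if k = 0 then c 0 * P else 0 := by
          intro k _
          rw [intervalIntegral.integral_const_mul]
          split_ifs with hk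
          · subst hk
            simp [ek_zero]
          · rw [hek k hk, mul_zero]
        rw [sum_congr rfl e3, sum_ite_eq']
        split_ifs with h0
        · rfl
        · rw [Finsupp.notMem_support_iff] at h0
          rw [h0, zero_mul]
      · intro k _
        exact (continuous_const.mul (continuous_ek q k)).intervalIntegrable _ _
    have h4 : ‖∫ τ in (0 : ℝ)..P, (φ τ - t τ)‖ ≤ δ * P :=
      norm_integral_le_of_lintegral hP.le (by positivity) h2
    rw [intervalIntegral.integral_sub (intInt_of_bound hm.aemeasurable hb _ _)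
      (htc.intervalIntegrable _ _), ht0] at h4
    have h5 : c 0 * P = J * P - ((∫ τ in (0 : ℝ)..P, φ τ) - c 0 * P) := by
      rw [hJ]
      have : (P : ℂ) ≠ 0 := by exact_mod_cast hP.ne'
      field_simp
      ring
    have h6 : ‖c 0‖ * P ≤ (‖J‖ + δ) * P := by
      have h7 : ‖c 0 * P‖ = ‖c 0‖ * P := by
        rw [norm_mul, Complex.norm_real, Real.norm_of_nonneg hP.le]
      rw [← h7, h5]
      refine (norm_sub_le _ _).trans ?_
      rw [norm_mul, Complex.norm_real, Real.norm_of_nonneg hP.le]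
      linarith
    exact le_of_mul_le_mul_right h6 hP
  -- the other coefficients
  have hrest : Tendsto (fun T : ℝ => ∑ k ∈ c.support.erase 0,
      c k * ((∫ τ in (0 : ℝ)..T, ek q k τ * Q τ) / T)) atTop (𝓝 0) := by
    have : (0 : ℂ) = ∑ k ∈ c.support.erase 0, c k * 0 := by simp
    rw [this]
    exact tendsto_finsetSum _ fun k hk => (mean_ek_mul hq (ne_of_mem_erase hk) hQ).const_mul _
  have hrest' := hrest.norm.eventually (gt_mem_nhds (show ‖(0 : ℂ)‖ < δ by rwa [norm_zero]))
  filter_upwards [h1, h3, hrest', eventually_gt_atTop (0 : ℝ)] with T e1 e3 e4 hT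
  have i1 : ‖∫ τ in (0 : ℝ)..T, (φ τ - t τ) * g τ‖ ≤ δ * T := by
    refine norm_integral_le_of_lintegral hT.le (by positivity) (le_trans ?_ e1)
    refine lintegral_mono fun τ => ?_
    rw [enorm_mul]
    calc ‖φ τ - t τ‖ₑ * ‖g τ‖ₑ ≤ ‖φ τ - t τ‖ₑ * 1 := by
          gcongr
          rw [← ofReal_norm, ← ENNReal.ofReal_one]
          exact ENNReal.ofReal_le_ofReal (hgb τ)
      _ = _ := mul_one _
  have i2 : ‖∫ τ in (0 : ℝ)..T, t τ * (g τ - Q τ)‖ ≤ δ * T := by
    refine norm_integral_le_of_lintegral hT.le (by positivity) ?_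
    calc ∫⁻ τ in Set.Ioc 0 T, ‖t τ * (g τ - Q τ)‖ₑ
        ≤ ∫⁻ τ in Set.Ioc 0 T, ENNReal.ofReal M * ‖g τ - Q τ‖ₑ := by
          refine lintegral_mono fun τ => ?_
          rw [enorm_mul]
          gcongr
          rw [← ofReal_norm]
          exact ENNReal.ofReal_le_ofReal (htM τ)
      _ = ENNReal.ofReal M * ∫⁻ τ in Set.Ioc 0 T, ‖g τ - Q τ‖ₑ := by
          rw [lintegral_const_mul' _ _ ENNReal.ofReal_ne_top]
      _ ≤ ENNReal.ofReal M * ENNReal.ofReal (δ / (M + 1) * T) := by gcongr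
      _ = ENNReal.ofReal (M * (δ / (M + 1) * T)) := by rw [← ENNReal.ofReal_mul hM0]
      _ ≤ ENNReal.ofReal (δ * T) := by
          refine ENNReal.ofReal_le_ofReal ?_
          have h5 : M * (δ / (M + 1) * T) = (M / (M + 1)) * (δ * T) := by ring
          rw [h5]
          have h6 : M / (M + 1) ≤ 1 := by
            rw [div_le_one (by positivity)]
            linarith
          calc (M / (M + 1)) * (δ * T) ≤ 1 * (δ * T) :=
                mul_le_mul_of_nonneg_right h6 (by positivity)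
            _ = _ := one_mul _
  have i3 : ‖∫ τ in (0 : ℝ)..T, (g τ - Q τ)‖ ≤ δ * T := by
    refine norm_integral_le_of_lintegral hT.le (by positivity) (e3.trans
      (ENNReal.ofReal_le_ofReal ?_))
    refine mul_le_mul_of_nonneg_right ?_ hT.le
    exact div_le_self hδ.le (by linarith)
  have i4 : ‖∫ τ in (0 : ℝ)..T, Q τ‖ ≤ (1 + δ) * T := by
    have h5 : ∫ τ in (0 : ℝ)..T, Q τ = (∫ τ in (0 : ℝ)..T, g τ) - ∫ τ in (0 : ℝ)..T, (g τ - Q τ) := by
      rw [intervalIntegral.integral_sub (intInt_of_bound hg.1 hgb _ _)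
        (hQc.intervalIntegrable _ _)]
      ring
    rw [h5]
    refine (norm_sub_le _ _).trans ?_
    have h6 := intervalIntegral.norm_integral_le_of_norm_le_const (C := 1) (f := g) (a := 0) (b := T)
      fun τ _ => hgb τ
    rw [sub_zero, abs_of_pos hT, one_mul] at h6
    linarith
  have i5 : ∫ τ in (0 : ℝ)..T, t τ * Q τ = c 0 * (∫ τ in (0 : ℝ)..T, Q τ) +
      (∑ k ∈ c.support.erase 0, c k * ((∫ τ in (0 : ℝ)..T, ek q k τ * Q τ) / T)) * T := by
    have h5 : ∀ τ, t τ * Q τ = ∑ k ∈ c.support, c k * (ek q k τ * Q τ) := by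
      intro τ
      simp only [ht, Finsupp.sum, sum_mul]
      exact sum_congr rfl fun k _ => by ring
    simp_rw [h5]
    rw [intervalIntegral.integral_finsetSum]
    · have h6 : ∀ k, ∫ τ in (0 : ℝ)..T, c k * (ek q k τ * Q τ) =
          c k * ∫ τ in (0 : ℝ)..T, ek q k τ * Q τ := fun k =>
        intervalIntegral.integral_const_mul _ _
      simp_rw [h6]
      have hTc : (T : ℂ) ≠ 0 := by exact_mod_cast hT.ne'
      rw [sum_mul]
      have h7 : ∀ k ∈ c.support.erase 0, c k * ((∫ τ in (0 : ℝ)..T, ek q k τ * Q τ) / T) * T =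
          c k * ∫ τ in (0 : ℝ)..T, ek q k τ * Q τ := by
        intro k _
        field_simp
      rw [sum_congr rfl h7]
      by_cases h0 : (0 : ℤ) ∈ c.support
      · rw [← add_sum_erase _ _ h0]
        congr 2
        refine intervalIntegral.integral_congr fun τ _ => ?_
        simp only [ek_zero, one_mul]
      · rw [Finsupp.notMem_support_iff] at h0
        rw [h0, zero_mul, zero_add, erase_eq_of_notMem]
        rwa [Finsupp.notMem_support_iff]
    · intro k _
      exact (continuous_const.mul ((continuous_ek q k).mul hQc)).intervalIntegrable _ _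
  have hsplit : ∫ τ in (0 : ℝ)..T, φ τ * g τ = (∫ τ in (0 : ℝ)..T, (φ τ - t τ) * g τ) +
      (∫ τ in (0 : ℝ)..T, t τ * (g τ - Q τ)) + ∫ τ in (0 : ℝ)..T, t τ * Q τ := by
    have j1 : IntervalIntegrable (fun τ => (φ τ - t τ) * g τ) volume 0 T := by
      refine intInt_of_bound ((hm.aemeasurable.sub htc.measurable.aemeasurable).mul hg.1)
        (B := (1 + M) * 1) (fun τ => ?_) _ _
      show ‖(φ τ - t τ) * g τ‖ ≤ _
      rw [norm_mul]
      exact mul_le_mul ((norm_sub_le _ _).trans (add_le_add (hb τ) (htM τ))) (hgb τ)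
        (norm_nonneg _) (by positivity)
    obtain ⟨M', hM'0, hM'⟩ := TP_bounded hQ
    have j2 : IntervalIntegrable (fun τ => t τ * (g τ - Q τ)) volume 0 T := by
      refine intInt_of_bound (htc.measurable.aemeasurable.mul
        (hg.1.sub hQc.measurable.aemeasurable)) (B := M * (1 + M')) (fun τ => ?_) _ _
      show ‖t τ * (g τ - Q τ)‖ ≤ _
      rw [norm_mul]
      exact mul_le_mul (htM τ) ((norm_sub_le _ _).trans (add_le_add (hgb τ) (hM' τ)))
        (norm_nonneg _) hM0
    have j3 : IntervalIntegrable (fun τ => t τ * Q τ) volume 0 T :=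
      (htc.mul hQc).intervalIntegrable _ _
    rw [← intervalIntegral.integral_add j1 j2, ← intervalIntegral.integral_add (j1.add j2) j3]
    refine intervalIntegral.integral_congr fun τ _ => ?_
    show φ τ * g τ = (φ τ - t τ) * g τ + t τ * (g τ - Q τ) + t τ * Q τ
    ring
  rw [hsplit, i5]
  set R : ℂ := ∑ k ∈ c.support.erase 0, c k * ((∫ τ in (0 : ℝ)..T, ek q k τ * Q τ) / T) with hR
  have i6 : ‖c 0 * (∫ τ in (0 : ℝ)..T, Q τ)‖ ≤ (‖J‖ + δ) * ((1 + δ) * T) := by
    rw [norm_mul]
    exact mul_le_mul hc0 i4 (norm_nonneg _) (by positivity)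
  have i7 : ‖R * T‖ ≤ δ * T := by
    rw [norm_mul, Complex.norm_real, Real.norm_of_nonneg hT.le]
    exact mul_le_mul_of_nonneg_right e4.le hT.le
  have i8 : ‖(∫ τ in (0 : ℝ)..T, (φ τ - t τ) * g τ) +
      (∫ τ in (0 : ℝ)..T, t τ * (g τ - Q τ)) + (c 0 * (∫ τ in (0 : ℝ)..T, Q τ) + R * T)‖ ≤
      δ * T + δ * T + ((‖J‖ + δ) * ((1 + δ) * T) + δ * T) :=
    (norm_add_le _ _).trans (add_le_add ((norm_add_le _ _).trans (add_le_add i1 i2))
      ((norm_add_le _ _).trans (add_le_add i6 i7)))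
  refine i8.trans ?_
  have h9 : (‖J‖ + δ) * (1 + δ) ≤ ‖J‖ + 3 * δ := by
    nlinarith [norm_nonneg J]
  have h10 : (‖J‖ + δ) * ((1 + δ) * T) = (‖J‖ + δ) * (1 + δ) * T := by ring
  have h11 := mul_le_mul_of_nonneg_right h9 hT.le
  have h12 : δ * T ≤ η / 7 * T := mul_le_mul_of_nonneg_right hδ2 hT.le
  rw [h10]
  have h13 : (‖J‖ + η) * T = ‖J‖ * T + 7 * (η / 7 * T) := by ring
  rw [h13]
  nlinarith

/-- `e^{iy}`. -/
noncomputable def ei (y : ℝ) : ℂ := Complex.exp (y * Complex.I)

lemma norm_ei (y : ℝ) : ‖ei y‖ = 1 := Complex.norm_exp_ofReal_mul_I _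

lemma ei_add (x y : ℝ) : ei (x + y) = ei x * ei y := by
  unfold ei
  rw [← Complex.exp_add]
  congr 1
  push_cast
  ring

lemma continuous_ei : Continuous ei := by
  unfold ei
  fun_prop

lemma ei_neg (x : ℝ) : ei (-x) = (starRingEnd ℂ) (ei x) := by
  unfold ei
  rw [← Complex.exp_conj]
  congr 1
  simp

lemma norm_ei_sub (x y : ℝ) : ‖ei x - ei y‖ ≤ |x - y| := by
  have h1 : ei x - ei y = ei y * (ei (x - y) - 1) := by
    rw [mul_sub, ← ei_add, mul_one]
    congr 2
    ring
  rw [h1, norm_mul, norm_ei, one_mul]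
  have := Real.norm_exp_I_mul_ofReal_sub_one_le (x := x - y)
  unfold ei
  rw [mul_comm, ← Real.norm_eq_abs]
  exact this

lemma ei_sum {ι : Type*} (s : Finset ι) (f : ι → ℝ) : ei (∑ i ∈ s, f i) = ∏ i ∈ s, ei (f i) := by
  unfold ei
  rw [Complex.ofReal_sum, sum_mul, Complex.exp_sum]

variable {r : ℕ → ℝ → ℝ} {c : ℕ → ℂ} {C : ℝ} {e : ℕ → ℝ} {E : Finset ℕ}

lemma ae_measurable_of_tendsto (hm : ∀ p, Measurable (r p)) {G : ℝ → ℝ}
    (hG : ∀ᵐ τ : ℝ, Tendsto (fun x => rS r x τ) atTop (𝓝 (G τ))) : AEMeasurable G :=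
  aemeasurable_of_tendsto_metrizable_ae atTop (fun x => (measurable_rS hm x).aemeasurable) hG

/-- The mean of `e^{iwG}`. -/
theorem char_bound (h : Approx r c C e E)
    (hper : ∀ p, p.Prime → Function.Periodic (r p) (2 * Real.pi / Real.log p)) {G : ℝ → ℝ}
    (hG : ∀ᵐ τ : ℝ, Tendsto (fun x => rS r x τ) atTop (𝓝 (G τ))) {q : ℕ} (hq : q.Prime) (w : ℝ)
    {η : ℝ} (hη : 0 < η) :
    ∀ᶠ T : ℝ in atTop, ‖∫ τ in (0 : ℝ)..T, ei (w * G τ)‖ ≤
      (‖(∫ τ in (0 : ℝ)..(2 * Real.pi / Real.log q), ei (w * r q τ)) /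
        (2 * Real.pi / Real.log q : ℝ)‖ + η) * T := by
  have hGm := ae_measurable_of_tendsto h.meas hG
  set g : ℝ → ℂ := fun τ => ei (w * (G τ - r q τ)) with hg
  have hgm : AEMeasurable g :=
    continuous_ei.measurable.comp_aemeasurable
      ((hGm.sub (h.meas q).aemeasurable).const_mul w)
  have hcl : Cl q g := by
    refine Cl.lim hgm fun η hη => ?_
    obtain ⟨J₀, hJ₀⟩ := h.tail G hG (η := η / (2 * (|w| + 1))) (by positivity)
    obtain ⟨J, hJ1, hJ2⟩ : ∃ J, J₀ ≤ J ∧ q < NN 1 J := by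
      obtain ⟨J, hJ⟩ := ((tendsto_NN 1).eventually (eventually_gt_atTop q)).exists_forall_of_atTop
      exact ⟨max J₀ J, le_max_left _ _, hJ _ (le_max_right _ _)⟩
    set F := ((range (NN 1 J)).filter Nat.Prime).erase q with hF
    have hqF : q ∈ (range (NN 1 J)).filter Nat.Prime := mem_filter.2 ⟨mem_range.2 hJ2, hq⟩
    refine ⟨fun τ => ∏ p ∈ F, ei (w * r p τ), ?_, ?_⟩
    · refine Cl.prod hq F (fun p hp => ?_) (fun p τ => ei (w * r p τ)) (fun p => ?_)
        (fun p τ => (norm_ei _).le) (fun p hp τ => ?_)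
      · rw [hF, mem_erase, mem_filter] at hp
        exact ⟨hp.2.2, hp.1⟩
      · exact continuous_ei.measurable.comp ((h.meas p).const_mul w)
      · simp only
        rw [hper p hp τ]
    · have hprod : ∀ τ, ∏ p ∈ F, ei (w * r p τ) = ei (w * (rS r (NN 1 J) τ - r q τ)) := by
        intro τ
        rw [← ei_sum, ← mul_sum]
        congr 2
        unfold rS
        rw [← add_sum_erase _ _ hqF]
        ring
      have h1 : ∀ τ, ‖g τ - ∏ p ∈ F, ei (w * r p τ)‖ₑ ≤
          ENNReal.ofReal |w| * ‖G τ - rS r (NN 1 J) τ‖ₑ := by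
        intro τ
        rw [hprod, ← ofReal_norm, ← ofReal_norm, ← ENNReal.ofReal_mul (abs_nonneg _)]
        refine ENNReal.ofReal_le_ofReal ((norm_ei_sub _ _).trans (le_of_eq ?_))
        rw [Real.norm_eq_abs, ← abs_mul]
        congr 1
        ring
      unfold Sm
      filter_upwards [eventually_ge_atTop (1 : ℝ)] with T hT
      have hT0 : 0 ≤ T := by linarith
      set n : ℕ := ⌈T⌉₊ with hn
      have hsub : Set.Ioc 0 T ⊆ ⋃ k ∈ Finset.range n, Set.Ioc ((k : ℝ)) ((k : ℝ) + 1) := by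
        intro τ hτ
        simp only [Set.mem_iUnion, Finset.mem_range]
        obtain ⟨k, hk⟩ : ∃ k : ℕ, ⌈τ⌉₊ = k + 1 := by
          refine Nat.exists_eq_succ_of_ne_zero ?_
          rw [← Nat.pos_iff_ne_zero, Nat.ceil_pos]
          exact hτ.1
        refine ⟨k, ?_, ?_, ?_⟩
        · have : ⌈τ⌉₊ ≤ n := Nat.ceil_mono hτ.2
          omega
        · rw [← Nat.lt_ceil, hk]
          omega
        · have h4 : τ ≤ (k + 1 : ℕ) := by
            rw [← Nat.ceil_le, hk]
          push_cast at h4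
          exact h4
      have hunion : ∀ (ψ : ℝ → ℝ≥0∞) (n : ℕ),
          ∫⁻ τ in ⋃ k ∈ Finset.range n, Set.Ioc ((k : ℝ)) ((k : ℝ) + 1), ψ τ ≤
          ∑ k ∈ Finset.range n, ∫⁻ τ in Set.Ioc ((k : ℝ)) ((k : ℝ) + 1), ψ τ := by
        intro ψ n
        induction n with
        | zero => simp
        | succ n ih =>
          rw [Finset.range_add_one, Finset.set_biUnion_insert, Finset.sum_insert (by simp)]
          refine (lintegral_union_le _ _ _).trans ?_
          gcongr
      calc ∫⁻ τ in Set.Ioc 0 T, ‖g τ - ∏ p ∈ F, ei (w * r p τ)‖ₑ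
          ≤ ∫⁻ τ in Set.Ioc 0 T, ENNReal.ofReal |w| * ‖G τ - rS r (NN 1 J) τ‖ₑ :=
            lintegral_mono h1
        _ = ENNReal.ofReal |w| * ∫⁻ τ in Set.Ioc 0 T, ‖G τ - rS r (NN 1 J) τ‖ₑ := by
            rw [lintegral_const_mul' _ _ ENNReal.ofReal_ne_top]
        _ ≤ ENNReal.ofReal |w| * (∑ k ∈ Finset.range n,
              ENNReal.ofReal (η / (2 * (|w| + 1)))) := by
            gcongr
            refine (lintegral_mono_set hsub).trans ((hunion _ n).trans ?_)
            gcongr with k _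
            exact hJ₀ J hJ1 k
        _ = ENNReal.ofReal (|w| * (n * (η / (2 * (|w| + 1))))) := by
            rw [sum_const, card_range, nsmul_eq_mul, ENNReal.ofReal_mul (abs_nonneg _),
              ENNReal.ofReal_mul (Nat.cast_nonneg _), ENNReal.ofReal_natCast]
        _ ≤ ENNReal.ofReal (η * T) := by
            refine ENNReal.ofReal_le_ofReal ?_
            have h5 : (n : ℝ) ≤ 2 * T := by
              have := Nat.ceil_lt_add_one hT0
              linarith
            have h6 : |w| * (η / (2 * (|w| + 1))) ≤ η / 2 := by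
              rw [← mul_div_assoc, div_le_div_iff₀ (by positivity) (by positivity)]
              nlinarith [abs_nonneg w]
            calc |w| * (n * (η / (2 * (|w| + 1)))) = n * (|w| * (η / (2 * (|w| + 1)))) := by ring
              _ ≤ 2 * T * (η / 2) := mul_le_mul h5 h6 (by positivity) (by positivity)
              _ = η * T := by ring
  have hφper : Function.Periodic (fun τ => ei (w * r q τ)) (2 * Real.pi / Real.log q) := by
    intro τ
    simp only
    rw [hper q hq τ]
  have h1 := indep hq hcl (fun τ => (norm_ei _).le) (fun τ => ei (w * r q τ))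
    (continuous_ei.measurable.comp ((h.meas q).const_mul w)) (fun τ => (norm_ei _).le) hφper hη
  filter_upwards [h1] with T hT
  refine le_trans (le_of_eq ?_) hT
  congr 1
  refine intervalIntegral.integral_congr fun τ _ => ?_
  simp only [hg]
  rw [← ei_add]
  congr 1
  ring

end Pool.Agent.Y774.MD
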