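import Pool.Agent.Y774.MD.Atoms
import Pool.Agent.Y774.MD.Circle
import Pool.Agent.W350.Edge5

/-!
# Euler products over the rational primes and their boundary values on the edge
-/

set_option autoImplicit false

namespace Pool.Agent.Y774.MD

open Filter Topology MeasureTheory Finset Pool.Agent.W350.Edge Polynomial

/-- The Euler factor `P_p(p^{-s})⁻¹`. -/
noncomputable def fac (P : ℕ → ℂ[X]) (p : ℕ) (s : ℂ) : ℂ := ((P p).eval ((p : ℂ) ^ (-s)))⁻¹

/-- The Euler product `∏ P_p(p^{-s})⁻¹` over the prime numbers. -/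
noncomputable def LQ (P : ℕ → ℂ[X]) (s : ℂ) : ℂ := ∏' p : Nat.Primes, fac P p s

/-- The Euler product is of degree `≤ D`, with factors that have no zeros in `|z| < p^{-θ}` and
coefficients satisfying the Rankin-Selberg bound. -/
structure IsEuler (P : ℕ → ℂ[X]) (D : ℕ) (θ C : ℝ) (E : Finset ℕ) : Prop where
  ne : ∀ p : ℕ, p.Prime → P p ≠ 0
  hθ : θ < 1 / 2
  good : ∀ p : ℕ, p.Prime → p ∉ E → (P p).coeff 0 = 1 ∧ (P p).natDegree ≤ D ∧
    ∀ z : ℂ, (P p).eval z = 0 → (p : ℝ) ^ (-θ) ≤ ‖z‖
  rs : ∀ x : ℕ, ∑ p ∈ (range x).filter Nat.Prime, ‖(P p).coeff 1‖ ^ 2 * Real.log p ≤ C * x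

lemma prod_coeff (s : Multiset ℂ) :
    (s.map fun a => (1 - C a * X : ℂ[X])).prod.coeff 0 = 1 ∧
      (s.map fun a => (1 - C a * X : ℂ[X])).prod.coeff 1 = -s.sum := by
  induction s using Multiset.induction_on with
  | empty => simp [coeff_one]
  | cons a s ih =>
    obtain ⟨h1, h2⟩ := ih
    rw [Multiset.map_cons, Multiset.prod_cons, Multiset.sum_cons]
    set Q := (s.map fun a => (1 - C a * X : ℂ[X])).prod
    have h3 : (1 - C a * X) * Q = Q - C a * (X * Q) := by ring
    rw [h3, coeff_sub, coeff_sub, coeff_C_mul, coeff_C_mul, coeff_X_mul, mul_coeff_zero, coeff_X_zero,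
      h1, h2]
    constructor <;> ring

lemma coeff_one_eq {P : ℂ[X]} (h0 : P.coeff 0 = 1) : P.coeff 1 = -(inv P).sum := by
  have h1 : P = ((inv P).map fun a => (1 - C a * X : ℂ[X])).prod := by
    refine Polynomial.funext fun z => ?_
    rw [eval_inv h0, eval_multiset_prod, Multiset.map_map]
    congr 1
    refine Multiset.map_congr rfl fun a _ => ?_
    simp
  conv_lhs => rw [h1]
  exact (prod_coeff _).2

variable {P : ℕ → ℂ[X]} {D : ℕ} {θ C : ℝ} {E : Finset ℕ}

/-- The coefficients. -/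
noncomputable def cc (P : ℕ → ℂ[X]) (E : Finset ℕ) (p : ℕ) : ℂ :=
  if p ∈ E then 0 else -((P p).coeff 1) / p

lemma IsEuler.C_nonneg (h : IsEuler P D θ C E) : 0 ≤ C := by
  have := h.rs 1
  have h1 : (range 1).filter Nat.Prime = ∅ := by
    ext p
    simp only [mem_filter, mem_range, notMem_empty, iff_false, not_and]
    intro hp
    have : p = 0 := by omega
    subst this
    decide
  rw [h1, sum_empty] at this
  simpa using this

lemma IsEuler.block (h : IsEuler P D θ C E) :
    BlockBound (cc P E) (2 * Real.exp 1 * C + CC) := by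
  intro k hk F hF
  have hk0 : (0 : ℝ) < k := by exact_mod_cast hk
  have hC := h.C_nonneg
  have hp : ∀ p ∈ F, (0 : ℝ) < p ∧ (k : ℝ) ≤ Real.log p ∧ Real.exp k ≤ p := by
    intro p hp
    obtain ⟨hpp, hl⟩ := hF p hp
    have h2 : (k : ℝ) ≤ Real.log p := by rw [← hl]; exact lg_le hpp.one_le
    have hp0 : (0 : ℝ) < p := by exact_mod_cast hpp.pos
    exact ⟨hp0, h2, (Real.le_log_iff_exp_le hp0).1 h2⟩
  have h1 : ∀ p ∈ F, ‖cc P E p‖ ≤
      Real.exp (-k) / k * (‖(P p).coeff 1‖ ^ 2 * Real.log p) + 1 / p := by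
    intro p hpF
    obtain ⟨hp0, hpk, hpe⟩ := hp p hpF
    have h2 : ‖cc P E p‖ ≤ ‖(P p).coeff 1‖ / p := by
      unfold cc
      split_ifs
      · rw [norm_zero]
        positivity
      · rw [norm_div, norm_neg, Complex.norm_natCast]
    have h3 : ‖(P p).coeff 1‖ / p ≤ ‖(P p).coeff 1‖ ^ 2 / p + 1 / p := by
      rw [← add_div]
      refine div_le_div_of_nonneg_right ?_ hp0.le
      nlinarith [sq_nonneg (‖(P p).coeff 1‖ - 1), norm_nonneg ((P p).coeff 1)]
    have h4 : ‖(P p).coeff 1‖ ^ 2 / p ≤ Real.exp (-k) / k * (‖(P p).coeff 1‖ ^ 2 * Real.log p) := by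
      have h5 : (1 : ℝ) / p ≤ Real.exp (-k) := by
        rw [Real.exp_neg, one_div]
        exact inv_anti₀ (Real.exp_pos _) hpe
      have h6 : 1 ≤ Real.log p / k := by
        rw [le_div_iff₀ hk0]
        linarith
      calc ‖(P p).coeff 1‖ ^ 2 / p = ‖(P p).coeff 1‖ ^ 2 * (1 / p) := by ring
        _ ≤ ‖(P p).coeff 1‖ ^ 2 * (Real.exp (-k) * (Real.log p / k)) := by
            refine mul_le_mul_of_nonneg_left ?_ (by positivity)
            calc (1 : ℝ) / p ≤ Real.exp (-k) * 1 := by rw [mul_one]; exact h5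
              _ ≤ _ := mul_le_mul_of_nonneg_left h6 (Real.exp_pos _).le
        _ = _ := by ring
    linarith
  have h2 : ∑ p ∈ F, ‖(P p).coeff 1‖ ^ 2 * Real.log p ≤ C * (2 * Real.exp (k + 1)) := by
    set x := ⌊Real.exp (k + 1)⌋₊ + 1 with hx
    have hsub : F ⊆ (range x).filter Nat.Prime := by
      intro p hpF
      obtain ⟨hpp, hl⟩ := hF p hpF
      obtain ⟨hp0, hpk, hpe⟩ := hp p hpF
      rw [mem_filter, mem_range, hx]
      refine ⟨Nat.lt_succ_of_le (Nat.le_floor ?_), hpp⟩
      rw [← Real.log_le_iff_le_exp hp0, ← hl]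
      exact (lt_lg p).le
    refine (sum_le_sum_of_subset_of_nonneg hsub fun p hp _ => ?_).trans ((h.rs x).trans ?_)
    · rw [mem_filter] at hp
      have := Real.log_nonneg (show (1 : ℝ) ≤ p by exact_mod_cast hp.2.one_le)
      positivity
    · refine mul_le_mul_of_nonneg_left ?_ hC
      have h3 : (⌊Real.exp (k + 1)⌋₊ : ℝ) ≤ Real.exp (k + 1) := Nat.floor_le (Real.exp_pos _).le
      have h4 : 1 ≤ Real.exp ((k : ℝ) + 1) := Real.one_le_exp (by positivity)
      rw [hx]
      push_cast
      linarith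
  have h3 := cheb F k hk hF
  calc ∑ p ∈ F, ‖cc P E p‖
      ≤ ∑ p ∈ F, (Real.exp (-k) / k * (‖(P p).coeff 1‖ ^ 2 * Real.log p) + 1 / p) :=
        sum_le_sum h1
    _ = Real.exp (-k) / k * (∑ p ∈ F, ‖(P p).coeff 1‖ ^ 2 * Real.log p) + ∑ p ∈ F, (1 : ℝ) / p := by
        rw [sum_add_distrib, mul_sum]
    _ ≤ Real.exp (-k) / k * (C * (2 * Real.exp (k + 1))) + CC / k := by
        refine add_le_add (mul_le_mul_of_nonneg_left h2 (by positivity)) ?_
        exact h3
    _ = (2 * Real.exp 1 * C + CC) / k := by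
        rw [Real.exp_add, Real.exp_neg]
        field_simp

lemma BlockBound.summable {c : ℕ → ℂ} {C : ℝ} (h : BlockBound c C) {σ : ℝ} (hσ : 0 < σ) :
    Summable fun p : ℕ => if p.Prime then Real.exp (-σ * Real.log p) * ‖c p‖ else 0 := by
  classical
  have hC := h.nonneg
  have hgeo : Summable fun k : ℕ => Real.exp (-σ) ^ k :=
    summable_geometric_of_lt_one (Real.exp_pos _).le (by rw [Real.exp_lt_one_iff]; linarith)
  refine summable_of_sum_le (c := ‖c 2‖ + C * ∑' k : ℕ, Real.exp (-σ) ^ k) (fun p => ?_) fun F => ?_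
  · split_ifs <;> positivity
  · rw [← sum_filter]
    set F' := F.filter Nat.Prime with hF'
    have hF'p : ∀ p ∈ F', p.Prime := fun p hp => (mem_filter.1 hp).2
    have hlog : ∀ p ∈ F', 0 ≤ Real.log p := fun p hp =>
      Real.log_nonneg (by exact_mod_cast (hF'p p hp).one_le)
    rw [← sum_filter_add_sum_filter_not F' (fun p => lg p = 0)]
    refine add_le_add ?_ ?_
    · have h1 : F'.filter (fun p => lg p = 0) ⊆ {2} := by
        intro p hp
        rw [mem_filter] at hp
        rw [mem_singleton]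
        have h2 := lt_lg p
        rw [hp.2] at h2
        have hp0 : (0 : ℝ) < p := by exact_mod_cast (hF'p p hp.1).pos
        have h3 : (p : ℝ) < Real.exp 1 := by
          rw [← Real.log_lt_iff_lt_exp hp0]
          simpa using h2
        have h4 : (p : ℝ) < 3 := by
          have := Real.exp_one_lt_d9
          linarith
        have h5 : p < 3 := by exact_mod_cast h4
        have := (hF'p p hp.1).two_le
        omega
      refine (sum_le_sum_of_subset_of_nonneg h1 fun p _ _ => by positivity).trans ?_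
      rw [sum_singleton]
      have h3 : Real.exp (-σ * Real.log (2 : ℕ)) ≤ 1 := by
        rw [Real.exp_le_one_iff]
        have := Real.log_nonneg (show (1 : ℝ) ≤ ((2 : ℕ) : ℝ) by norm_num)
        nlinarith
      calc Real.exp (-σ * Real.log (2 : ℕ)) * ‖c 2‖ ≤ 1 * ‖c 2‖ :=
            mul_le_mul_of_nonneg_right h3 (norm_nonneg _)
        _ = _ := one_mul _
    · set G := F'.filter (fun p => ¬ lg p = 0) with hG
      have hmaps : ∀ p ∈ G, lg p ∈ G.image lg := fun p hp => mem_image_of_mem _ hp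
      rw [← sum_fiberwise_of_maps_to hmaps]
      have h1 : ∀ k ∈ G.image lg, ∑ p ∈ G with lg p = k, Real.exp (-σ * Real.log p) * ‖c p‖ ≤
          C * Real.exp (-σ) ^ k := by
        intro k hk
        rw [mem_image] at hk
        obtain ⟨p₀, hp₀, hpk⟩ := hk
        have hk1 : 1 ≤ k := by
          rw [hG, mem_filter] at hp₀
          omega
        have hk0 : (1 : ℝ) ≤ k := by exact_mod_cast hk1
        calc ∑ p ∈ G with lg p = k, Real.exp (-σ * Real.log p) * ‖c p‖
            ≤ ∑ p ∈ G with lg p = k, Real.exp (-σ) ^ k * ‖c p‖ := by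
              refine sum_le_sum fun p hp => mul_le_mul_of_nonneg_right ?_ (norm_nonneg _)
              rw [mem_filter, hG, mem_filter] at hp
              rw [← Real.exp_nat_mul]
              refine Real.exp_le_exp.2 ?_
              have h2 := lg_le (hF'p p hp.1.1).one_le
              rw [hp.2] at h2
              nlinarith
          _ = Real.exp (-σ) ^ k * ∑ p ∈ G with lg p = k, ‖c p‖ := by rw [mul_sum]
          _ ≤ Real.exp (-σ) ^ k * (C / k) := by
              refine mul_le_mul_of_nonneg_left (h k hk1 _ fun p hp => ?_) (by positivity)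
              rw [mem_filter, hG, mem_filter] at hp
              exact ⟨hF'p p hp.1.1, hp.2⟩
          _ ≤ Real.exp (-σ) ^ k * C :=
              mul_le_mul_of_nonneg_left (div_le_self hC hk0) (by positivity)
          _ = _ := mul_comm _ _
      refine (sum_le_sum h1).trans ?_
      rw [← mul_sum]
      exact mul_le_mul_of_nonneg_left (hgeo.sum_le_tsum _ fun k _ => by positivity) hC

/-- The remainder of the logarithm. -/
noncomputable def Rm (P : ℕ → ℂ[X]) (p : ℕ) (s : ℂ) : ℂ :=
  LG (inv (P p)) ((p : ℂ) ^ (-s)) - (inv (P p)).sum * (p : ℂ) ^ (-s)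

lemma two_rpow : (2 : ℝ) ^ (-(1 / 2 : ℝ)) ≤ 3 / 4 := by
  rw [Real.rpow_neg two_pos.le, ← Real.sqrt_eq_rpow]
  have h1 : (4 / 3 : ℝ) ≤ Real.sqrt 2 := by
    refine Real.le_sqrt_of_sq_le ?_
    norm_num
  calc (Real.sqrt 2)⁻¹ ≤ (4 / 3 : ℝ)⁻¹ := inv_anti₀ (by norm_num) h1
    _ = 3 / 4 := by norm_num

lemma IsEuler.small (h : IsEuler P D θ C E) {p : ℕ} (hp : p.Prime) (hpE : p ∉ E) {s : ℂ}
    (hs : 1 ≤ s.re) : (p : ℝ) ^ (θ - 1) ≤ 3 / 4 ∧
      ∀ a ∈ inv (P p), ‖a * (p : ℂ) ^ (-s)‖ ≤ (p : ℝ) ^ (θ - 1) := by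
  have hp0 : (0 : ℝ) < p := by exact_mod_cast hp.pos
  have hp1 : (1 : ℝ) ≤ p := by exact_mod_cast hp.one_le
  have hp2 : (2 : ℝ) ≤ p := by exact_mod_cast hp.two_le
  obtain ⟨h0, hd, hz⟩ := h.good p hp hpE
  constructor
  · have h1 : (p : ℝ) ^ (θ - 1) ≤ (p : ℝ) ^ (-(1 / 2) : ℝ) :=
      Real.rpow_le_rpow_of_exponent_le hp1 (by have := h.hθ; linarith)
    refine h1.trans (le_trans ?_ two_rpow)
    exact Real.rpow_le_rpow_of_nonpos two_pos hp2 (by norm_num)
  · intro a ha
    have h1 := norm_inv_le h0 (by positivity) hz a ha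
    rw [← Real.rpow_neg hp0.le, neg_neg] at h1
    rw [norm_mul, Complex.norm_natCast_cpow_of_pos hp.pos, Real.rpow_sub hp0, div_eq_mul_inv]
    refine mul_le_mul h1 ?_ (by positivity) (by positivity)
    rw [← Real.rpow_neg hp0.le]
    refine Real.rpow_le_rpow_of_exponent_le hp1 ?_
    rw [Complex.neg_re]
    linarith

lemma IsEuler.norm_Rm (h : IsEuler P D θ C E) {p : ℕ} (hp : p.Prime) (hpE : p ∉ E) {s : ℂ}
    (hs : 1 ≤ s.re) : ‖Rm P p s‖ ≤ 2 * D * (p : ℝ) ^ (2 * θ - 2) := by
  obtain ⟨h1, h2⟩ := h.small hp hpE hs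
  have hp0 : (0 : ℝ) < p := by exact_mod_cast hp.pos
  have h3 := LG_approx h1 h2
  unfold Rm
  refine h3.trans ?_
  have h4 : ((p : ℝ) ^ (θ - 1)) ^ 2 = (p : ℝ) ^ (2 * θ - 2) := by
    rw [← Real.rpow_natCast, ← Real.rpow_mul hp0.le]
    congr 1
    push_cast
    ring
  rw [h4]
  refine mul_le_mul_of_nonneg_right ?_ (by positivity)
  have h5 : (Multiset.card (inv (P p)) : ℝ) ≤ D := by
    exact_mod_cast (card_inv_le _).trans (h.good p hp hpE).2.1
  linarith

lemma IsEuler.fac_eq (h : IsEuler P D θ C E) {p : ℕ} (hp : p.Prime) (hpE : p ∉ E) {s : ℂ}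
    (hs : 1 ≤ s.re) : fac P p s = Complex.exp (LG (inv (P p)) ((p : ℂ) ^ (-s))) := by
  obtain ⟨h1, h2⟩ := h.small hp hpE hs
  unfold fac
  rw [eval_inv (h.good p hp hpE).1, exp_LG]
  intro a ha
  exact Complex.slitPlane_ne_zero (one_sub_slit (lt_of_le_of_lt (h2 a ha) (by linarith)))

lemma natCast_cpow_eq {p : ℕ} (hp : 0 < p) (s : ℂ) :
    (p : ℂ) ^ (-s) = Complex.exp (-s * Real.log p) := by
  have hq0 : (p : ℂ) ≠ 0 := by exact_mod_cast hp.ne'
  rw [Complex.cpow_def_of_ne_zero hq0, ← Complex.ofReal_natCast, Complex.ofReal_log (Nat.cast_nonneg _),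
    mul_comm]

/-- The logarithm of the factor near the edge. -/
lemma IsEuler.LG_eq (h : IsEuler P D θ C E) {p : ℕ} (hp : p.Prime) (hpE : p ∉ E) (z : ℂ) (τ : ℝ) :
    LG (inv (P p)) ((p : ℂ) ^ (-(1 + z + τ * Complex.I))) =
      Complex.exp (-z * Real.log p) * (cc P E p * Complex.exp (-(τ * Real.log p) * Complex.I)) +
        Rm P p (1 + z + τ * Complex.I) := by
  unfold Rm
  have h0 := (h.good p hp hpE).1
  have h1 : (inv (P p)).sum = -(P p).coeff 1 := by rw [coeff_one_eq h0, neg_neg]
  have h2 : (inv (P p)).sum * (p : ℂ) ^ (-(1 + z + τ * Complex.I)) =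
      Complex.exp (-z * Real.log p) *
        (cc P E p * Complex.exp (-(τ * Real.log p) * Complex.I)) := by
    rw [h1, natCast_cpow_eq hp.pos]
    unfold cc
    rw [if_neg hpE]
    have h3 : -(1 + z + τ * Complex.I) * (Real.log p : ℂ) =
        -z * Real.log p + -(τ * Real.log p) * Complex.I + -((Real.log p : ℝ) : ℂ) := by ring
    rw [h3, Complex.exp_add, Complex.exp_add]
    have h4 : Complex.exp (-((Real.log p : ℝ) : ℂ)) = 1 / (p : ℂ) := by
      rw [Complex.exp_neg, ← Complex.ofReal_exp, Real.exp_log (by exact_mod_cast hp.pos),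
        Complex.ofReal_natCast, one_div]
    rw [h4]
    ring
  rw [h2]
  ring

lemma summable_e (h : IsEuler P D θ C E) : Summable fun p : ℕ => 2 * D * (p : ℝ) ^ (2 * θ - 2) := by
  refine Summable.mul_left _ ?_
  rw [Real.summable_nat_rpow]
  have := h.hθ
  linarith

lemma continuous_cpow {p : ℕ} (hp : 0 < p) : Continuous fun s : ℂ => (p : ℂ) ^ (-s) := by
  have hq0 : (p : ℂ) ≠ 0 := by exact_mod_cast hp.ne'
  exact continuous_neg.const_cpow (Or.inl hq0)

lemma continuousAt_LG {s : Multiset ℂ} {z : ℂ} (h : ∀ a ∈ s, 1 - a * z ∈ Complex.slitPlane) :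
    ContinuousAt (LG s) z := by
  induction s using Multiset.induction_on with
  | empty =>
    have : LG 0 = fun _ => 0 := by
      funext z
      simp [LG]
    rw [this]
    exact continuousAt_const
  | cons a s ih =>
    have h2 : LG (a ::ₘ s) = fun z => -Complex.log (1 - a * z) + LG s z := by
      funext z
      simp [LG]
    rw [h2]
    refine ContinuousAt.add (ContinuousAt.neg (ContinuousAt.clog ?_ (h a (Multiset.mem_cons_self a s))))
      (ih fun b hb => h b (Multiset.mem_cons_of_mem hb))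
    fun_prop

lemma IsEuler.continuousAt_Rm (h : IsEuler P D θ C E) {p : ℕ} (hp : p.Prime) (hpE : p ∉ E) {s : ℂ}
    (hs : 1 ≤ s.re) : ContinuousAt (Rm P p) s := by
  obtain ⟨h1, h2⟩ := h.small hp hpE hs
  unfold Rm
  have h3 : ContinuousAt (fun s : ℂ => (p : ℂ) ^ (-s)) s := (continuous_cpow hp.pos).continuousAt
  have h4 : ContinuousAt (LG (inv (P p))) ((p : ℂ) ^ (-s)) :=
    continuousAt_LG fun a ha => one_sub_slit (lt_of_le_of_lt (h2 a ha) (by linarith))
  have h5 : ContinuousAt (fun s : ℂ => LG (inv (P p)) ((p : ℂ) ^ (-s))) s :=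
    ContinuousAt.comp (f := fun s : ℂ => (p : ℂ) ^ (-s)) (g := LG (inv (P p))) h4 h3
  exact h5.sub (continuousAt_const.mul h3)

/-- `log |fac|`. -/
noncomputable def rl (P : ℕ → ℂ[X]) (p : ℕ) (τ : ℝ) : ℝ :=
  Real.log ‖fac P p (1 + τ * Complex.I)‖

/-- **Boundary values.** -/
theorem IsEuler.edge (h : IsEuler P D θ C E) : ∀ᵐ τ : ℝ, ∃ l : ℂ, l ≠ 0 ∧
    Tendsto (fun σ : ℝ => LQ P (1 + σ + τ * Complex.I)) (𝓝[>] 0) (𝓝 l) ∧
    Tendsto (fun x => rS (rl P) x τ) atTop (𝓝 (Real.log ‖l‖)) := by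
  classical
  have hzero : ∀ᵐ τ : ℝ, ∀ p ∈ E, p.Prime → (P p).eval ((p : ℂ) ^ (-(1 + τ * Complex.I))) ≠ 0 := by
    rw [eventually_all_finset]
    intro p _
    by_cases hp : p.Prime
    · have hroots : ((P p).roots.toFinset : Set ℂ).Finite := Finset.finite_toSet _
      have hc : {τ : ℝ | (P p).eval ((p : ℂ) ^ (-(1 + τ * Complex.I))) = 0} ⊆
          ⋃ z ∈ (P p).roots.toFinset, {τ : ℝ | (p : ℂ) ^ (-(1 + (τ : ℂ) * Complex.I)) = z} := by
        intro τ hτ
        simp only [Set.mem_iUnion]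
        refine ⟨_, ?_, rfl⟩
        rw [Multiset.mem_toFinset, mem_roots (h.ne p hp)]
        exact hτ
      have hcount : ∀ z : ℂ, {τ : ℝ | (p : ℂ) ^ (-(1 + (τ : ℂ) * Complex.I)) = z}.Countable := by
        intro z
        have hl : 0 < Real.log p := Real.log_pos (by exact_mod_cast hp.one_lt)
        rcases Set.eq_empty_or_nonempty {τ : ℝ | (p : ℂ) ^ (-(1 + (τ : ℂ) * Complex.I)) = z} with h1 | ⟨τ₀, h0⟩
        · rw [h1]
          exact Set.countable_empty
        · refine (Set.countable_range fun k : ℤ => τ₀ - k * (2 * Real.pi) / Real.log p).mono ?_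
          intro τ hτ
          have h2 : (p : ℂ) ^ (-(1 + (τ : ℂ) * Complex.I)) = (p : ℂ) ^ (-(1 + (τ₀ : ℂ) * Complex.I)) :=
            hτ.trans h0.symm
          rw [natCast_cpow_eq hp.pos, natCast_cpow_eq hp.pos, Complex.exp_eq_exp_iff_exists_int] at h2
          obtain ⟨k, hk⟩ := h2
          refine ⟨k, ?_⟩
          have h3 : ((τ₀ - τ : ℝ) : ℂ) * Real.log p * Complex.I =
              ((k * (2 * Real.pi) : ℝ) : ℂ) * Complex.I := by
            simp only [Complex.ofReal_sub, Complex.ofReal_mul, Complex.ofReal_intCast,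
              Complex.ofReal_ofNat]
            linear_combination hk
          have h4 := mul_right_cancel₀ Complex.I_ne_zero h3
          have h5 : (τ₀ - τ) * Real.log p = k * (2 * Real.pi) := by exact_mod_cast h4
          simp only
          field_simp
          linarith
      have h1 := (Set.Countable.biUnion (Finset.countable_toSet _)
        fun z (_ : z ∈ (P p).roots.toFinset) => hcount z).mono hc
      have h2 : volume {τ : ℝ | (P p).eval ((p : ℂ) ^ (-(1 + τ * Complex.I))) = 0} = 0 :=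
        h1.measure_zero _
      rw [ae_iff]
      refine measure_mono_null (fun τ hτ => ?_) h2
      simp only [Classical.not_imp, not_not, Set.mem_ofPred_eq] at hτ
      exact hτ.2
    · exact ae_of_all _ fun τ hp' => absurd hp' hp
  filter_upwards [ae_converge h.block, hzero] with τ ⟨A, hA⟩ hz
  set s₀ : ℂ := 1 + τ * Complex.I with hs₀
  set E' := E.filter Nat.Prime with hE'
  set b : ℕ → ℂ := fun n => if n.Prime then cc P E n * Complex.exp (-(τ * Real.log n) * Complex.I)
    else 0 with hb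
  set R : ℂ → ℕ → ℂ := fun s n => if n.Prime ∧ n ∉ E then Rm P n s else 0 with hR
  set B : ℂ → ℕ → ℂ := fun s n => if n ∈ E' then fac P n s else 1 with hB
  set F : ℂ → ℕ → ℂ := fun s n => if n.Prime then fac P n s else 1 with hF
  have hbA : Tendsto (fun x => ∑ n ∈ range x, b n) atTop (𝓝 A) := by
    refine hA.congr fun x => ?_
    unfold pS
    rw [sum_filter]
  have hFB : ∀ z : ℂ, 0 ≤ z.re → ∀ n, F (1 + z + τ * Complex.I) n = B (1 + z + τ * Complex.I) n *
      Complex.exp (Complex.exp (-z * Real.log n) * b n + R (1 + z + τ * Complex.I) n) := by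
    intro z hz n
    have hre : 1 ≤ (1 + z + τ * Complex.I).re := by
      simp
      linarith
    by_cases hn : n.Prime
    · by_cases hnE : n ∈ E
      · have hnE' : n ∈ E' := mem_filter.2 ⟨hnE, hn⟩
        simp only [hF, hB, hb, hR]
        rw [if_pos hn, if_pos hnE', if_pos hn, if_neg (by tauto)]
        unfold cc
        rw [if_pos hnE]
        simp
      · have hnE' : n ∉ E' := fun h => hnE (mem_filter.1 h).1
        simp only [hF, hB, hb, hR]
        rw [if_pos hn, if_neg hnE', if_pos hn, if_pos ⟨hn, hnE⟩, one_mul, h.fac_eq hn hnE hre,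
          h.LG_eq hn hnE z τ]
    · have hnE' : n ∉ E' := fun h => hn (mem_filter.1 h).2
      simp only [hF, hB, hb, hR]
      rw [if_neg hn, if_neg hnE', if_neg hn, if_neg (by tauto)]
      simp
  have hBprod : ∀ s, HasProd (B s) (∏ n ∈ E', B s n) := fun s =>
    hasProd_prod_of_ne_finset_one fun n hn => by simp only [hB]; rw [if_neg hn]
  have hRb : ∀ s : ℂ, 1 ≤ s.re → ∀ n, ‖R s n‖ ≤ 2 * D * (n : ℝ) ^ (2 * θ - 2) := by
    intro s hs n
    simp only [hR]
    split_ifs with h1
    · exact h.norm_Rm h1.1 h1.2 hs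
    · rw [norm_zero]
      positivity
  have hRsum : ∀ s : ℂ, 1 ≤ s.re → Summable (R s) := fun s hs =>
    Summable.of_norm_bounded (summable_e h) (hRb s hs)
  have hbs : ∀ z : ℂ, 0 < z.re → Summable fun n : ℕ => Complex.exp (-z * Real.log n) * b n := by
    intro z hz
    refine Summable.of_norm_bounded (h.block.summable hz) fun n => ?_
    simp only [hb]
    split_ifs with hn
    · rw [norm_mul, norm_mul]
      have h1 : ‖Complex.exp (-(τ * Real.log n) * Complex.I)‖ = 1 := by
        rw [Complex.norm_exp]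
        have : (-((τ : ℂ) * (Real.log n : ℂ)) * Complex.I).re = 0 := by
          rw [Complex.mul_I_re, ← Complex.ofReal_mul, ← Complex.ofReal_neg, Complex.ofReal_im,
            neg_zero]
        rw [this, Real.exp_zero]
      have h2 : ‖Complex.exp (-z * Real.log n)‖ = Real.exp (-z.re * Real.log n) := by
        rw [Complex.norm_exp, Complex.mul_re, Complex.ofReal_re, Complex.ofReal_im, mul_zero,
          sub_zero, Complex.neg_re]
      rw [h1, h2, mul_one]
    · simp
  have hs₀re : 1 ≤ s₀.re := by simp [hs₀]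
  set l : ℂ := (∏ n ∈ E', B s₀ n) * Complex.exp (A + ∑' n, R s₀ n) with hl
  have hl0 : l ≠ 0 := by
    refine mul_ne_zero (prod_ne_zero_iff.2 fun n hn => ?_) (Complex.exp_ne_zero _)
    simp only [hB]
    rw [if_pos hn]
    exact inv_ne_zero (hz n (mem_filter.1 hn).1 (mem_filter.1 hn).2)
  refine ⟨l, hl0, ?_, ?_⟩
  · -- the radial limit
    have t1 : Tendsto (fun σ : ℝ => (1 + σ + τ * Complex.I : ℂ)) (𝓝[>] 0) (𝓝 s₀) := by
      have h1 : Continuous fun σ : ℝ => (1 + σ + τ * Complex.I : ℂ) := by fun_prop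
      have h2 := (h1.tendsto 0).mono_left (nhdsWithin_le_nhds (s := Set.Ioi (0 : ℝ)))
      simpa [hs₀] using h2
    have t2 : Tendsto (fun σ : ℝ => ∏ n ∈ E', B (1 + σ + τ * Complex.I) n) (𝓝[>] 0)
        (𝓝 (∏ n ∈ E', B s₀ n)) := by
      refine tendsto_finsetProd _ fun n hn => ?_
      have hn' := mem_filter.1 hn
      have h1 : ContinuousAt (fun s => B s n) s₀ := by
        simp only [hB, if_pos hn]
        unfold fac
        refine ContinuousAt.inv₀ ?_ (hz n hn'.1 hn'.2)
        exact ((P n).continuous.comp (continuous_cpow hn'.2.pos)).continuousAt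
      exact h1.tendsto.comp t1
    have t3 : Tendsto (fun σ : ℝ => ∑' n, R (1 + σ + τ * Complex.I) n) (𝓝[>] 0)
        (𝓝 (∑' n, R s₀ n)) := by
      refine tendsto_tsum_of_dominated_convergence (summable_e h) (fun n => ?_) ?_
      · by_cases hn : n.Prime ∧ n ∉ E
        · simp only [hR, if_pos hn]
          exact (h.continuousAt_Rm hn.1 hn.2 hs₀re).tendsto.comp t1
        · simp only [hR, if_neg hn]
          exact tendsto_const_nhds
      · filter_upwards [self_mem_nhdsWithin] with σ hσ n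
        refine hRb _ ?_ n
        have : (0 : ℝ) < σ := hσ
        simp
        linarith
    have t4 : Tendsto (fun σ : ℝ => ∑' n : ℕ, Complex.exp (-(σ : ℂ) * Real.log n) * b n) (𝓝[>] 0)
        (𝓝 A) := by
      have h1 := abel_stolz b A hbA hbs 1
      refine h1.comp (tendsto_nhdsWithin_iff.2 ⟨?_, ?_⟩)
      · have h2 : Continuous fun σ : ℝ => (σ : ℂ) := by fun_prop
        have h3 := (h2.tendsto 0).mono_left (nhdsWithin_le_nhds (s := Set.Ioi (0 : ℝ)))
        simpa using h3
      · filter_upwards [self_mem_nhdsWithin] with σ hσ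
        have h2 : (0 : ℝ) < σ := hσ
        refine ⟨by simpa using h2, ?_⟩
        rw [Complex.norm_real, Real.norm_of_nonneg h2.le]
        simp
    have t5 := t2.mul ((Complex.continuous_exp.tendsto _).comp (t4.add t3))
    refine t5.congr' ?_
    filter_upwards [self_mem_nhdsWithin] with σ hσ
    have hσ0 : (0 : ℝ) < σ := hσ
    have hre : 1 ≤ (1 + (σ : ℂ) + τ * Complex.I).re := by
      simp
      linarith
    have h6 : HasProd (F (1 + σ + τ * Complex.I)) ((∏ n ∈ E', B (1 + σ + τ * Complex.I) n) *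
        Complex.exp ((∑' n : ℕ, Complex.exp (-(σ : ℂ) * Real.log n) * b n) +
          ∑' n, R (1 + σ + τ * Complex.I) n)) := by
      have h7 := (hbs σ (by simpa using hσ0)).hasSum.add (hRsum _ hre).hasSum
      have h8 := (hBprod (1 + σ + τ * Complex.I)).mul h7.cexp
      have h9 : F (1 + σ + τ * Complex.I) = fun n => B (1 + σ + τ * Complex.I) n *
          (Complex.exp ∘ fun n : ℕ => (Complex.exp (-(σ : ℂ) * Real.log n) * b n +
            R (1 + σ + τ * Complex.I) n)) n := by
        funext n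
        exact hFB σ (by simpa using hσ0.le) n
      rw [h9]
      exact h8
    have h10 : HasProd (fun p : Nat.Primes => fac P p (1 + σ + τ * Complex.I))
        ((∏ n ∈ E', B (1 + σ + τ * Complex.I) n) *
        Complex.exp ((∑' n : ℕ, Complex.exp (-(σ : ℂ) * Real.log n) * b n) +
          ∑' n, R (1 + σ + τ * Complex.I) n)) := by
      have h11 : Function.Injective (fun p : Nat.Primes => (p : ℕ)) := Subtype.val_injective
      have h12 := (h11.hasProd_iff (f := F (1 + σ + τ * Complex.I)) (fun n hn => by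
        simp only [hF]
        rw [if_neg]
        intro hn'
        exact hn ⟨⟨n, hn'⟩, rfl⟩)).2 h6
      refine h12.congr_fun ?_ |> fun h => h
      intro p
      simp only [Function.comp_apply, hF]
      rw [if_pos p.2]
    exact h10.tprod_eq.symm
  · -- the partial products
    have t1 : Tendsto (fun x => ∏ n ∈ range x, F s₀ n) atTop (𝓝 l) := by
      have h2 := (hRsum s₀ hs₀re).hasSum.tendsto_sum_nat
      have h3 := (hBprod s₀).tendsto_prod_nat
      have h4 := h3.mul ((Complex.continuous_exp.tendsto _).comp (hbA.add h2))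
      refine h4.congr fun x => ?_
      simp only [Function.comp_apply]
      rw [← sum_add_distrib, Complex.exp_sum, ← prod_mul_distrib]
      refine prod_congr rfl fun n _ => ?_
      have h5 := hFB 0 le_rfl n
      rw [add_zero] at h5
      rw [hs₀, h5]
      simp
    have t2 : Tendsto (fun x => Real.log ‖∏ n ∈ range x, F s₀ n‖) atTop (𝓝 (Real.log ‖l‖)) :=
      (Real.continuousAt_log (norm_ne_zero_iff.2 hl0)).tendsto.comp t1.norm
    refine t2.congr fun x => ?_
    have hF0 : ∀ n, F s₀ n ≠ 0 := by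
      intro n
      simp only [hF]
      split_ifs with hn
      · by_cases hnE : n ∈ E
        · exact inv_ne_zero (hz n hnE hn)
        · rw [h.fac_eq hn hnE hs₀re]
          exact Complex.exp_ne_zero _
      · exact one_ne_zero
    rw [norm_prod, Real.log_prod fun n _ => norm_ne_zero_iff.2 (hF0 n)]
    unfold rS rl
    rw [sum_filter]
    refine sum_congr rfl fun n _ => ?_
    simp only [hF]
    split_ifs
    · rfl
    · simp

end Pool.Agent.Y774.MD
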