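import Pool.Agent.Y774.MD.Trig

/-!
# Independence of one prime from the others in the mean
-/

set_option autoImplicit false

namespace Pool.Agent.Y774.MD

open Filter Topology MeasureTheory Finset
open scoped ENNReal Pointwise

/-- The function `(a/b)^{iτ}`. -/
noncomputable def chi (a b : ℕ) (τ : ℝ) : ℂ :=
  Complex.exp ((τ * (Real.log a - Real.log b) : ℝ) * Complex.I)

lemma norm_chi (a b : ℕ) (τ : ℝ) : ‖chi a b τ‖ = 1 := Complex.norm_exp_ofReal_mul_I _

lemma continuous_chi (a b : ℕ) : Continuous (chi a b) := by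
  unfold chi
  fun_prop

lemma chi_mul {a b c d : ℕ} (ha : 0 < a) (hb : 0 < b) (hc : 0 < c) (hd : 0 < d) :
    chi a b * chi c d = chi (a * c) (b * d) := by
  funext τ
  rw [Pi.mul_apply]
  unfold chi
  rw [← Complex.exp_add, ← add_mul, ← Complex.ofReal_add]
  congr 3
  have ha' : (a : ℝ) ≠ 0 := by exact_mod_cast ha.ne'
  have hb' : (b : ℝ) ≠ 0 := by exact_mod_cast hb.ne'
  have hc' : (c : ℝ) ≠ 0 := by exact_mod_cast hc.ne'
  have hd' : (d : ℝ) ≠ 0 := by exact_mod_cast hd.ne'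
  rw [Nat.cast_mul, Nat.cast_mul, Real.log_mul ha' hc', Real.log_mul hb' hd']
  ring

/-- The characters not involving the prime `q`. -/
def charSet (q : ℕ) : Set (ℝ → ℂ) :=
  {f | ∃ a b : ℕ, 0 < a ∧ 0 < b ∧ ¬ q ∣ a ∧ ¬ q ∣ b ∧ f = chi a b}

/-- Trigonometric polynomials not involving the prime `q`. -/
noncomputable def TP (q : ℕ) : Submodule ℂ (ℝ → ℂ) := Submodule.span ℂ (charSet q)

lemma one_mem_TP {q : ℕ} (hq : q.Prime) : (fun _ => 1 : ℝ → ℂ) ∈ TP q := by
  refine Submodule.subset_span ⟨1, 1, one_pos, one_pos, ?_, ?_, ?_⟩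
  · exact hq.one_lt.ne' ∘ Nat.dvd_one.1
  · exact hq.one_lt.ne' ∘ Nat.dvd_one.1
  · funext τ
    simp [chi]

lemma mul_mem_TP {q : ℕ} (hq : q.Prime) {f g : ℝ → ℂ} (hf : f ∈ TP q) (hg : g ∈ TP q) :
    f * g ∈ TP q := by
  unfold TP at *
  have h1 : f * g ∈ Submodule.span ℂ (charSet q) * Submodule.span ℂ (charSet q) :=
    Submodule.mul_mem_mul hf hg
  rw [Submodule.span_mul_span] at h1
  refine Submodule.span_mono ?_ h1
  rintro _ ⟨_, ⟨a, b, ha, hb, hqa, hqb, rfl⟩, _, ⟨c, d, hc, hd, hqc, hqd, rfl⟩, rfl⟩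
  refine ⟨a * c, b * d, by positivity, by positivity, ?_, ?_, chi_mul ha hb hc hd⟩
  · rw [hq.dvd_mul]
    tauto
  · rw [hq.dvd_mul]
    tauto

lemma TP_continuous {q : ℕ} {f : ℝ → ℂ} (hf : f ∈ TP q) : Continuous f := by
  unfold TP at hf
  induction hf using Submodule.span_induction with
  | mem f hf =>
    obtain ⟨a, b, -, -, -, -, rfl⟩ := hf
    exact continuous_chi a b
  | zero => exact continuous_const
  | add f g _ _ hf hg => exact hf.add hg
  | smul c f _ hf => exact hf.const_smul c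

lemma TP_bounded {q : ℕ} {f : ℝ → ℂ} (hf : f ∈ TP q) : ∃ M : ℝ, 0 ≤ M ∧ ∀ τ, ‖f τ‖ ≤ M := by
  unfold TP at hf
  induction hf using Submodule.span_induction with
  | mem f hf =>
    obtain ⟨a, b, -, -, -, -, rfl⟩ := hf
    exact ⟨1, zero_le_one, fun τ => (norm_chi a b τ).le⟩
  | zero => exact ⟨0, le_rfl, fun τ => by simp⟩
  | add f g _ _ hf hg =>
    obtain ⟨M, h0, hM⟩ := hf
    obtain ⟨M', h0', hM'⟩ := hg
    exact ⟨M + M', by positivity, fun τ => (norm_add_le _ _).trans (add_le_add (hM τ) (hM' τ))⟩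
  | smul c f _ hf =>
    obtain ⟨M, h0, hM⟩ := hf
    refine ⟨‖c‖ * M, by positivity, fun τ => ?_⟩
    rw [Pi.smul_apply, norm_smul]
    exact mul_le_mul_of_nonneg_left (hM τ) (norm_nonneg _)

/-- The mean value of a nontrivial character is zero. -/
lemma mean_exp {μ : ℝ} (hμ : μ ≠ 0) :
    Tendsto (fun T : ℝ => (∫ τ in (0 : ℝ)..T, Complex.exp ((τ * μ : ℝ) * Complex.I)) / T) atTop
      (𝓝 0) := by
  have hc : (μ * Complex.I : ℂ) ≠ 0 := mul_ne_zero (by exact_mod_cast hμ) Complex.I_ne_zero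
  have h1 : ∀ T : ℝ, ‖∫ τ in (0 : ℝ)..T, Complex.exp ((τ * μ : ℝ) * Complex.I)‖ ≤ 2 / |μ| := by
    intro T
    have h2 : ∀ τ : ℝ, Complex.exp ((τ * μ : ℝ) * Complex.I) =
        Complex.exp ((μ * Complex.I) * τ) := by
      intro τ
      congr 1
      push_cast
      ring
    simp_rw [h2]
    rw [integral_exp_mul_complex hc, norm_div, norm_mul, Complex.norm_I, mul_one,
      Complex.norm_real, Real.norm_eq_abs]
    refine div_le_div_of_nonneg_right ?_ (abs_nonneg _)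
    refine (norm_sub_le _ _).trans ?_
    rw [Complex.norm_exp, Complex.norm_exp]
    simp
    norm_num
  refine squeeze_zero_norm (a := fun T : ℝ => (2 / |μ|) / |T|) (fun T => ?_) ?_
  · rw [norm_div, Complex.norm_real, Real.norm_eq_abs]
    exact div_le_div_of_nonneg_right (h1 T) (abs_nonneg _)
  · exact Tendsto.div_atTop tendsto_const_nhds tendsto_abs_atTop_atTop

lemma log_ne {q : ℕ} (hq : q.Prime) {k : ℤ} (hk : k ≠ 0) {a b : ℕ} (ha : 0 < a) (hb : 0 < b)
    (hqa : ¬ q ∣ a) (hqb : ¬ q ∣ b) :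
    (k : ℝ) * Real.log q + (Real.log a - Real.log b) ≠ 0 := by
  intro h
  have ha' : (0 : ℝ) < a := by exact_mod_cast ha
  have hb' : (0 : ℝ) < b := by exact_mod_cast hb
  have hq' : (0 : ℝ) < q := by exact_mod_cast hq.pos
  rcases lt_or_gt_of_ne hk with hk | hk
  · obtain ⟨n, hn⟩ : ∃ n : ℕ, k = -((n + 1 : ℕ) : ℤ) := ⟨(-k - 1).toNat, by omega⟩
    subst hn
    have h1 : Real.log a = Real.log (q ^ (n + 1) * b) := by
      rw [Real.log_mul (by positivity) hb'.ne', Real.log_pow]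
      push_cast at h ⊢
      linarith
    have h2 := Real.log_injOn_pos (Set.mem_Ioi.2 ha') (Set.mem_Ioi.2 (by positivity)) h1
    have h3 : a = q ^ (n + 1) * b := by exact_mod_cast h2
    refine hqa ?_
    rw [h3]
    exact Dvd.dvd.mul_right (dvd_pow_self q (by omega)) _
  · obtain ⟨n, hn⟩ : ∃ n : ℕ, k = ((n + 1 : ℕ) : ℤ) := ⟨(k - 1).toNat, by omega⟩
    subst hn
    have h1 : Real.log b = Real.log (q ^ (n + 1) * a) := by
      rw [Real.log_mul (by positivity) ha'.ne', Real.log_pow]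
      push_cast at h ⊢
      linarith
    have h2 := Real.log_injOn_pos (Set.mem_Ioi.2 hb') (Set.mem_Ioi.2 (by positivity)) h1
    have h3 : b = q ^ (n + 1) * a := by exact_mod_cast h2
    refine hqb ?_
    rw [h3]
    exact Dvd.dvd.mul_right (dvd_pow_self q (by omega)) _

/-- The character `q^{ikτ}`. -/
noncomputable def ek (q : ℕ) (k : ℤ) (τ : ℝ) : ℂ := Complex.exp ((τ * (k * Real.log q) : ℝ) * Complex.I)

lemma norm_ek (q : ℕ) (k : ℤ) (τ : ℝ) : ‖ek q k τ‖ = 1 := Complex.norm_exp_ofReal_mul_I _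

lemma continuous_ek (q : ℕ) (k : ℤ) : Continuous (ek q k) := by
  unfold ek
  fun_prop

lemma ek_zero (q : ℕ) (τ : ℝ) : ek q 0 τ = 1 := by simp [ek]

/-- Orthogonality. -/
lemma mean_ek_mul {q : ℕ} (hq : q.Prime) {k : ℤ} (hk : k ≠ 0) {f : ℝ → ℂ} (hf : f ∈ TP q) :
    Tendsto (fun T : ℝ => (∫ τ in (0 : ℝ)..T, ek q k τ * f τ) / T) atTop (𝓝 0) := by
  have hc : ∀ g : ℝ → ℂ, Continuous g → ∀ T : ℝ,
      IntervalIntegrable (fun τ => ek q k τ * g τ) volume 0 T := fun g hg T =>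
    ((continuous_ek q k).mul hg).intervalIntegrable _ _
  unfold TP at hf
  induction hf using Submodule.span_induction with
  | mem f hf =>
    obtain ⟨a, b, ha, hb, hqa, hqb, rfl⟩ := hf
    refine (mean_exp (log_ne hq hk ha hb hqa hqb)).congr fun T => ?_
    congr 1
    refine intervalIntegral.integral_congr fun τ _ => ?_
    simp only [ek, chi]
    rw [← Complex.exp_add, ← add_mul, ← Complex.ofReal_add]
    congr 3
    ring
  | zero =>
    refine tendsto_const_nhds.congr fun T => ?_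
    simp
  | add f g hf' hg' hf hg =>
    have h1 := hf.add hg
    rw [add_zero] at h1
    refine h1.congr fun T => ?_
    rw [← add_div, ← intervalIntegral.integral_add (hc f (TP_continuous hf') T)
      (hc g (TP_continuous hg') T)]
    congr 1
    refine intervalIntegral.integral_congr fun τ _ => ?_
    simp only [Pi.add_apply]
    ring
  | smul c f hf' hf =>
    have h1 := hf.const_mul c
    rw [mul_zero] at h1
    refine h1.congr fun T => ?_
    rw [← mul_div_assoc, ← intervalIntegral.integral_const_mul]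
    congr 1
    refine intervalIntegral.integral_congr fun τ _ => ?_
    simp only [Pi.smul_apply, smul_eq_mul]
    ring

/-- `f` is at most `η` in the mean. -/
def Sm (f : ℝ → ℂ) (η : ℝ) : Prop :=
  ∀ᶠ T : ℝ in atTop, ∫⁻ τ in Set.Ioc 0 T, ‖f τ‖ₑ ≤ ENNReal.ofReal (η * T)

lemma Sm.mono {f g : ℝ → ℂ} {η : ℝ} (hg : Sm g η) (h : ∀ τ, ‖f τ‖ ≤ ‖g τ‖) : Sm f η := by
  filter_upwards [hg] with T hT
  refine (lintegral_mono fun τ => ?_).trans hT
  rw [← ofReal_norm, ← ofReal_norm]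
  exact ENNReal.ofReal_le_ofReal (h τ)

lemma Sm.add {f g : ℝ → ℂ} {η η' : ℝ} (hη : 0 ≤ η) (hη' : 0 ≤ η') (hf : Sm f η) (hg : Sm g η')
    (hm : AEMeasurable f) : Sm (fun τ => f τ + g τ) (η + η') := by
  filter_upwards [hf, hg, eventually_ge_atTop (0 : ℝ)] with T h1 h2 hT
  calc ∫⁻ τ in Set.Ioc 0 T, ‖f τ + g τ‖ₑ ≤ ∫⁻ τ in Set.Ioc 0 T, (‖f τ‖ₑ + ‖g τ‖ₑ) :=
        lintegral_mono fun τ => enorm_add_le _ _
    _ = (∫⁻ τ in Set.Ioc 0 T, ‖f τ‖ₑ) + ∫⁻ τ in Set.Ioc 0 T, ‖g τ‖ₑ :=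
        lintegral_add_left' hm.restrict.enorm _
    _ ≤ ENNReal.ofReal (η * T) + ENNReal.ofReal (η' * T) := add_le_add h1 h2
    _ = ENNReal.ofReal ((η + η') * T) := by
        rw [← ENNReal.ofReal_add (by positivity) (by positivity), add_mul]

lemma Sm.bmul {f g : ℝ → ℂ} {η M : ℝ} (hM : 0 ≤ M) (hg : Sm g η)
    (h : ∀ τ, ‖f τ‖ ≤ M) : Sm (fun τ => f τ * g τ) (M * η) := by
  filter_upwards [hg] with T hT
  calc ∫⁻ τ in Set.Ioc 0 T, ‖f τ * g τ‖ₑ ≤ ∫⁻ τ in Set.Ioc 0 T, ENNReal.ofReal M * ‖g τ‖ₑ := by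
        refine lintegral_mono fun τ => ?_
        rw [enorm_mul]
        gcongr
        rw [← ofReal_norm]
        exact ENNReal.ofReal_le_ofReal (h τ)
    _ = ENNReal.ofReal M * ∫⁻ τ in Set.Ioc 0 T, ‖g τ‖ₑ := by
        rw [lintegral_const_mul' _ _ ENNReal.ofReal_ne_top]
    _ ≤ ENNReal.ofReal M * ENNReal.ofReal (η * T) := by gcongr
    _ = ENNReal.ofReal (M * η * T) := by
        rw [← ENNReal.ofReal_mul hM, mul_assoc]

/-- Functions approximable in the mean by trigonometric polynomials not involving `q`. -/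
def Cl (q : ℕ) (g : ℝ → ℂ) : Prop :=
  AEMeasurable g ∧ ∀ η : ℝ, 0 < η → ∃ Q ∈ TP q, Sm (fun τ => g τ - Q τ) η

lemma Cl.one {q : ℕ} (hq : q.Prime) : Cl q (fun _ => 1) := by
  refine ⟨aemeasurable_const, fun η hη => ⟨_, one_mem_TP hq, ?_⟩⟩
  unfold Sm
  filter_upwards with T
  simp

lemma Cl.lim {q : ℕ} {g : ℝ → ℂ} (hgm : AEMeasurable g)
    (h : ∀ η : ℝ, 0 < η → ∃ g', Cl q g' ∧ Sm (fun τ => g τ - g' τ) η) : Cl q g := by
  refine ⟨hgm, fun η hη => ?_⟩
  obtain ⟨g', hg', h1⟩ := h (η / 2) (by positivity)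
  obtain ⟨Q, hQ, h2⟩ := hg'.2 (η / 2) (by positivity)
  refine ⟨Q, hQ, ?_⟩
  have h3 := h1.add (by positivity) (by positivity) h2 (hgm.sub hg'.1)
  rw [add_halves] at h3
  refine h3.mono fun τ => le_of_eq ?_
  congr 1
  ring

/-- Periodic functions are approximable in the mean by trigonometric polynomials. -/
lemma periodic_approx {p : ℕ} (hp : p.Prime) (φ : ℝ → ℂ) (hm : Measurable φ)
    (B : ℝ) (hb : ∀ τ, ‖φ τ‖ ≤ B) (hper : Function.Periodic φ (2 * Real.pi / Real.log p))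
    {η : ℝ} (hη : 0 < η) :
    ∃ c : ℤ →₀ ℂ, Sm (fun τ => φ τ - c.sum fun k a => a * ek p k τ) η ∧
      ∫⁻ τ in Set.Ioc 0 (2 * Real.pi / Real.log p), ‖φ τ - c.sum fun k a => a * ek p k τ‖ₑ ≤
        ENNReal.ofReal (η * (2 * Real.pi / Real.log p)) := by
  have hl : 0 < Real.log p := Real.log_pos (by exact_mod_cast hp.one_lt)
  set P := 2 * Real.pi / Real.log p with hPdef
  have hP : 0 < P := by positivity
  obtain ⟨c, hc⟩ := trig_approx hP φ hm B hb (half_pos hη)
  have heq : ∀ (τ : ℝ) (k : ℤ), Complex.exp (2 * Real.pi * Complex.I * k * τ / P) = ek p k τ := by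
    intro τ k
    unfold ek
    congr 1
    rw [hPdef]
    have hpi : (Real.pi : ℂ) ≠ 0 := by exact_mod_cast Real.pi_ne_zero
    have hl' : ((Real.log p : ℝ) : ℂ) ≠ 0 := by exact_mod_cast hl.ne'
    push_cast
    field_simp
  simp_rw [heq] at hc
  refine ⟨c, ?_, hc.trans (ENNReal.ofReal_le_ofReal (by nlinarith))⟩
  have hekper : ∀ k : ℤ, Function.Periodic (ek p k) P := by
    intro k τ
    unfold ek
    have h1 : ((((τ + P) * (k * Real.log p) : ℝ) : ℂ)) * Complex.I =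
        ((τ * (k * Real.log p) : ℝ) : ℂ) * Complex.I + k * (2 * Real.pi * Complex.I) := by
      have h2 : P * Real.log p = 2 * Real.pi := by
        rw [hPdef]
        field_simp
      have h3 : (τ + P) * (k * Real.log p) = τ * (k * Real.log p) + k * (2 * Real.pi) := by
        rw [add_mul]
        congr 1
        calc P * (k * Real.log p) = k * (P * Real.log p) := by ring
          _ = _ := by rw [h2]
      rw [h3]
      push_cast
      ring
    rw [h1, Complex.exp_add, Complex.exp_int_mul_two_pi_mul_I, mul_one]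
  have hψ : Function.Periodic (fun τ => ‖φ τ - c.sum fun k a => a * ek p k τ‖ₑ) P := by
    intro τ
    simp only
    rw [hper τ]
    congr 2
    unfold Finsupp.sum
    refine sum_congr rfl fun k _ => ?_
    beta_reduce
    rw [hekper k τ]
  unfold Sm
  filter_upwards [eventually_ge_atTop P, eventually_ge_atTop (0 : ℝ)] with T hT hT0
  refine (lint_periodic hP _ hψ hT0).trans ?_
  refine (mul_le_mul_right hc (ENNReal.ofReal (T / P + 1))).trans ?_
  rw [← ENNReal.ofReal_mul (by positivity)]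
  refine ENNReal.ofReal_le_ofReal ?_
  have h1 : (T / P + 1) * (η / 2 * P) = η / 2 * (T + P) := by
    field_simp
  rw [h1]
  nlinarith

lemma trig_mem_TP {q p : ℕ} (hq : q.Prime) (hp : p.Prime) (hpq : p ≠ q) (c : ℤ →₀ ℂ) :
    (fun τ => c.sum fun k a => a * ek p k τ) ∈ TP q := by
  have h1 : (fun τ => c.sum fun k a => a * ek p k τ) = ∑ k ∈ c.support, c k • ek p k := by
    funext τ
    simp [Finsupp.sum, Finset.sum_apply]
  rw [h1]
  refine Submodule.sum_mem _ fun k _ => Submodule.smul_mem _ _ (Submodule.subset_span ?_)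
  have hnd : ∀ n : ℕ, ¬ q ∣ p ^ n := fun n h =>
    hpq ((Nat.prime_dvd_prime_iff_eq hq hp).1 (hq.dvd_of_dvd_pow h)).symm
  have h1 : ¬ q ∣ 1 := hq.one_lt.ne' ∘ Nat.dvd_one.1
  rcases le_total 0 k with hk | hk
  · obtain ⟨n, rfl⟩ := Int.eq_ofNat_of_zero_le hk
    refine ⟨p ^ n, 1, pow_pos hp.pos _, one_pos, hnd n, h1, ?_⟩
    funext τ
    unfold ek chi
    congr 3
    rw [Nat.cast_pow, Real.log_pow]
    simp
  · obtain ⟨n, hn⟩ := Int.exists_eq_neg_ofNat hk
    subst hn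
    refine ⟨1, p ^ n, one_pos, pow_pos hp.pos _, h1, hnd n, ?_⟩
    funext τ
    unfold ek chi
    congr 3
    rw [Nat.cast_pow, Real.log_pow]
    simp

lemma Cl.mul_periodic {q p : ℕ} (hq : q.Prime) (hp : p.Prime) (hpq : p ≠ q) {g : ℝ → ℂ}
    (hg : Cl q g) (φ : ℝ → ℂ) (hm : Measurable φ)
    (hb : ∀ τ, ‖φ τ‖ ≤ 1) (hper : Function.Periodic φ (2 * Real.pi / Real.log p)) :
    Cl q (fun τ => φ τ * g τ) := by
  refine ⟨hm.aemeasurable.mul hg.1, fun η hη => ?_⟩
  obtain ⟨Q, hQ, h1⟩ := hg.2 (η / 2) (by positivity)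
  obtain ⟨M, hM0, hM⟩ := TP_bounded hQ
  obtain ⟨c, h2, -⟩ := periodic_approx hp φ hm 1 hb hper
    (show 0 < η / (2 * (M + 1)) by positivity)
  refine ⟨_, mul_mem_TP hq (trig_mem_TP hq hp hpq c) hQ, ?_⟩
  have h3 := h1.bmul zero_le_one hb
  have h4 := h2.bmul (f := Q) hM0 hM
  have h5 := h3.add (by positivity) (by positivity) h4
    (hm.aemeasurable.mul (hg.1.sub (TP_continuous hQ).measurable.aemeasurable))
  have h6 : 1 * (η / 2) + M * (η / (2 * (M + 1))) ≤ η := by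
    have : M * (η / (2 * (M + 1))) ≤ η / 2 := by
      rw [← mul_div_assoc, div_le_div_iff₀ (by positivity) (by positivity)]
      nlinarith
    linarith
  have h7 : Sm (fun τ => φ τ * (g τ - Q τ) + Q τ * (φ τ - c.sum fun k a => a * ek p k τ)) η := by
    filter_upwards [h5, eventually_ge_atTop (0 : ℝ)] with T hT hT0
    exact hT.trans (ENNReal.ofReal_le_ofReal (mul_le_mul_of_nonneg_right h6 hT0))
  refine h7.mono fun τ => le_of_eq ?_
  congr 1
  simp only [Pi.mul_apply]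
  ring

/-- Products over finite sets of primes. -/
lemma Cl.prod {q : ℕ} (hq : q.Prime) (F : Finset ℕ) (hF : ∀ p ∈ F, p.Prime ∧ p ≠ q)
    (φ : ℕ → ℝ → ℂ) (hm : ∀ p, Measurable (φ p)) (hb : ∀ p τ, ‖φ p τ‖ ≤ 1)
    (hper : ∀ p, p.Prime → Function.Periodic (φ p) (2 * Real.pi / Real.log p)) :
    Cl q (fun τ => ∏ p ∈ F, φ p τ) := by
  classical
  induction F using Finset.induction_on with
  | empty => simpa using Cl.one hq
  | insert p F hpF ih =>
    have h1 := ih fun p' hp' => hF p' (mem_insert_of_mem hp')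
    obtain ⟨hp, hpq⟩ := hF p (mem_insert_self _ _)
    have h2 := h1.mul_periodic hq hp hpq (φ p) (hm p) (hb p) (hper p hp)
    simpa only [prod_insert hpF] using h2

end Pool.Agent.Y774.MD
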