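import Mathlib

/-!
# Trigonometric polynomials are dense in the mean for bounded measurable periodic functions
-/

set_option autoImplicit false

namespace Pool.Agent.Y774.MD

open Filter Topology MeasureTheory Finset
open scoped ENNReal

/-- `L¹` approximation by trigonometric polynomials on a period. -/
lemma trig_approx {P : ℝ} (hP : 0 < P) (φ : ℝ → ℂ) (hm : Measurable φ) (B : ℝ)
    (hb : ∀ τ, ‖φ τ‖ ≤ B) {η : ℝ} (hη : 0 < η) :
    ∃ c : ℤ →₀ ℂ, ∫⁻ τ in Set.Ioc 0 P,
      ‖φ τ - c.sum fun k a => a * Complex.exp (2 * Real.pi * Complex.I * k * τ / P)‖ₑ ≤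
        ENNReal.ofReal (η * P) := by
  classical
  have hF : Fact (0 < P) := ⟨hP⟩
  set Φ : AddCircle P → ℂ := fun x => φ ((AddCircle.measurableEquivIoc P 0 x : Set.Ioc 0 (0 + P)) : ℝ)
    with hΦ
  have hΦm : Measurable Φ := hm.comp (measurable_subtype_coe.comp
    (AddCircle.measurableEquivIoc P 0).measurable)
  have hΦL : MemLp Φ 1 (AddCircle.haarAddCircle (T := P)) := by
    refine MemLp.of_bound hΦm.aestronglyMeasurable B (ae_of_all _ fun x => hb _)
  have hcl : hΦL.toLp Φ ∈ (Submodule.span ℂ (Set.range (fourierLp (T := P) 1))).topologicalClosure := by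
    rw [span_fourierLp_closure_eq_top (by simp)]
    exact Submodule.mem_top
  have hcl' : hΦL.toLp Φ ∈ closure ((Submodule.span ℂ (Set.range (fourierLp (T := P) 1)) :
      Submodule ℂ (Lp ℂ 1 (AddCircle.haarAddCircle (T := P)))) : Set _) := hcl
  obtain ⟨g, hg, hgd⟩ := Metric.mem_closure_iff.1 hcl' η hη
  obtain ⟨c, hc⟩ := Finsupp.mem_span_range_iff_exists_finsupp.1 hg
  refine ⟨c, ?_⟩
  set h : C(AddCircle P, ℂ) := c.sum fun k a => a • fourier k with hh
  have hgh : g = ContinuousMap.toLp (E := ℂ) 1 AddCircle.haarAddCircle ℂ h := by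
    rw [← hc, hh, Finsupp.sum, Finsupp.sum, map_sum]
    refine sum_congr rfl fun k _ => ?_
    rw [map_smul]
  have hval : ∀ τ : ℝ, h (τ : AddCircle P) =
      c.sum fun k a => a * Complex.exp (2 * Real.pi * Complex.I * k * τ / P) := by
    intro τ
    rw [hh, Finsupp.sum, Finsupp.sum, ContinuousMap.sum_apply]
    refine sum_congr rfl fun k _ => ?_
    rw [ContinuousMap.smul_apply, fourier_coe_apply, smul_eq_mul]
  have h1 : ∫⁻ x, ‖Φ x - h x‖ₑ ∂(AddCircle.haarAddCircle (T := P)) ≤ ENNReal.ofReal η := by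
    have h2 : ‖hΦL.toLp Φ - g‖ₑ ≤ ENNReal.ofReal η := by
      rw [← ofReal_norm, ← dist_eq_norm]
      exact ENNReal.ofReal_le_ofReal hgd.le
    rw [Lp.enorm_def, eLpNorm_one_eq_lintegral_enorm] at h2
    refine le_trans (le_of_eq (lintegral_congr_ae ?_)) h2
    have h3 := Lp.coeFn_sub (hΦL.toLp Φ) g
    have h4 := hΦL.coeFn_toLp
    have h5 : ⇑g =ᵐ[AddCircle.haarAddCircle] h := by
      rw [hgh]
      exact ContinuousMap.coeFn_toLp AddCircle.haarAddCircle h
    filter_upwards [h3, h4, h5] with x e3 e4 e5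
    rw [e3, Pi.sub_apply, e4, e5]
  have h2 := AddCircle.lintegral_preimage P 0 (fun x => ‖Φ x - h x‖ₑ)
  rw [zero_add] at h2
  have h3 : ∫⁻ τ in Set.Ioc 0 P,
      ‖φ τ - c.sum fun k a => a * Complex.exp (2 * Real.pi * Complex.I * k * τ / P)‖ₑ =
      ∫⁻ τ in Set.Ioc 0 P, ‖Φ (τ : AddCircle P) - h (τ : AddCircle P)‖ₑ := by
    refine setLIntegral_congr_fun measurableSet_Ioc fun τ hτ => ?_
    have h4 : Φ (τ : AddCircle P) = φ τ := by
      simp only [hΦ]
      have h5 : AddCircle.measurableEquivIoc P 0 (τ : AddCircle P) =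
          ⟨τ, by rw [zero_add]; exact hτ⟩ :=
        AddCircle.equivIoc_coe_eq (by rw [zero_add]; exact hτ)
      rw [h5]
    rw [h4, hval]
  rw [h3, h2, AddCircle.volume_eq_smul_haarAddCircle, lintegral_smul_measure, smul_eq_mul,
    mul_comm η P, ENNReal.ofReal_mul hP.le]
  gcongr

/-- The integral of a periodic function. -/
lemma lint_periodic {P : ℝ} (hP : 0 < P) (ψ : ℝ → ℝ≥0∞) (hper : Function.Periodic ψ P) {T : ℝ}
    (hT : 0 ≤ T) :
    ∫⁻ τ in Set.Ioc 0 T, ψ τ ≤ ENNReal.ofReal (T / P + 1) * ∫⁻ τ in Set.Ioc 0 P, ψ τ := by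
  set n : ℕ := ⌈T / P⌉₊ with hn
  have h0 : 0 ≤ T / P := by positivity
  have h1 : Set.Ioc 0 T ⊆ ⋃ k ∈ Finset.range n, Set.Ioc ((k : ℝ) * P) ((k : ℝ) * P + P) := by
    intro τ hτ
    simp only [Set.mem_iUnion, Finset.mem_range]
    have h2 : 0 < τ / P := div_pos hτ.1 hP
    have h3 : ∃ k : ℕ, ⌈τ / P⌉₊ = k + 1 := by
      refine Nat.exists_eq_succ_of_ne_zero ?_
      rw [← Nat.pos_iff_ne_zero, Nat.ceil_pos]
      exact h2
    obtain ⟨k, hk⟩ := h3
    refine ⟨k, ?_, ?_, ?_⟩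
    · have : ⌈τ / P⌉₊ ≤ n := Nat.ceil_mono (div_le_div_of_nonneg_right hτ.2 hP.le)
      omega
    · have h4 : (k : ℝ) < τ / P := by
        rw [← Nat.lt_ceil, hk]
        omega
      rwa [lt_div_iff₀ hP] at h4
    · have h4 : τ / P ≤ (k + 1 : ℕ) := by
        rw [← Nat.ceil_le, hk]
      rw [div_le_iff₀ hP] at h4
      push_cast at h4
      linarith
  have hshift : ∀ k : ℕ, ∫⁻ τ in Set.Ioc ((k : ℝ) * P) ((k : ℝ) * P + P), ψ τ =
      ∫⁻ τ in Set.Ioc 0 P, ψ τ := by
    intro k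
    have h2 : MeasurePreserving (fun τ : ℝ => τ + (k : ℝ) * P) volume volume :=
      measurePreserving_add_right volume _
    have h3 : MeasurableEmbedding (fun τ : ℝ => τ + (k : ℝ) * P) :=
      measurableEmbedding_addRight _
    have h4 := h2.setLIntegral_comp_preimage_emb h3 ψ (Set.Ioc ((k : ℝ) * P) ((k : ℝ) * P + P))
    rw [← h4]
    have h5 : (fun τ : ℝ => τ + (k : ℝ) * P) ⁻¹' (Set.Ioc ((k : ℝ) * P) ((k : ℝ) * P + P)) =
        Set.Ioc 0 P := by
      ext τ
      simp only [Set.mem_preimage, Set.mem_Ioc]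
      constructor
      · rintro ⟨a, b⟩
        exact ⟨by linarith, by linarith⟩
      · rintro ⟨a, b⟩
        exact ⟨by linarith, by linarith⟩
    rw [h5]
    refine lintegral_congr fun τ => ?_
    exact hper.nat_mul k τ
  calc ∫⁻ τ in Set.Ioc 0 T, ψ τ
      ≤ ∫⁻ τ in ⋃ k ∈ Finset.range n, Set.Ioc ((k : ℝ) * P) ((k : ℝ) * P + P), ψ τ :=
        lintegral_mono_set h1
    _ ≤ ∑ k ∈ Finset.range n, ∫⁻ τ in Set.Ioc ((k : ℝ) * P) ((k : ℝ) * P + P), ψ τ := by
        clear_value n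
        clear h1 hn
        induction n with
        | zero => simp
        | succ n ih =>
          rw [Finset.range_add_one, Finset.set_biUnion_insert, Finset.sum_insert (by simp)]
          refine (lintegral_union_le _ _ _).trans ?_
          gcongr
    _ = n * ∫⁻ τ in Set.Ioc 0 P, ψ τ := by
        simp_rw [hshift]
        rw [Finset.sum_const, Finset.card_range, nsmul_eq_mul]
    _ ≤ _ := by
        gcongr
        rw [← ENNReal.ofReal_natCast]
        exact ENNReal.ofReal_le_ofReal (Nat.ceil_lt_add_one h0).le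

end Pool.Agent.Y774.MD
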